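import Mathlib

set_option autoImplicit false

/-!
# S6 / MP_f126a2_nt: the law of the Tunnell digits in the thin family. Definitions.
-/

namespace Pool.Agent.TLW

open Finset

/-! ### Linear algebra over the field with two elements -/

/-- sign of an element of `ZMod 2` -/
def sg (x : ZMod 2) : ℝ := if x = 0 then 1 else -1

/-- Matrix with off-diagonal part `R` and diagonal `u`. -/
def MM {ι : Type*} [DecidableEq ι] (R : ι → ι → ZMod 2) (u : ι → ZMod 2) : Matrix ι ι (ZMod 2) :=
  Matrix.of fun i j => if i = j then u i else R i j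

/-- The augmented matrix `[[M, l], [s, L]]` on `Option ι`. -/
def CC {ι : Type*} [DecidableEq ι] (R : ι → ι → ZMod 2) (s l u : ι → ZMod 2) (L : ZMod 2) :
    Matrix (Option ι) (Option ι) (ZMod 2) :=
  Matrix.of fun i j => match i, j with
    | some i, some j => MM R u i j
    | some i, none => l i
    | none, some j => s j
    | none, none => L

/-- Bordering of a matrix by a column `c`, a row `r` and a corner `t`. -/
def brd {κ : Type*} (A : Matrix κ κ (ZMod 2)) (c r : κ → ZMod 2) (t : ZMod 2) :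
    Matrix (Option κ) (Option κ) (ZMod 2) :=
  Matrix.of fun i j => match i, j with
    | some i, some j => A i j
    | some i, none => c i
    | none, some j => r j
    | none, none => t

/-- corank -/
noncomputable def crk {κ : Type*} [Fintype κ] [DecidableEq κ] (A : Matrix κ κ (ZMod 2)) : ℕ :=
  Fintype.card κ - A.rank

/-- number of vectors killed by `A` -/
def kerN {κ : Type*} [Fintype κ] [DecidableEq κ] (A : Matrix κ κ (ZMod 2)) : ℕ :=
  (univ.filter fun x : κ → ZMod 2 => A.mulVec x = 0).card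

/-- `P_J = prod_{i <= J} (1 - 2^-i)` -/
noncomputable def PJ (J : ℕ) : ℝ := ∏ i ∈ range J, (1 - (1 / 2 : ℝ) ^ (i + 1))

/-- The limit `prod_{i >= 1} (1 - 2^-i)`. -/
noncomputable def Pinf : ℝ := ∏' i : ℕ, (1 - (1 / 2 : ℝ) ^ (i + 1))

/-- Probability that the generic chain started at corank `r` is at `0` after `J` steps. -/
noncomputable def hJ (J r : ℕ) : ℝ := if r ≤ J then PJ J ^ 2 / PJ (J - r) else 0

section
variable {ι : Type*} [Fintype ι] [DecidableEq ι]

/-- mean number of kernel vectors of `CC` over `u`, `L` -/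
noncomputable def KK (R : ι → ι → ZMod 2) (s l : ι → ZMod 2) : ℝ :=
  (∑ u : ι → ZMod 2, ∑ L : ZMod 2, (kerN (CC R s l u L) : ℝ)) / 2 ^ (Fintype.card ι + 1)

/-- number of `y` supported off `s` killed by `MM R u` -/
def zN (R : ι → ι → ZMod 2) (s u : ι → ZMod 2) : ℕ :=
  (univ.filter fun y : ι → ZMod 2 => (∀ i, s i = 1 → y i = 0) ∧ (MM R u).mulVec y = 0).card

/-- mean of `zN` over `u` -/
noncomputable def K0 (R : ι → ι → ZMod 2) (s : ι → ZMod 2) : ℝ :=
  (∑ u : ι → ZMod 2, (zN R s u : ℝ)) / 2 ^ Fintype.card ι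

/-- mean of `hJ J (corank CC)` over `u`, `L` -/
noncomputable def GG (J : ℕ) (R : ι → ι → ZMod 2) (s l : ι → ZMod 2) : ℝ :=
  (∑ u : ι → ZMod 2, ∑ L : ZMod 2, hJ J (crk (CC R s l u L))) / 2 ^ (Fintype.card ι + 1)

end

/-- one new index: symbols `w`, class `s'` -/
def exR {ι : Type*} (R : ι → ι → ZMod 2) (s w : ι → ZMod 2) (s' : ZMod 2) :
    Option ι → Option ι → ZMod 2
  | some i, some j => R i j
  | some i, none => w i
  | none, some j => w j + s' * s j
  | none, none => 0

/-- one new entry -/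
def exv {ι : Type*} (s : ι → ZMod 2) (s' : ZMod 2) : Option ι → ZMod 2
  | some i => s i
  | none => s'

/-- reciprocity of the data -/
def Recip {ι : Type*} (R : ι → ι → ZMod 2) (s : ι → ZMod 2) : Prop :=
  ∀ i j, i ≠ j → R j i = R i j + s i * s j

/-! ### Arithmetic -/

/-- primes `1` or `7` modulo `8` -/
def P8 (p : ℕ) : Prop := p.Prime ∧ (p % 8 = 1 ∨ p % 8 = 7)

instance : DecidablePred P8 := fun _ => inferInstanceAs (Decidable (_ ∧ _))

/-- squarefree numbers all of whose primes are `1` or `7` modulo `8` -/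
def F1 (a : ℕ) : Prop := Squarefree a ∧ ∀ p ∈ a.primeFactors, p % 8 = 1 ∨ p % 8 = 7

instance : DecidablePred F1 := fun _ => inferInstanceAs (Decidable (_ ∧ _))

/-- class bit: `q = 7 mod 8` -/
def nn (q : ℕ) : ZMod 2 := if q % 8 = 7 then 1 else 0

/-- class bit: `q = 7, 9 mod 16` -/
def lam (q : ℕ) : ZMod 2 := if q % 16 = 7 ∨ q % 16 = 9 then 1 else 0

/-- `sy p q = 1` iff `(q / p) = -1` -/
def sy (p q : ℕ) : ZMod 2 := if jacobiSym (q : ℤ) p = -1 then 1 else 0

/-- index type of `a` -/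
abbrev Ix (a : ℕ) : Type := {x // x ∈ a.primeFactors}

/-- symbol matrix of `a`: entry `(i, j)` is `1` iff `(j / i) = -1` -/
def Ra (a : ℕ) : Ix a → Ix a → ZMod 2 := fun i j => sy i j

/-- class vectors of `a` -/
def sa (a : ℕ) : Ix a → ZMod 2 := fun i => nn i

/-- class vectors of `a` -/
def la (a : ℕ) : Ix a → ZMod 2 := fun i => lam i

/-- `K(a)` -/
noncomputable def Kf (a : ℕ) : ℝ := KK (Ra a) (sa a) (la a)

/-- `K0(a)` -/
noncomputable def K0f (a : ℕ) : ℝ := K0 (Ra a) (sa a)

/-- `G_J(a)` -/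
noncomputable def Gf (J a : ℕ) : ℝ := GG J (Ra a) (sa a) (la a)

/-- symbols of `q` at the primes of `a` -/
def wq (a q : ℕ) : Ix a → ZMod 2 := fun p => sy p q

/-- functions of the symbols of one new prime and of its class -/
abbrev Ph (a : ℕ) : Type := (Ix a → ZMod 2) → ZMod 2 → ZMod 2 → ℝ

/-- mean over the symbols and the class -/
noncomputable def avg (a : ℕ) (f : Ph a) : ℝ :=
  (∑ w : Ix a → ZMod 2, ∑ s : ZMod 2, ∑ l : ZMod 2, f w s l) / 2 ^ (a.primeFactors.card + 2)

/-- value at the prime `q` -/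
def ev (a : ℕ) (f : Ph a) (q : ℕ) : ℝ := f (wq a q) (nn q) (lam q)

/-- primes of `P8` in `(x, y]` -/
def pr (x y : ℕ) : Finset ℕ := (Ioc x y).filter P8

/-- character sum over a set of primes -/
noncomputable def SS (I : Finset ℕ) (ρ : ℕ → ℝ) (d : ℕ) (i j : ZMod 2) : ℝ :=
  ∑ q ∈ I, ρ q * (jacobiSym (q : ℤ) d : ℝ) * sg (i * nn q + j * lam q)

/-- product of the primes of `P8` up to `Y` -/
def PP (Y : ℕ) : ℕ := ∏ p ∈ pr 0 Y, p

/-- numbers up to `x` in `F1` -/
def FF (x : ℕ) : Finset ℕ := (Icc 1 x).filter F1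

/-- yardstick: `prod_{p <= Y} (1 + 1/p)` -/
noncomputable def DD (Y : ℕ) : ℝ := ∏ p ∈ pr 0 Y, (1 + 1 / (p : ℝ))

/-- smooth part -/
def smo (z m : ℕ) : ℕ := ∏ p ∈ m.primeFactors.filter (· ≤ z), p

/-- number of prime factors above `z` -/
def big (z m : ℕ) : ℕ := (m.primeFactors.filter (z < ·)).card

/-- all primes above `z` -/
def Rgh (z m : ℕ) : Prop := ∀ p ∈ m.primeFactors, z < p

instance (z : ℕ) : DecidablePred (Rgh z) := fun _ => inferInstanceAs (Decidable (∀ _ ∈ _, _))

end Pool.Agent.TLW
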