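import Pool.Agent.TLW.Ifc
import Pool.Agent.TQG.Fin

set_option autoImplicit false
set_option linter.unnecessarySeqFocus false
set_option linter.unusedVariables false

/-! the Tunnell digit of `a * q` as a function of the symbols of `q` -/

namespace Pool.Agent.TLW

open Finset Pool.Agent.H24

/-- `1` when `2|C_2m| - |D_2m| = 2 ^ (omega + 2)` modulo `2 ^ (omega + 3)` -/
noncomputable def gT (m : ℕ) : ℝ :=
  if (2 * (cardC (2 * m) : ℤ) - (cardD (2 * m) : ℤ)) ≡ 2 ^ (m.primeFactors.card + 2)
    [ZMOD 2 ^ (m.primeFactors.card + 3)] then 1 else 0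

/-- digit function -/
noncomputable def gPh (a : ℕ) : Ph a := fun w s l =>
  if s = ∑ i, sa a i then
    (if crk (CC (Ra a) (sa a) (la a) (fun i => w i + ∑ j ∈ univ.erase i, Ra a i j)
      ((∑ i, la a i) + l)) = 0 then 1 else 0)
  else 0

/-- class function -/
noncomputable def cPh (a : ℕ) : Ph a := fun _ s _ => if s = ∑ i, sa a i then 1 else 0

theorem gPh_abs (a : ℕ) (w : Ix a → ZMod 2) (s l : ZMod 2) : |gPh a w s l| ≤ 1 := by
  unfold gPh
  split_ifs <;> simp

theorem cPh_abs (a : ℕ) (w : Ix a → ZMod 2) (s l : ZMod 2) : |cPh a w s l| ≤ 1 := by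
  unfold cPh
  split_ifs <;> simp

/-- classes of products -/
theorem prod_class (S : Finset ℕ) (h : ∀ p ∈ S, p % 8 = 1 ∨ p % 8 = 7) :
    ((∏ p ∈ S, p) % 8 = 1 ∧ ∑ p ∈ S, nn p = 0) ∨ ((∏ p ∈ S, p) % 8 = 7 ∧ ∑ p ∈ S, nn p = 1) := by
  classical
  induction S using Finset.induction_on with
  | empty => simp
  | insert p S hp ih =>
    rw [Finset.prod_insert hp, Finset.sum_insert hp, Nat.mul_mod]
    have h1 := ih fun x hx => h x (Finset.mem_insert_of_mem hx)
    have h2 := h p (Finset.mem_insert_self _ _)
    unfold nn at h1 ⊢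
    rcases h1 with ⟨a1, a2⟩ | ⟨a1, a2⟩ <;> rcases h2 with b | b <;> rw [a1, b, a2] <;> simp <;> decide

theorem prod_pf {a : ℕ} (ha : F1 a) : ∏ p ∈ a.primeFactors, p = a :=
  Nat.prod_primeFactors_of_squarefree ha.1

theorem sum_Ix (a : ℕ) (f : ℕ → ZMod 2) : ∑ i : Ix a, f i = ∑ p ∈ a.primeFactors, f p :=
  Finset.sum_coe_sort a.primeFactors f

theorem class_iff {a q : ℕ} (ha : F1 a) (hq : P8 q) :
    (a * q) % 8 = 1 ↔ nn q = ∑ i, sa a i := by
  have h1 := prod_class a.primeFactors ha.2
  rw [prod_pf ha] at h1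
  have h2 : ∑ i, sa a i = ∑ p ∈ a.primeFactors, nn p := sum_Ix a nn
  rw [h2, Nat.mul_mod]
  unfold nn at h1 ⊢
  rcases h1 with ⟨a1, a2⟩ | ⟨a1, a2⟩ <;> rcases hq.2 with b | b <;> rw [a1, b, a2] <;> simp

theorem cPh_ev (a q : ℕ) (ha : F1 a) (hq : P8 q) (hqa : ¬ q ∣ a) :
    ev a (cPh a) q = if (a * q) % 8 = 1 then 1 else 0 := by
  unfold ev cPh
  simp only [class_iff ha hq]

theorem cPh_avg (a : ℕ) : avg a (cPh a) = 1 / 2 := by
  unfold avg cPh
  have h1 : ∀ w : Ix a → ZMod 2, ∑ s : ZMod 2, ∑ _l : ZMod 2,
      (if s = ∑ i, sa a i then (1 : ℝ) else 0) = 2 := by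
    intro _
    rw [Finset.sum_comm]
    simp only [Finset.sum_ite_eq', Finset.mem_univ, if_true]
    simp
  rw [Finset.sum_congr rfl fun w _ => h1 w, Finset.sum_const, Finset.card_univ, Fintype.card_fun,
    ZMod.card, card_Ix, nsmul_eq_mul, pow_add]
  push_cast
  have h2 : (2 : ℝ) ^ a.primeFactors.card ≠ 0 := by positivity
  field_simp

theorem sum_shift_vec {ι : Type*} [Fintype ι] [DecidableEq ι] (f : (ι → ZMod 2) → ℝ)
    (v : ι → ZMod 2) : ∑ w : ι → ZMod 2, f (fun i => w i + v i) = ∑ u : ι → ZMod 2, f u :=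
  Fintype.sum_equiv (Equiv.addRight v) _ _ fun _ => rfl

theorem gPh_avg (a : ℕ) : avg a (gPh a) = Gf 0 a / 2 := by
  unfold avg gPh Gf GG
  set g : (Ix a → ZMod 2) → ZMod 2 → ℝ := fun u L =>
    if crk (CC (Ra a) (sa a) (la a) u L) = 0 then 1 else 0 with hg
  have h1 : ∀ w : Ix a → ZMod 2, ∑ s : ZMod 2, ∑ l : ZMod 2,
      (if s = ∑ i, sa a i then
        (if crk (CC (Ra a) (sa a) (la a) (fun i => w i + ∑ j ∈ univ.erase i, Ra a i j)
          ((∑ i, la a i) + l)) = 0 then (1 : ℝ) else 0) else 0) =
      ∑ L : ZMod 2, g (fun i => w i + ∑ j ∈ univ.erase i, Ra a i j) L := by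
    intro w
    rw [Finset.sum_comm]
    simp only [Finset.sum_ite_eq', Finset.mem_univ, if_true]
    rw [← sum_shift (fun L => g (fun i => w i + ∑ j ∈ univ.erase i, Ra a i j) L) (∑ i, la a i)]
    refine Finset.sum_congr rfl fun l _ => ?_
    rw [hg, add_comm]
  rw [Finset.sum_congr rfl fun w _ => h1 w]
  rw [sum_shift_vec (fun u => ∑ L : ZMod 2, g u L) fun i => ∑ j ∈ univ.erase i, Ra a i j]
  simp only [hJ_zero, hg, card_Ix]
  rw [div_div, ← pow_succ]

section det

variable {ι : Type*} [Fintype ι] [DecidableEq ι]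

/-- adding all rows to the row `none` -/
theorem det_rows (N C : Matrix (Option ι) (Option ι) (ZMod 2))
    (h1 : ∀ i j, C (some i) j = N (some i) j) (h2 : ∀ j, C none j = ∑ i, N i j) :
    C.det = N.det := by
  have h3 : C = N.updateRow none (∑ k, (1 : ZMod 2) • N k) := by
    ext i j
    rcases i with _ | i
    · rw [Matrix.updateRow_self, h2, Finset.sum_apply]
      simp
    · rw [Matrix.updateRow_ne (by simp), h1]
  rw [h3, Matrix.det_updateRow_sum]
  simp

end det

theorem gPh_ev (a q : ℕ) (ha : F1 a) (hq : P8 q) (hqa : ¬ q ∣ a) :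
    ev a (gPh a) q = if (a * q) % 8 = 1 then gT (a * q) else 0 := by
  classical
  unfold ev gPh
  by_cases h8 : (a * q) % 8 = 1
  swap
  · rw [if_neg h8, if_neg (fun h => h8 ((class_iff ha hq).2 h))]
  rw [if_pos h8, if_pos ((class_iff ha hq).1 h8)]
  -- enumeration
  set k := a.primeFactors.card with hk
  set e0 : Ix a ≃ Fin k := Fintype.equivFinOfCardEq (card_Ix a) with he0
  set e : Option (Ix a) ≃ Fin (k + 1) := (Equiv.optionCongr e0).trans (finSuccEquiv k).symm with he
  have hen : e none = 0 := by
    simp [he]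
  set pf : Option (Ix a) → ℕ := fun o => o.elim q fun i => (i : ℕ) with hpf
  set p : Fin (k + 1) → ℕ := fun j => pf (e.symm j) with hp
  have hpe : ∀ o, p (e o) = pf o := by
    intro o; rw [hp]; simp
  have hP8 : ∀ o, P8 (pf o) := by
    intro o
    rcases o with _ | i
    · exact hq
    · exact F1_P8 ha i
  have hpinj : Function.Injective pf := by
    intro x y hxy
    rcases x with _ | x <;> rcases y with _ | y
    · rfl
    · exact absurd (Nat.dvd_of_mem_primeFactors y.2) (by
        have : q = (y : ℕ) := hxy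
        rwa [← this])
    · exact absurd (Nat.dvd_of_mem_primeFactors x.2) (by
        have : (x : ℕ) = q := hxy
        rwa [this])
    · have : (x : ℕ) = y := hxy
      exact congrArg some (Subtype.ext this)
  have hprod : ∏ i, p i = a * q := by
    rw [← Equiv.prod_comp e p, Finset.prod_congr rfl fun o _ => hpe o, Fintype.prod_option]
    change pf none * ∏ i : Ix a, pf (some i) = a * q
    have h1 : pf none = q := rfl
    have h2 : ∏ i : Ix a, pf (some i) = ∏ x ∈ a.primeFactors, x :=
      Finset.prod_coe_sort a.primeFactors fun x => x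
    rw [h1, h2, prod_pf ha, mul_comm]
  have hfin := Pool.Agent.TQG.fin k p (fun i => (hP8 _).1)
    (hpinj.comp e.symm.injective) (fun i => (hP8 _).2) (by rw [hprod]; exact h8)
  rw [hprod] at hfin
  set N0 : Matrix (Fin (k + 1)) (Fin (k + 1)) (ZMod 2) :=
    (Pool.Agent.TQG.lap fun j i => Pool.Agent.TQG.ee (p j) (p i)).updateCol 0 fun i =>
      Pool.Agent.TQG.lam (p i) with hN0
  have hcard : (a * q).primeFactors.card = k + 1 := by
    rw [pf_mul ha hq, Finset.card_union_of_disjoint, Finset.card_singleton]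
    rw [Finset.disjoint_singleton_right]
    intro h; exact hqa (Nat.dvd_of_mem_primeFactors h)
  -- the determinant
  have hdet : (CC (Ra a) (sa a) (la a) (fun i => wq a q i + ∑ j ∈ univ.erase i, Ra a i j)
      ((∑ i, la a i) + lam q)).det = N0.det := by
    rw [← Matrix.det_submatrix_equiv_self e N0]
    have hcol : ∀ o, N0 (e o) (e none) = lam (pf o) := by
      intro o
      rw [hN0, hen, Matrix.updateCol_self, hpe]
      rfl
    have hent : ∀ (o : Option (Ix a)) (j : Ix a), N0 (e o) (e (some j)) =
        if o = some j then ∑ l ∈ univ.erase o, sy (pf o) (pf l) else sy (pf o) (pf (some j)) := by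
      intro o j
      have hne : e (some j) ≠ 0 := by
        rw [← hen]; intro h; exact absurd (e.injective h) (by simp)
      rw [hN0, Matrix.updateCol_ne hne]
      unfold Pool.Agent.TQG.lap
      rw [Matrix.of_apply]
      by_cases ho : o = some j
      · rw [if_pos (congrArg e ho), if_pos ho]
        refine (Finset.sum_nbij' (fun l => e.symm l) (fun l => e l) ?_ ?_ ?_ ?_ ?_)
        · intro l hl
          rw [Finset.mem_erase] at hl ⊢
          refine ⟨fun h => hl.1 ?_, Finset.mem_univ _⟩
          rw [← h, e.apply_symm_apply]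
        · intro l hl
          rw [Finset.mem_erase] at hl ⊢
          exact ⟨fun h => hl.1 (e.injective h), Finset.mem_univ _⟩
        · intro l _; exact e.apply_symm_apply l
        · intro l _; exact e.symm_apply_apply l
        · intro l _
          show Pool.Agent.TQG.ee (p (e o)) (p l) = _
          rw [hpe]
          rfl
      · rw [if_neg (fun h => ho (e.injective h)), if_neg ho]
        show Pool.Agent.TQG.ee (p (e o)) (p (e (some j))) = _
        rw [hpe, hpe]
        rfl
    refine det_rows _ _ ?_ ?_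
    · intro i o
      rw [Matrix.submatrix_apply]
      rcases o with _ | j
      · rw [hcol]; rfl
      · rw [hent]
        have h0 : CC (Ra a) (sa a) (la a) (fun i => wq a q i + ∑ j ∈ univ.erase i, Ra a i j)
            ((∑ i, la a i) + lam q) (some i) (some j) =
            MM (Ra a) (fun i => wq a q i + ∑ j ∈ univ.erase i, Ra a i j) i j := rfl
        rw [h0]
        unfold MM
        rw [Matrix.of_apply]
        by_cases hij : i = j
        · subst hij
          rw [if_pos rfl, if_pos rfl]
          have h1 : (univ.erase (some i) : Finset (Option (Ix a))) =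
              insert none ((univ.erase i).map Function.Embedding.some) := by
            ext o
            rcases o with _ | o <;> simp
          rw [h1, Finset.sum_insert (by simp), Finset.sum_map]
          rfl
        · rw [if_neg hij, if_neg (fun h => hij (Option.some_injective _ h))]
          rfl
    · intro o
      simp only [Matrix.submatrix_apply]
      rcases o with _ | j
      · rw [Finset.sum_congr rfl fun o _ => hcol o, Fintype.sum_option, add_comm]
        rfl
      · rw [Finset.sum_congr rfl fun o _ => hent o j]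
        show sa a j = _
        have h1 : ∑ o : Option (Ix a), (if o = some j then ∑ l ∈ univ.erase o, sy (pf o) (pf l)
            else sy (pf o) (pf (some j))) =
            ∑ o ∈ univ.erase (some j), (sy (pf (some j)) (pf o) + sy (pf o) (pf (some j))) := by
          rw [← Finset.add_sum_erase _ _ (Finset.mem_univ (some j)), if_pos rfl,
            Finset.sum_add_distrib]
          congr 1
          refine Finset.sum_congr rfl fun o ho => ?_
          rw [if_neg (Finset.mem_erase.1 ho).1]
        rw [h1]
        have h2 : ∀ o ∈ univ.erase (some j), sy (pf (some j)) (pf o) + sy (pf o) (pf (some j)) =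
            nn (pf (some j)) * nn (pf o) := by
          intro o ho
          rw [sy_rec (hP8 (some j)) (hP8 o) fun h => (Finset.mem_erase.1 ho).1 (hpinj h).symm,
            ← add_assoc, CharTwo.add_self_eq_zero, zero_add]
        rw [Finset.sum_congr rfl h2, ← Finset.mul_sum]
        have h3 : ∑ o : Option (Ix a), nn (pf o) = 0 := by
          rw [Fintype.sum_option]
          have h4 : nn (pf none) = ∑ i, sa a i := (class_iff ha hq).1 h8
          rw [h4]
          exact CharTwo.add_self_eq_zero _
        have h5 : ∑ o ∈ univ.erase (some j), nn (pf o) = nn (pf (some j)) := by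
          have h6 := Finset.add_sum_erase univ (fun o => nn (pf o)) (Finset.mem_univ (some j))
          rw [h3] at h6
          exact (CharTwo.add_eq_zero.1 h6).symm
        rw [h5]
        show nn j = nn j * nn j
        unfold nn
        split_ifs <;> simp
  rw [← hdet] at hfin
  unfold gT
  rw [hcard]
  have hz : ∀ x : ZMod 2, x = 0 ∨ x = 1 := by decide
  refine if_congr ?_ rfl rfl
  show crk (CC (Ra a) (sa a) (la a) (fun i => wq a q i + ∑ j ∈ univ.erase i, Ra a i j)
      ((∑ i, la a i) + lam q)) = 0 ↔ _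
  rw [crk_eq_zero_iff]
  have hk2 : k + 1 + 2 = k + 3 := rfl
  have hk3 : k + 1 + 3 = k + 4 := rfl
  rw [hk2, hk3]
  rcases hz (CC (Ra a) (sa a) (la a) (fun i => wq a q i + ∑ j ∈ univ.erase i, Ra a i j)
      ((∑ i, la a i) + lam q)).det with h | h
  · rw [h] at hfin ⊢
    simp only [zero_ne_one, false_iff]
    intro hc
    have h1 := hfin.symm.trans hc
    rw [ZMod.val_zero, Nat.cast_zero, mul_zero] at h1
    have h2 := Int.modEq_iff_dvd.1 h1
    rw [sub_zero] at h2
    have h3 := Int.le_of_dvd (by positivity) h2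
    have h4 : (2 : ℤ) ^ (k + 4) = 2 * 2 ^ (k + 3) := by ring
    have h5 : (0 : ℤ) < 2 ^ (k + 3) := by positivity
    rw [h4] at h3
    linarith
  · rw [h] at hfin ⊢
    simp only [true_iff]
    have h1 : ((1 : ZMod 2).val : ℤ) = 1 := by decide
    rw [h1, mul_one] at hfin
    exact hfin

end Pool.Agent.TLW
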