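import Pool.Agent.TLW.TL

set_option autoImplicit false

/-! natural step lemma: one `n` -/

namespace Pool.Agent.TLW

open Finset

/-- mean square of the nontrivial characters of `n` over the primes up to `V` -/
noncomputable def TT (V d : ℕ) : ℝ := ∑ i : ZMod 2, ∑ j : ZMod 2,
  (if d = 1 ∧ i = 0 ∧ j = 0 then 0 else SS (pr 0 V) (fun _ => 1) d i j ^ 2)

theorem TT_nonneg (V d : ℕ) : 0 ≤ TT V d := by
  unfold TT
  refine sum_nonneg fun i _ => sum_nonneg fun j _ => ?_
  split_ifs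
  · exact le_rfl
  · exact sq_nonneg _

theorem abs_avg_le (b : ℕ) (f : Ph b) (hf : ∀ w s l, |f w s l| ≤ 1) : |avg b f| ≤ 1 := by
  unfold avg
  have hN : (0 : ℝ) < 2 ^ (b.primeFactors.card + 2) := by positivity
  rw [abs_div, abs_of_pos hN, div_le_one hN]
  refine (Finset.abs_sum_le_sum_abs _ _).trans ?_
  have h1 : ∀ w : Ix b → ZMod 2, |∑ s : ZMod 2, ∑ l : ZMod 2, f w s l| ≤ 4 := by
    intro w
    refine (Finset.abs_sum_le_sum_abs _ _).trans ?_
    have h2 : ∀ s : ZMod 2, |∑ l : ZMod 2, f w s l| ≤ 2 := by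
      intro s
      refine (Finset.abs_sum_le_sum_abs _ _).trans ?_
      refine (sum_le_sum fun l _ => hf w s l).trans ?_
      simp
    refine (sum_le_sum fun s _ => h2 s).trans ?_
    simp
    norm_num
  refine (sum_le_sum fun w _ => h1 w).trans ?_
  rw [Finset.sum_const, nsmul_eq_mul, Finset.card_univ, Fintype.card_fun, ZMod.card,
    Fintype.card_coe]
  push_cast
  exact le_of_eq (by ring)

theorem ns_tl (n b z V y : ℕ) (hn : F1 n) (hb : b ∣ n) (hV : V ≤ y) (f : Ph b)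
    (hf : ∀ w s l, |f w s l| ≤ 1) :
    |∑ q ∈ (pr z y).filter (fun q => ¬ q ∣ n), (ev b f q - avg b f)| ≤
      Real.sqrt (∑ d ∈ n.divisors, TT V d) +
        2 * (((pr 0 z).card : ℝ) + (pr V y).card) + 5 * n.primeFactors.card := by
  classical
  have hn0 : n ≠ 0 := hn.1.ne_zero
  have hb1 : F1 b := ⟨hn.1.squarefree_of_dvd hb,
    fun p hp => hn.2 p (Nat.primeFactors_mono hb hn0 hp)⟩
  set P : Finset ℕ := pr 0 V with hP
  set A : Finset ℕ := (pr z y).filter (fun q => ¬ q ∣ n) with hA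
  set P' : Finset ℕ := P.filter (fun q => ¬ q ∣ b) with hP'
  set g : ℕ → ℝ := fun q => ev b f q - avg b f with hg
  have havg : |avg b f| ≤ 1 := abs_avg_le b f hf
  have hg2 : ∀ q, |g q| ≤ 2 := by
    intro q
    have h1 : |ev b f q| ≤ 1 := hf _ _ _
    calc |g q| ≤ |ev b f q| + |avg b f| := abs_sub _ _
      _ ≤ 2 := by linarith
  -- transfer
  have htr := transfer b hb1 f 1 hf P (fun q hq => (mem_filter.mp hq).2) (fun _ => 1)
    (fun _ => zero_le_one)
  simp only [one_mul, Finset.sum_const, nsmul_eq_mul, mul_one] at htr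
  have hcard : ((P.filter (fun q => q ∣ b)).card : ℝ) ≤ n.primeFactors.card := by
    have h1 : P.filter (fun q => q ∣ b) ⊆ n.primeFactors := by
      intro q hq
      rw [mem_filter] at hq
      have h2 : P8 q := (mem_filter.mp hq.1).2
      exact Nat.mem_primeFactors.mpr ⟨h2.1, hq.2.trans hb, hn0⟩
    exact_mod_cast Finset.card_le_card h1
  have hcard0 : (0 : ℝ) ≤ ((P.filter (fun q => q ∣ b)).card : ℝ) := Nat.cast_nonneg _
  have hsqrt : Real.sqrt (∑ d ∈ b.divisors, ∑ i : ZMod 2, ∑ j : ZMod 2,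
      (if d = 1 ∧ i = 0 ∧ j = 0 then 0 else SS P (fun _ => 1) d i j ^ 2)) ≤
      Real.sqrt (∑ d ∈ n.divisors, TT V d) := by
    refine Real.sqrt_le_sqrt ?_
    exact Finset.sum_le_sum_of_subset_of_nonneg (Nat.divisors_subset_of_dvd hn0 hb)
      fun d _ _ => TT_nonneg V d
  have hcardP : (P.card : ℝ) = P'.card + (P.filter (fun q => q ∣ b)).card := by
    have h1 := Finset.card_filter_add_card_filter_not (s := P) (fun q => q ∣ b)
    have h2 : ((P.filter (fun q => q ∣ b)).card : ℝ) + P'.card = P.card := by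
      exact_mod_cast h1
    linarith
  have hP'sum : |∑ q ∈ P', g q| ≤ Real.sqrt (∑ d ∈ n.divisors, TT V d) +
      3 * n.primeFactors.card := by
    have h1 : ∑ q ∈ P', g q = (∑ q ∈ P', ev b f q - P.card * avg b f) +
        (P.filter (fun q => q ∣ b)).card * avg b f := by
      simp only [hg, Finset.sum_sub_distrib, Finset.sum_const, nsmul_eq_mul]
      rw [hcardP]; ring
    rw [h1]
    refine (abs_add_le _ _).trans ?_
    have h2 : |((P.filter (fun q => q ∣ b)).card : ℝ) * avg b f| ≤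
        (P.filter (fun q => q ∣ b)).card := by
      rw [abs_mul, abs_of_nonneg hcard0]
      exact mul_le_of_le_one_right hcard0 havg
    linarith [htr, h2, hsqrt, hcard]
  -- symmetric difference
  have hAd : A \ P' ⊆ pr V y := by
    intro q hq
    rw [mem_sdiff] at hq
    obtain ⟨hqA, hqP⟩ := hq
    rw [hA, mem_filter, pr, mem_filter, mem_Ioc] at hqA
    rw [pr, mem_filter, mem_Ioc]
    refine ⟨⟨?_, hqA.1.1.2⟩, hqA.1.2⟩
    by_contra hle
    push Not at hle
    apply hqP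
    rw [hP', mem_filter, hP, pr, mem_filter, mem_Ioc]
    exact ⟨⟨⟨hqA.1.2.1.pos, hle⟩, hqA.1.2⟩, fun h => hqA.2 (h.trans hb)⟩
  have hPd : P' \ A ⊆ pr 0 z ∪ n.primeFactors := by
    intro q hq
    rw [mem_sdiff] at hq
    obtain ⟨hqP, hqA⟩ := hq
    rw [hP', mem_filter, hP, pr, mem_filter, mem_Ioc] at hqP
    rw [mem_union]
    by_cases hqz : q ≤ z
    · left
      rw [pr, mem_filter, mem_Ioc]
      exact ⟨⟨hqP.1.1.1, hqz⟩, hqP.1.2⟩
    · right
      push Not at hqz
      by_contra hqn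
      apply hqA
      rw [hA, mem_filter, pr, mem_filter, mem_Ioc]
      refine ⟨⟨⟨hqz, hqP.1.1.2.trans hV⟩, hqP.1.2⟩, fun h => hqn ?_⟩
      exact Nat.mem_primeFactors.mpr ⟨hqP.1.2.1, h, hn0⟩
  have hbound : ∀ (S U : Finset ℕ), S ⊆ U → |∑ q ∈ S, g q| ≤ 2 * (U.card : ℝ) := by
    intro S U hSU
    refine (Finset.abs_sum_le_sum_abs _ _).trans ?_
    refine (sum_le_sum fun q _ => hg2 q).trans ?_
    rw [Finset.sum_const, nsmul_eq_mul, mul_comm]
    refine mul_le_mul_of_nonneg_left ?_ (by norm_num)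
    exact_mod_cast Finset.card_le_card hSU
  have h1 := hbound _ _ hAd
  have h2 := hbound _ _ hPd
  have h3 : ((pr 0 z ∪ n.primeFactors).card : ℝ) ≤ (pr 0 z).card + n.primeFactors.card := by
    exact_mod_cast Finset.card_union_le _ _
  have h4 : ∑ q ∈ A, g q = ∑ q ∈ P', g q + ∑ q ∈ A \ P', g q - ∑ q ∈ P' \ A, g q := by
    have h5 := Finset.sum_inter_add_sum_sdiff A P' g
    have h6 := Finset.sum_inter_add_sum_sdiff P' A g
    rw [Finset.inter_comm] at h6
    linarith
  rw [h4]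
  calc |∑ q ∈ P', g q + ∑ q ∈ A \ P', g q - ∑ q ∈ P' \ A, g q|
      ≤ |∑ q ∈ P', g q + ∑ q ∈ A \ P', g q| + |∑ q ∈ P' \ A, g q| := abs_sub _ _
    _ ≤ (|∑ q ∈ P', g q| + |∑ q ∈ A \ P', g q|) + |∑ q ∈ P' \ A, g q| := by
        gcongr
        exact abs_add_le _ _
    _ ≤ _ := by linarith

end Pool.Agent.TLW
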