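import Pool.Agent.TLW.RegC

set_option autoImplicit false

/-! natural step lemma: the sum over the grid -/

namespace Pool.Agent.TLW

open Finset

theorem nsc_step (x : ℝ) (hx : 1 ≤ x) :
    8 * x ^ (2 / 5 : ℝ) + x ^ (-(3 / 5) : ℝ) ≤ 8 * (x + 1) ^ (2 / 5 : ℝ) := by
  have hx0 : 0 < x := by linarith
  have hy0 : 0 < x + 1 := by linarith
  have h1 : (1 + -(1 / (x + 1))) ^ (2 / 5 : ℝ) ≤ 1 + 2 / 5 * -(1 / (x + 1)) := by
    apply rpow_one_add_le_one_add_mul_self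
    · rw [neg_le_neg_iff, div_le_one hy0]
      linarith
    · norm_num
    · norm_num
  have h2 : x ^ (2 / 5 : ℝ) = (x + 1) ^ (2 / 5 : ℝ) * (1 + -(1 / (x + 1))) ^ (2 / 5 : ℝ) := by
    rw [← Real.mul_rpow hy0.le]
    · congr 1
      field_simp
      ring
    · have : 1 / (x + 1) ≤ 1 := by
        rw [div_le_one hy0]; linarith
      linarith
  have hyp : 0 < (x + 1) ^ (2 / 5 : ℝ) := Real.rpow_pos_of_pos hy0 _
  have h3 : x ^ (2 / 5 : ℝ) ≤ (x + 1) ^ (2 / 5 : ℝ) - 2 / 5 * ((x + 1) ^ (2 / 5 : ℝ) / (x + 1)) := by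
    have h4 := mul_le_mul_of_nonneg_left h1 hyp.le
    rw [← h2] at h4
    refine h4.trans (le_of_eq ?_)
    ring
  have h5 : x ^ (2 / 5 : ℝ) / (2 * x) ≤ (x + 1) ^ (2 / 5 : ℝ) / (x + 1) := by
    apply div_le_div₀ hyp.le
    · exact Real.rpow_le_rpow hx0.le (by linarith) (by norm_num)
    · exact hy0
    · linarith
  have h6 : x ^ (-(3 / 5) : ℝ) = x ^ (2 / 5 : ℝ) / x := by
    rw [← Real.rpow_sub_one hx0.ne']
    norm_num
  have h7 : x ^ (2 / 5 : ℝ) / (2 * x) = x ^ (2 / 5 : ℝ) / x / 2 := by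
    rw [mul_comm, ← div_div]
  rw [h6]
  rw [h7] at h5
  have h8 : 0 < x ^ (2 / 5 : ℝ) / x := div_pos (Real.rpow_pos_of_pos hx0 _) hx0
  linarith

theorem nsc_sum (N : ℕ) : ∑ m ∈ range (N + 1), (max (m : ℝ) 1) ^ (-(3 / 5) : ℝ) ≤
    8 * ((N : ℝ) + 1) ^ (2 / 5 : ℝ) := by
  induction N with
  | zero =>
    simp only [zero_add, range_one, sum_singleton, Nat.cast_zero, zero_le_one, sup_of_le_right,
      Real.one_rpow, mul_one]
    norm_num
  | succ N ih =>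
    rw [sum_range_succ]
    have h1 : max ((N + 1 : ℕ) : ℝ) 1 = (N : ℝ) + 1 := by
      push_cast
      exact max_eq_left (by linarith [(Nat.cast_nonneg N : (0 : ℝ) ≤ N)])
    rw [h1]
    have h2 := nsc_step ((N : ℝ) + 1) (by linarith [(Nat.cast_nonneg N : (0 : ℝ) ≤ N)])
    push_cast
    linarith

theorem ns_grid (κ : ℝ) (h0 : 0 < κ) (h1 : κ ≤ 1) : ∃ C : ℝ, 0 < C ∧ ∃ X0 : ℕ, ∀ X : ℕ, X0 ≤ X →
    ∀ N : ℕ, (1 + κ) ^ N ≤ (X : ℝ) →
    ∑ i ∈ range (N + 1), DD (max 2 (X / ⌊(1 + κ) ^ i⌋₊)) /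
        Real.log ((max 2 (X / ⌊(1 + κ) ^ i⌋₊) : ℕ) : ℝ) ≤ C * DD X := by
  obtain ⟨C, hC, hreg⟩ := DD_reg
  set L : ℝ := Real.log (1 + κ) with hL
  have hL0 : 0 < L := Real.log_pos (by linarith)
  have hL2 : L ≤ Real.log 2 := Real.log_le_log (by linarith) (by linarith)
  refine ⟨C * 8 * (L / 2) ^ (-(3 / 5) : ℝ) * (2 / L) ^ (2 / 5 : ℝ), by positivity, 2,
    fun X hX N hN => ?_⟩
  have hX2 : (2 : ℝ) ≤ X := by exact_mod_cast hX
  have hX0 : (0 : ℝ) < X := by linarith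
  have hlX : Real.log 2 ≤ Real.log X := Real.log_le_log (by norm_num) hX2
  have hlX0 : 0 < Real.log X := by linarith
  have hDD : 0 ≤ DD X := by
    unfold DD
    exact prod_nonneg fun p _ => by positivity
  have hκ1 : (1 : ℝ) ≤ 1 + κ := by linarith
  have key : ∀ i ∈ range (N + 1), DD (max 2 (X / ⌊(1 + κ) ^ i⌋₊)) /
      Real.log ((max 2 (X / ⌊(1 + κ) ^ i⌋₊) : ℕ) : ℝ) ≤
      C * DD X * (Real.log X) ^ (-(2 / 5) : ℝ) * (L / 2) ^ (-(3 / 5) : ℝ) *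
        (max (((N - i : ℕ)) : ℝ) 1) ^ (-(3 / 5) : ℝ) := by
    intro i hi
    have hiN : i ≤ N := Nat.lt_succ_iff.1 (mem_range.1 hi)
    set V : ℕ := ⌊(1 + κ) ^ i⌋₊ with hV
    set Y : ℕ := max 2 (X / V) with hY
    have hY2 : 2 ≤ Y := le_max_left _ _
    have hYX : Y ≤ X := max_le hX (Nat.div_le_self _ _)
    have hYr2 : (2 : ℝ) ≤ Y := by exact_mod_cast hY2
    have hY0 : (0 : ℝ) < Y := by linarith
    have hlY2 : Real.log 2 ≤ Real.log Y := Real.log_le_log (by norm_num) hYr2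
    have hlY0 : 0 < Real.log Y := by linarith
    -- the size of Y
    have hpi : 0 < (1 + κ) ^ i := by positivity
    have hVle : (V : ℝ) ≤ (1 + κ) ^ i := Nat.floor_le hpi.le
    have hV1 : 1 ≤ V := by
      rw [hV, Nat.one_le_floor_iff]
      exact one_le_pow₀ hκ1
    have hV0 : (0 : ℝ) < V := by exact_mod_cast hV1
    have hr : (1 + κ) ^ (N - i) ≤ (X : ℝ) / V := by
      rw [le_div_iff₀ hV0]
      calc (1 + κ) ^ (N - i) * V ≤ (1 + κ) ^ (N - i) * (1 + κ) ^ i := by gcongr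
        _ = (1 + κ) ^ N := by rw [← pow_add, Nat.sub_add_cancel hiN]
        _ ≤ X := hN
    have hfl : (X : ℝ) / V < (X / V : ℕ) + 1 := by
      rw [div_lt_iff₀ hV0]
      have h9 := Nat.lt_mul_div_succ X (show 0 < V by omega)
      have h10 : (X : ℝ) < (V : ℝ) * (((X / V : ℕ) : ℝ) + 1) := by exact_mod_cast h9
      linarith
    have hsq : (1 + κ) ^ (N - i) ≤ (Y : ℝ) ^ 2 := by
      have hYge : ((X / V : ℕ) : ℝ) ≤ Y := by exact_mod_cast le_max_right 2 (X / V)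
      nlinarith
    have hlog : (L / 2) * ((N - i : ℕ) : ℝ) ≤ Real.log Y := by
      have h2 := Real.log_le_log (by positivity) hsq
      rw [Real.log_pow, Real.log_pow] at h2
      push_cast at h2
      rw [← hL] at h2
      linarith
    have hlogm : (L / 2) * max (((N - i : ℕ)) : ℝ) 1 ≤ Real.log Y := by
      rcases max_cases (((N - i : ℕ)) : ℝ) 1 with ⟨h, _⟩ | ⟨h, _⟩
      · rw [h]; exact hlog
      · rw [h]; linarith
    have hm0 : 0 < max (((N - i : ℕ)) : ℝ) 1 := lt_max_of_lt_right one_pos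
    have hD := (hreg Y X hY2 hYX).1
    have e1 : (Real.log Y / Real.log X) ^ (2 / 5 : ℝ) =
        (Real.log Y) ^ (2 / 5 : ℝ) * (Real.log X) ^ (-(2 / 5) : ℝ) := by
      rw [Real.div_rpow hlY0.le hlX0.le, Real.rpow_neg hlX0.le, div_eq_mul_inv]
    have e2 : (Real.log Y) ^ (2 / 5 : ℝ) / Real.log Y = (Real.log Y) ^ (-(3 / 5) : ℝ) := by
      rw [← Real.rpow_sub_one hlY0.ne']
      norm_num
    have e3 : (Real.log Y) ^ (-(3 / 5) : ℝ) ≤ (L / 2) ^ (-(3 / 5) : ℝ) *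
        (max (((N - i : ℕ)) : ℝ) 1) ^ (-(3 / 5) : ℝ) := by
      rw [← Real.mul_rpow (by positivity) hm0.le]
      exact Real.rpow_le_rpow_of_nonpos (by positivity) hlogm (by norm_num)
    calc DD Y / Real.log Y ≤ (C * (Real.log Y / Real.log X) ^ (2 / 5 : ℝ) * DD X) / Real.log Y := by
          gcongr
      _ = C * DD X * (Real.log X) ^ (-(2 / 5) : ℝ) * (Real.log Y) ^ (-(3 / 5) : ℝ) := by
          rw [e1, ← e2]; ring
      _ ≤ C * DD X * (Real.log X) ^ (-(2 / 5) : ℝ) * ((L / 2) ^ (-(3 / 5) : ℝ) *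
          (max (((N - i : ℕ)) : ℝ) 1) ^ (-(3 / 5) : ℝ)) := by gcongr
      _ = _ := by ring
  refine (sum_le_sum key).trans ?_
  rw [← mul_sum]
  have hrefl : ∑ i ∈ range (N + 1), (max (((N - i : ℕ)) : ℝ) 1) ^ (-(3 / 5) : ℝ)
      = ∑ m ∈ range (N + 1), (max (m : ℝ) 1) ^ (-(3 / 5) : ℝ) := by
    rw [← sum_range_reflect (fun m : ℕ => (max (m : ℝ) 1) ^ (-(3 / 5) : ℝ)) (N + 1)]
    refine sum_congr rfl fun i _ => ?_
    rw [Nat.add_sub_cancel]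
  rw [hrefl]
  have hNL : ((N : ℝ) + 1) ≤ 2 / L * Real.log X := by
    have h2 := Real.log_le_log (by positivity) hN
    rw [Real.log_pow, ← hL] at h2
    rw [div_mul_eq_mul_div, le_div_iff₀ hL0]
    linarith
  have hN1 : ((N : ℝ) + 1) ^ (2 / 5 : ℝ) ≤ (2 / L) ^ (2 / 5 : ℝ) * (Real.log X) ^ (2 / 5 : ℝ) := by
    rw [← Real.mul_rpow (by positivity) hlX0.le]
    exact Real.rpow_le_rpow (by positivity) hNL (by norm_num)
  have hcancel : (Real.log X) ^ (-(2 / 5) : ℝ) * (Real.log X) ^ (2 / 5 : ℝ) = 1 := by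
    rw [← Real.rpow_add hlX0]
    norm_num
  calc C * DD X * (Real.log X) ^ (-(2 / 5) : ℝ) * (L / 2) ^ (-(3 / 5) : ℝ) *
        ∑ m ∈ range (N + 1), (max (m : ℝ) 1) ^ (-(3 / 5) : ℝ)
      ≤ C * DD X * (Real.log X) ^ (-(2 / 5) : ℝ) * (L / 2) ^ (-(3 / 5) : ℝ) *
        (8 * ((2 / L) ^ (2 / 5 : ℝ) * (Real.log X) ^ (2 / 5 : ℝ))) := by
        have := (nsc_sum N).trans (mul_le_mul_of_nonneg_left hN1 (by norm_num : (0 : ℝ) ≤ 8))
        gcongr
    _ = C * 8 * (L / 2) ^ (-(3 / 5) : ℝ) * (2 / L) ^ (2 / 5 : ℝ) * DD X *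
        ((Real.log X) ^ (-(2 / 5) : ℝ) * (Real.log X) ^ (2 / 5 : ℝ)) := by ring
    _ = _ := by rw [hcancel, mul_one]

end Pool.Agent.TLW
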