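import Pool.Agent.TLW.HT
import Pool.Agent.TLW.PrdB
import Pool.Agent.TLW.RegC

set_option autoImplicit false

/-! few large prime factors -/

namespace Pool.Agent.TLW

open Finset Filter Topology

lemma few_lim (J0 : ℕ) : Tendsto (fun u : ℝ => (∑ j ∈ range J0, (2 * Real.log u) ^ j) *
    u ^ (-(2 / 5) : ℝ)) atTop (𝓝 0) := by
  have h : ∀ j ∈ range J0, Tendsto (fun u : ℝ => (2 * Real.log u) ^ j * u ^ (-(2 / 5) : ℝ))
      atTop (𝓝 0) := by
    intro j _
    have h1 := (isLittleO_log_rpow_rpow_atTop (s := 2 / 5) (j : ℝ)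
      (by norm_num)).tendsto_div_nhds_zero
    have h2 := h1.const_mul ((2 : ℝ) ^ j)
    rw [mul_zero] at h2
    refine h2.congr' ?_
    filter_upwards [eventually_gt_atTop 0] with u hu
    rw [Real.rpow_natCast, Real.rpow_neg hu.le, mul_pow]
    ring
  have h3 := tendsto_finsetSum (range J0) h
  rw [Finset.sum_const_zero] at h3
  refine h3.congr fun u => ?_
  rw [Finset.sum_mul]

lemma sum_inv_le {z X : ℕ} (hz : 2 ≤ z) :
    ∑ p ∈ pr z X, 1 / (p : ℝ) ≤ 2 * Real.log (∏ p ∈ pr z X, (1 + 1 / (p : ℝ))) := by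
  rw [log_DD_div, Finset.mul_sum]
  apply Finset.sum_le_sum
  intro p hp
  have h1 : (2 : ℝ) ≤ p := by
    have := (mem_pr.1 hp).1.1
    exact_mod_cast (by omega : 2 ≤ p)
  have h2 : 1 / (p : ℝ) ≤ 1 / 2 := one_div_le_one_div_of_le (by norm_num) h1
  have h3 : 0 ≤ 1 / (p : ℝ) := by positivity
  have h4 := log_one_add_ge h3
  nlinarith

theorem few_big (ε : ℝ) (hε : 0 < ε) (J0 : ℕ) : ∃ k : ℕ, 1 ≤ k ∧ ∃ X0 : ℕ, ∀ X : ℕ, X0 ≤ X →
    ∀ z : ℕ, z ^ k ≤ X → X < (z + 1) ^ k →
    (((FF X).filter (fun m => big z m < J0)).card : ℝ) ≤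
      ε * ((X : ℝ) / Real.log X) * DD X := by
  obtain ⟨C, hC, h⟩ := ht 1 (by norm_num)
  obtain ⟨D, hD, hreg⟩ := DD_reg
  -- choice of `k`
  have hlim : Tendsto (fun k : ℕ => C * D * (2 * D) ^ (2 / 5 : ℝ) *
      ((∑ j ∈ range J0, (2 * Real.log (2 * D * (k : ℝ))) ^ j) *
        (2 * D * (k : ℝ)) ^ (-(2 / 5) : ℝ))) atTop (𝓝 0) := by
    have h1 : Tendsto (fun k : ℕ => 2 * D * (k : ℝ)) atTop atTop :=
      tendsto_natCast_atTop_atTop.const_mul_atTop (by positivity)
    have h2 := ((few_lim J0).comp h1).const_mul (C * D * (2 * D) ^ (2 / 5 : ℝ))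
    rw [mul_zero] at h2
    exact h2
  obtain ⟨k, hk1, hkε⟩ : ∃ k : ℕ, 1 ≤ k ∧ C * D * (2 * D) ^ (2 / 5 : ℝ) *
      ((∑ j ∈ range J0, (2 * Real.log (2 * D * (k : ℝ))) ^ j) *
        (2 * D * (k : ℝ)) ^ (-(2 / 5) : ℝ)) < ε := by
    have := ((hlim.eventually (gt_mem_nhds hε)).and (eventually_ge_atTop 1)).exists
    obtain ⟨k, h1, h2⟩ := this
    exact ⟨k, h2, h1⟩
  have hkr : (1 : ℝ) ≤ k := by exact_mod_cast hk1
  have hkε' : C * D * (k : ℝ) ^ (-(2 / 5) : ℝ) *
      ∑ j ∈ range J0, (2 * Real.log (2 * D * (k : ℝ))) ^ j < ε := by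
    have e : (2 * D) ^ (2 / 5 : ℝ) * (2 * D * (k : ℝ)) ^ (-(2 / 5) : ℝ) =
        (k : ℝ) ^ (-(2 / 5) : ℝ) := by
      have hk0 : (0 : ℝ) ≤ k := by positivity
      have h2D : 0 < 2 * D := by positivity
      rw [Real.mul_rpow h2D.le hk0, ← mul_assoc, ← Real.rpow_add h2D]
      norm_num
    rw [← e]
    calc _ = C * D * (2 * D) ^ (2 / 5 : ℝ) *
      ((∑ j ∈ range J0, (2 * Real.log (2 * D * (k : ℝ))) ^ j) *
        (2 * D * (k : ℝ)) ^ (-(2 / 5) : ℝ)) := by ring
      _ < ε := hkε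
  refine ⟨k, hk1, 3 ^ k, fun X hX z hz1 hz2 => ?_⟩
  have hz3 : 2 < z + 1 := by
    have h1 : (2 + 1) ^ k < (z + 1) ^ k := lt_of_le_of_lt hX hz2
    have := lt_of_pow_lt_pow_left₀ k (by omega) h1
    omega
  have hz : 2 ≤ z := by omega
  have hzX : z ≤ X := by
    calc z = z ^ 1 := (pow_one z).symm
      _ ≤ z ^ k := Nat.pow_le_pow_right (by omega) hk1
      _ ≤ X := hz1
  have hX2 : 2 ≤ X := hz.trans hzX
  have hzr : (2 : ℝ) ≤ z := by exact_mod_cast hz
  have hXr : (z : ℝ) ≤ X := by exact_mod_cast hzX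
  have hlz : 0 < Real.log z := Real.log_pos (by linarith)
  have hlzX : Real.log z ≤ Real.log X := Real.log_le_log (by linarith) hXr
  have hlX : 0 < Real.log X := by linarith
  have hup : Real.log X ≤ 2 * k * Real.log z := by
    have h1 : (X : ℝ) ≤ ((z : ℝ) ^ 2) ^ k := by
      have h2 : X ≤ (z ^ 2) ^ k := by
        refine hz2.le.trans (Nat.pow_le_pow_left ?_ k)
        nlinarith
      exact_mod_cast h2
    have h3 := Real.log_le_log (by linarith) h1
    rw [Real.log_pow, Real.log_pow] at h3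
    push_cast at h3
    linarith
  have hlow : (k : ℝ) * Real.log z ≤ Real.log X := by
    have h1 : (z : ℝ) ^ k ≤ X := by exact_mod_cast hz1
    have h3 := Real.log_le_log (by positivity) h1
    rw [Real.log_pow] at h3
    exact h3
  obtain ⟨r1, r2⟩ := hreg z X hz hzX
  have hDz := one_le_DD z
  have hDX := one_le_DD X
  -- `DD z`
  have b1 : DD z ≤ D * (k : ℝ) ^ (-(2 / 5) : ℝ) * DD X := by
    refine r1.trans ?_
    apply mul_le_mul_of_nonneg_right _ (by linarith)
    apply mul_le_mul_of_nonneg_left _ hD.le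
    have h1 : Real.log z / Real.log X ≤ (k : ℝ)⁻¹ := by
      rw [inv_eq_one_div, div_le_div_iff₀ hlX (by linarith)]
      linarith
    calc (Real.log z / Real.log X) ^ (2 / 5 : ℝ) ≤ ((k : ℝ)⁻¹) ^ (2 / 5 : ℝ) :=
          Real.rpow_le_rpow (by positivity) h1 (by norm_num)
      _ = _ := by rw [Real.inv_rpow (by linarith), Real.rpow_neg (by linarith)]
  -- the product
  have b2 : ∏ p ∈ pr z X, (1 + 1 / (p : ℝ)) ≤ 2 * D * k := by
    rw [← DD_div hzX, div_le_iff₀ (by linarith)]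
    refine r2.trans ?_
    apply mul_le_mul_of_nonneg_right _ (by linarith)
    have hq : 1 ≤ Real.log X / Real.log z := by
      rw [le_div_iff₀ hlz, one_mul]
      exact hlzX
    have h1 : (Real.log X / Real.log z) ^ (3 / 5 : ℝ) ≤ 2 * k := by
      calc (Real.log X / Real.log z) ^ (3 / 5 : ℝ) ≤ (Real.log X / Real.log z) ^ (1 : ℝ) :=
            Real.rpow_le_rpow_of_exponent_le hq (by norm_num)
        _ = Real.log X / Real.log z := Real.rpow_one _
        _ ≤ 2 * k := by rwa [div_le_iff₀ hlz]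
    calc D * (Real.log X / Real.log z) ^ (3 / 5 : ℝ) ≤ D * (2 * k) :=
          mul_le_mul_of_nonneg_left h1 hD.le
      _ = 2 * D * k := by ring
  have b3 : ∑ p ∈ pr z X, 1 / (p : ℝ) ≤ 2 * Real.log (2 * D * (k : ℝ)) := by
    refine (sum_inv_le hz).trans ?_
    apply mul_le_mul_of_nonneg_left _ (by norm_num)
    have := one_le_prod (pr z X)
    exact Real.log_le_log (by linarith) b2
  have b4 : ∑ j ∈ range J0, (∑ p ∈ pr z X, 1 / (p : ℝ)) ^ j ≤
      ∑ j ∈ range J0, (2 * Real.log (2 * D * (k : ℝ))) ^ j := by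
    apply Finset.sum_le_sum
    intro j _
    exact pow_le_pow_left₀ (Finset.sum_nonneg fun p _ => by positivity) b3 j
  have b5 : 0 ≤ ∑ j ∈ range J0, (∑ p ∈ pr z X, 1 / (p : ℝ)) ^ j :=
    Finset.sum_nonneg fun j _ => pow_nonneg (Finset.sum_nonneg fun p _ => by positivity) j
  -- counting
  have h1 := h (fun n => if big z n < J0 then 1 else 0)
    (fun n => by split_ifs <;> norm_num)
    (by
      intro b p hbp _
      rw [one_mul]
      have h2 : big z b ≤ big z (b * p) := by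
        unfold big
        apply Finset.card_le_card
        apply Finset.filter_subset_filter
        exact Nat.primeFactors_mono (Dvd.intro _ rfl) hbp.1.ne_zero
      by_cases h3 : big z (b * p) < J0
      · simp only [if_pos h3, if_pos (lt_of_le_of_lt h2 h3)]
        exact le_refl _
      · simp only [if_neg h3]
        split_ifs <;> norm_num) X hX2
  have h2 : ∑ m ∈ FF X, (if big z m < J0 then (1 : ℝ) else 0) =
      (((FF X).filter (fun m => big z m < J0)).card : ℝ) := by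
    rw [← Finset.sum_filter]
    simp
  have h3 : ∑ m ∈ FF X, (if big z m < J0 then (1 : ℝ) else 0) / m ≤
      DD z * ∑ j ∈ range J0, (∑ p ∈ pr z X, 1 / (p : ℝ)) ^ j := by
    refine le_trans ?_ (sum_few z X J0 hzX)
    rw [Finset.sum_filter]
    calc ∑ m ∈ FF X, (if big z m < J0 then (1 : ℝ) else 0) / m
        = ∑ m ∈ FF X, (if big z m < J0 then 1 / (m : ℝ) else 0) := by
          apply Finset.sum_congr rfl
          intro m _
          split_ifs
          · rfl
          · rw [zero_div]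
      _ ≤ ∑ m ∈ (PP X).divisors, (if big z m < J0 then 1 / (m : ℝ) else 0) := by
          apply Finset.sum_le_sum_of_subset_of_nonneg (FF_subset X)
          intro i _ _
          split_ifs
          · positivity
          · exact le_refl _
  rw [h2] at h1
  have hXl : 0 ≤ (X : ℝ) / Real.log X := by positivity
  calc (((FF X).filter (fun m => big z m < J0)).card : ℝ)
      ≤ C * ((X : ℝ) / Real.log X) *
          ∑ m ∈ FF X, (if big z m < J0 then (1 : ℝ) else 0) / m := h1
    _ ≤ C * ((X : ℝ) / Real.log X) *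
          (D * (k : ℝ) ^ (-(2 / 5) : ℝ) * DD X *
            ∑ j ∈ range J0, (2 * Real.log (2 * D * (k : ℝ))) ^ j) := by
        apply mul_le_mul_of_nonneg_left _ (by positivity)
        refine h3.trans ?_
        exact mul_le_mul b1 b4 b5 (by positivity)
    _ = (C * D * (k : ℝ) ^ (-(2 / 5) : ℝ) *
          ∑ j ∈ range J0, (2 * Real.log (2 * D * (k : ℝ))) ^ j) *
            ((X : ℝ) / Real.log X * DD X) := by ring
    _ ≤ ε * ((X : ℝ) / Real.log X * DD X) :=
        mul_le_mul_of_nonneg_right hkε'.le (by positivity)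
    _ = ε * ((X : ℝ) / Real.log X) * DD X := by ring

end Pool.Agent.TLW
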