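import Pool.Agent.TLW.PrdA
import Pool.Agent.PNTAP.Main

set_option autoImplicit false

/-! counting primes of `P8` -/

namespace Pool.Agent.TLW

open Finset Filter Topology

private lemma pr_class_eq (r : ℕ) (hr : r = 1 ∨ r = 7) (x : ℕ) :
    (pr 0 x).filter (fun q => q % 8 = r) = PNTAP.primesC (q := 8) (r : ZMod 8) (x : ℝ) := by
  unfold pr PNTAP.primesC
  ext p
  simp only [Finset.mem_filter, Nat.floor_natCast, P8]
  have h8 : ((p : ZMod 8) = (r : ZMod 8)) ↔ p % 8 = r := by
    rw [ZMod.natCast_eq_natCast_iff, Nat.ModEq]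
    rcases hr with rfl | rfl <;> simp
  rw [h8]
  constructor
  · rintro ⟨⟨h1, h2, h3⟩, h4⟩
    exact ⟨h1, h2, h4⟩
  · rintro ⟨h1, h2, h4⟩
    refine ⟨⟨h1, h2, ?_⟩, h4⟩
    rcases hr with rfl | rfl
    · exact Or.inl h4
    · exact Or.inr h4

/-- primes in a fixed class -/
theorem pr_class (r : ℕ) (hr : r = 1 ∨ r = 7) :
    Tendsto (fun x : ℕ => (((pr 0 x).filter (fun q => q % 8 = r)).card : ℝ) / (x / Real.log x))
      atTop (𝓝 (1 / 4)) := by
  have hu : IsUnit ((r : ℕ) : ZMod 8) := by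
    rcases hr with rfl | rfl <;> decide
  have h := (PNTAP.tendsto_primeCounting_class (q := 8) hu).comp tendsto_natCast_atTop_atTop
  have h8 : ((Nat.totient 8 : ℝ))⁻¹ = 1 / 4 := by
    have : Nat.totient 8 = 4 := by decide
    rw [this]; norm_num
  rw [h8] at h
  refine h.congr fun x => ?_
  simp only [Function.comp_apply, PNTAP.piC]
  rw [pr_class_eq r hr x, div_div_eq_mul_div]

theorem pr_count : Tendsto (fun x : ℕ => ((pr 0 x).card : ℝ) / (x / Real.log x)) atTop
    (𝓝 (1 / 2)) := by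
  have h := (pr_class 1 (Or.inl rfl)).add (pr_class 7 (Or.inr rfl))
  have e : (1 / 4 + 1 / 4 : ℝ) = 1 / 2 := by norm_num
  rw [e] at h
  refine h.congr fun x => ?_
  rw [← add_div]
  congr 1
  have hd : Disjoint ((pr 0 x).filter (fun q => q % 8 = 1))
      ((pr 0 x).filter (fun q => q % 8 = 7)) := by
    rw [Finset.disjoint_filter]
    intro q _ h1 h7
    omega
  have hU : pr 0 x = (pr 0 x).filter (fun q => q % 8 = 1) ∪
      (pr 0 x).filter (fun q => q % 8 = 7) := by
    ext q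
    simp only [Finset.mem_union, Finset.mem_filter]
    constructor
    · intro h
      have h2 : P8 q := by
        unfold pr at h
        exact (Finset.mem_filter.1 h).2
      rcases h2.2 with h3 | h3
      · exact Or.inl ⟨h, h3⟩
      · exact Or.inr ⟨h, h3⟩
    · rintro (h | h) <;> exact h.1
  have hc := Finset.card_union_of_disjoint hd
  rw [← hU] at hc
  rw [hc]
  push_cast
  rfl

/-- short intervals -/
theorem pr_short (κ : ℝ) (h0 : 0 < κ) (h1 : κ ≤ 1) : ∃ V0 : ℕ, ∀ V y : ℕ, V0 ≤ V → V ≤ y →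
    (y : ℝ) ≤ (1 + κ) * V → ((pr V y).card : ℝ) ≤ κ * (V / Real.log V) := by
  have hδ : (0:ℝ) < κ / 6 := by positivity
  have h := (Metric.tendsto_atTop.1 pr_count) (κ / 6) hδ
  obtain ⟨N, hN⟩ := h
  refine ⟨max N 3, ?_⟩
  intro V y hV hVy hy
  have hNV : N ≤ V := le_trans (le_max_left _ _) hV
  have h3V : 3 ≤ V := le_trans (le_max_right _ _) hV
  have hV1 : (1:ℝ) < V := by exact_mod_cast (by omega : 1 < V)
  have hy1 : (1:ℝ) < y := by exact_mod_cast (by omega : 1 < y)
  have hlV : 0 < Real.log V := Real.log_pos hV1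
  have hly : 0 < Real.log y := Real.log_pos hy1
  have hVy' : (V:ℝ) ≤ y := by exact_mod_cast hVy
  have hll : Real.log V ≤ Real.log y := Real.log_le_log (by linarith) hVy'
  have hA : ∀ z : ℕ, N ≤ z → (1:ℝ) < z →
      (1 / 2 - κ / 6) * (z / Real.log z) ≤ ((pr 0 z).card : ℝ) ∧
      ((pr 0 z).card : ℝ) ≤ (1 / 2 + κ / 6) * (z / Real.log z) := by
    intro z hz hz1
    have hlz : 0 < Real.log z := Real.log_pos hz1
    have hq : 0 < (z : ℝ) / Real.log z := div_pos (by linarith) hlz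
    have h2 := hN z hz
    rw [Real.dist_eq, abs_lt] at h2
    constructor
    · have h3 : 1 / 2 - κ / 6 ≤ ((pr 0 z).card : ℝ) / (z / Real.log z) := by linarith [h2.1]
      exact (le_div_iff₀ hq).1 h3
    · have h3 : ((pr 0 z).card : ℝ) / (z / Real.log z) ≤ 1 / 2 + κ / 6 := by linarith [h2.2]
      exact (div_le_iff₀ hq).1 h3
  have hcard : ((pr V y).card : ℝ) = ((pr 0 y).card : ℝ) - ((pr 0 V).card : ℝ) := by
    have hd : Disjoint (pr 0 V) (pr V y) := by
      unfold pr
      refine Finset.disjoint_filter_filter ?_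
      rw [Finset.disjoint_left]
      intro a ha hb
      rw [Finset.mem_Ioc] at ha hb
      omega
    have hU : pr 0 y = pr 0 V ∪ pr V y := by
      unfold pr
      rw [← Finset.filter_union, Finset.Ioc_union_Ioc_eq_Ioc (Nat.zero_le _) hVy]
    have hc := Finset.card_union_of_disjoint hd
    rw [← hU] at hc
    rw [hc]
    push_cast
    ring
  have hup := (hA y (le_trans hNV hVy) hy1).2
  have hlo := (hA V hNV hV1).1
  have hyq : (y : ℝ) / Real.log y ≤ (1 + κ) * (V / Real.log V) := by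
    rw [mul_div_assoc']
    exact div_le_div₀ (by positivity) hy hlV hll
  have hq : 0 < (V : ℝ) / Real.log V := div_pos (by linarith) hlV
  rw [hcard]
  have h5 : (1 / 2 + κ / 6) * (y / Real.log y) ≤ (1 / 2 + κ / 6) * ((1 + κ) * (V / Real.log V)) :=
    mul_le_mul_of_nonneg_left hyq (by positivity)
  have h6 : (1 / 2 + κ / 6) * ((1 + κ) * (V / Real.log V)) -
      (1 / 2 - κ / 6) * (V / Real.log V) ≤ κ * (V / Real.log V) := by
    have h7 : (1 / 2 + κ / 6) * (1 + κ) - (1 / 2 - κ / 6) ≤ κ := by nlinarith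
    calc (1 / 2 + κ / 6) * ((1 + κ) * (V / Real.log V)) - (1 / 2 - κ / 6) * (V / Real.log V)
        = ((1 / 2 + κ / 6) * (1 + κ) - (1 / 2 - κ / 6)) * (V / Real.log V) := by ring
      _ ≤ κ * (V / Real.log V) := mul_le_mul_of_nonneg_right h7 hq.le
  linarith

end Pool.Agent.TLW
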