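import Pool.Agent.TLW.HT
import Pool.Agent.TLW.Tight
import Pool.Agent.TLW.Ifc
import Pool.Agent.TLW.PrdB

set_option autoImplicit false

/-! mean of `Kf` of the smooth part -/

namespace Pool.Agent.TLW

open Finset

private theorem Ksm_F1_dvd {a d : ℕ} (ha : F1 a) (hd : d ∣ a) : F1 d :=
  ⟨ha.1.squarefree_of_dvd hd, fun p hp => ha.2 p (Nat.primeFactors_mono hd ha.1.ne_zero hp)⟩

private theorem Ksm_smo_dvd (z m : ℕ) (hm : Squarefree m) : smo z m ∣ m := by
  unfold smo
  calc ∏ p ∈ m.primeFactors.filter (· ≤ z), p ∣ ∏ p ∈ m.primeFactors, p :=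
        Finset.prod_dvd_prod_of_subset _ _ _ (Finset.filter_subset _ _)
    _ = m := Nat.prod_primeFactors_of_squarefree hm

private theorem Ksm_smo_self (z m : ℕ) (hm : Squarefree m) (h : m ≤ z) : smo z m = m := by
  unfold smo
  rw [Finset.filter_true_of_mem]
  · exact Nat.prod_primeFactors_of_squarefree hm
  · intro p hp
    exact (Nat.le_of_mem_primeFactors hp).trans h

private theorem Ksm_prime {b p : ℕ} (h : F1 (b * p)) (hp : p.Prime) :
    b ≠ 0 ∧ ¬ p ∣ b ∧ (b * p).primeFactors = insert p b.primeFactors := by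
  have hb0 : b ≠ 0 := by
    rintro rfl
    exact h.1.ne_zero (by simp)
  have hco : Nat.Coprime b p := Nat.coprime_of_squarefree_mul h.1
  have hpb : ¬ p ∣ b := fun hd => by
    have : p ∣ 1 := by
      rw [← hco.gcd_eq_one]
      exact Nat.dvd_gcd hd dvd_rfl
    exact hp.one_lt.ne' (Nat.dvd_one.mp this)
  refine ⟨hb0, hpb, ?_⟩
  rw [Nat.primeFactors_mul hb0 hp.ne_zero, hp.primeFactors, Finset.union_comm, Finset.insert_eq]

private theorem Ksm_step (z b p : ℕ) (h : F1 (b * p)) (hp : p.Prime) :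
    Kf (smo z (b * p)) ≤ 2 * Kf (smo z b) := by
  obtain ⟨hb0, hpb, hpf⟩ := Ksm_prime h hp
  have hpb' : p ∉ b.primeFactors := fun hm => hpb (Nat.dvd_of_mem_primeFactors hm)
  by_cases hz : p ≤ z
  · have e : smo z (b * p) = smo z b * p := by
      unfold smo
      rw [hpf, Finset.filter_insert, if_pos hz, Finset.prod_insert, Nat.mul_comm]
      intro hm
      exact hpb' (Finset.mem_filter.mp hm).1
    rw [e]
    apply Kf_le _ _ _ hp
    rw [← e]
    exact Ksm_F1_dvd h (Ksm_smo_dvd z (b * p) h.1)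
  · have e : smo z (b * p) = smo z b := by
      unfold smo
      rw [hpf, Finset.filter_insert, if_neg hz]
    rw [e]
    have := one_le_Kf (smo z b)
    linarith

theorem Kf_smo_sum : ∃ C : ℝ, 0 < C ∧ ∀ z x : ℕ, 2 ≤ z → 2 ≤ x →
    ∑ m ∈ FF x, Kf (smo z m) ≤ C * ((x : ℝ) / Real.log x) * DD x := by
  obtain ⟨C1, hC1, h1⟩ := ht 2 (by norm_num)
  obtain ⟨C2, hC2, h2⟩ := tight
  have key : ∀ z x : ℕ, 2 ≤ z → z ≤ x →
      ∑ m ∈ FF x, Kf (smo z m) ≤ C1 * C2 * ((x : ℝ) / Real.log x) * DD x := by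
    intro z x hz hzx
    have hx : 2 ≤ x := hz.trans hzx
    have hlog : 0 < Real.log x := Real.log_pos (by exact_mod_cast hx)
    have hf0 : ∀ n, 0 ≤ Kf (smo z n) := fun n => zero_le_one.trans (one_le_Kf _)
    have hs := h1 (fun m => Kf (smo z m)) hf0 (fun b p hbp hp => Ksm_step z b p hbp hp) x hx
    have hsub : ∑ m ∈ FF x, Kf (smo z m) / m ≤ ∑ m ∈ (PP x).divisors, Kf (smo z m) / m :=
      Finset.sum_le_sum_of_subset_of_nonneg (FF_subset x)
        (fun m _ _ => div_nonneg (hf0 m) (Nat.cast_nonneg m))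
    have hprod : 0 ≤ ∏ p ∈ pr z x, (1 + 1 / (p : ℝ)) := Finset.prod_nonneg (fun p _ => by positivity)
    have hsum : ∑ m ∈ (PP x).divisors, Kf (smo z m) / m ≤ C2 * DD x := by
      rw [sum_smo z x hzx Kf, DD_mul hzx, ← mul_assoc]
      exact mul_le_mul_of_nonneg_right (h2 z hz) hprod
    calc ∑ m ∈ FF x, Kf (smo z m)
        ≤ C1 * ((x : ℝ) / Real.log x) * ∑ m ∈ FF x, Kf (smo z m) / m := hs
      _ ≤ C1 * ((x : ℝ) / Real.log x) * (C2 * DD x) :=
          mul_le_mul_of_nonneg_left (hsub.trans hsum) (by positivity)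
      _ = C1 * C2 * ((x : ℝ) / Real.log x) * DD x := by ring
  refine ⟨C1 * C2, by positivity, fun z x hz hx => ?_⟩
  rcases le_total z x with hzx | hzx
  · exact key z x hz hzx
  · have e : ∀ m ∈ FF x, Kf (smo z m) = Kf (smo x m) := by
      intro m hm
      obtain ⟨hm1, hm2⟩ := Finset.mem_filter.mp hm
      have hmx : m ≤ x := (Finset.mem_Icc.mp hm1).2
      rw [Ksm_smo_self z m hm2.1 (hmx.trans hzx), Ksm_smo_self x m hm2.1 hmx]
    rw [Finset.sum_congr rfl e]
    exact key x x hx le_rfl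

end Pool.Agent.TLW
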