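import Pool.Agent.TLW.Defs

set_option autoImplicit false

/-! Hall-Tenenbaum inequality -/

namespace Pool.Agent.TLW

open Finset

private lemma mem_FF {x n : ℕ} : n ∈ FF x ↔ 1 ≤ n ∧ n ≤ x ∧ F1 n := by
  unfold FF; rw [mem_filter, mem_Icc]; tauto

private lemma F1_of_dvd {a b : ℕ} (h : F1 a) (hb : b ∣ a) : F1 b :=
  ⟨h.1.squarefree_of_dvd hb, fun p hp => h.2 p (by
    rw [Nat.mem_primeFactors] at hp ⊢
    exact ⟨hp.1, hp.2.1.trans hb, h.1.ne_zero⟩)⟩

/-- `log m` for squarefree `m` -/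
private lemma log_eq {m : ℕ} (hm : Squarefree m) :
    Real.log m = ∑ p ∈ m.primeFactors, Real.log p := by
  conv_lhs => rw [← Nat.prod_primeFactors_of_squarefree hm]
  rw [Nat.cast_prod, Real.log_prod]
  intro p hp
  exact_mod_cast (Nat.prime_of_mem_primeFactors hp).ne_zero

private lemma part_one {c : ℝ} (hc : 0 ≤ c) (f : ℕ → ℝ) (hf : ∀ n, 0 ≤ f n)
    (hfc : ∀ b p : ℕ, F1 (b * p) → p.Prime → f (b * p) ≤ c * f b) (x : ℕ) :
    ∑ m ∈ FF x, f m * Real.log m ≤ c * Real.log 4 * x * ∑ m ∈ FF x, f m / m := by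
  -- pairs (b, p)
  set Q : Finset (Σ _ : ℕ, ℕ) := (FF x).sigma fun b => (Ioc 0 (x / b)).filter Nat.Prime with hQ
  set P : Finset (Σ _ : ℕ, ℕ) := (FF x).sigma fun m => m.primeFactors with hP
  have h1 : ∑ m ∈ FF x, f m * Real.log m = ∑ a ∈ P, f a.1 * Real.log a.2 := by
    rw [hP, sum_sigma]
    refine sum_congr rfl fun m hm => ?_
    rw [log_eq (mem_FF.mp hm).2.2.1, mul_sum]
  have hcond : ∀ a ∈ P, a.2.Prime ∧ a.2 ∣ a.1 ∧ a.1 ≠ 0 ∧ a.1 / a.2 * a.2 = a.1 ∧
      a.1 ∈ FF x := by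
    intro a ha
    rw [hP, mem_sigma, Nat.mem_primeFactors] at ha
    exact ⟨ha.2.1, ha.2.2.1, ha.2.2.2, Nat.div_mul_cancel ha.2.2.1, ha.1⟩
  have hinj : Set.InjOn (fun a : Σ _ : ℕ, ℕ => (⟨a.1 / a.2, a.2⟩ : Σ _ : ℕ, ℕ)) (P : Set _) := by
    rintro ⟨m, p⟩ ha ⟨m', p'⟩ ha' h
    obtain ⟨-, -, -, e1, -⟩ := hcond _ ha
    obtain ⟨-, -, -, e2, -⟩ := hcond _ ha'
    simp only [Sigma.mk.injEq] at h
    obtain ⟨h1, h2⟩ := h
    have h2' : p = p' := eq_of_heq h2
    subst h2'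
    simp only at e1 e2
    rw [h1] at e1
    rw [e1] at e2
    subst e2
    rfl
  have h2 : ∑ a ∈ P, f a.1 * Real.log a.2 ≤ ∑ a ∈ Q, c * f a.1 * Real.log a.2 := by
    calc ∑ a ∈ P, f a.1 * Real.log a.2 ≤ ∑ a ∈ P, c * f (a.1 / a.2) * Real.log a.2 := by
          refine sum_le_sum fun a ha => ?_
          obtain ⟨p1, p2, p3, p4, p5⟩ := hcond a ha
          have hlog : 0 ≤ Real.log a.2 := Real.log_natCast_nonneg _
          refine mul_le_mul_of_nonneg_right ?_ hlog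
          have := hfc (a.1 / a.2) a.2 (by rw [p4]; exact (mem_FF.mp p5).2.2) p1
          rwa [p4] at this
      _ = ∑ a ∈ P.image (fun a : Σ _ : ℕ, ℕ => (⟨a.1 / a.2, a.2⟩ : Σ _ : ℕ, ℕ)),
            c * f a.1 * Real.log a.2 := by rw [sum_image hinj]
      _ ≤ _ := by
          refine sum_le_sum_of_subset_of_nonneg ?_ fun a _ _ => ?_
          · intro a ha
            rw [mem_image] at ha
            obtain ⟨a', ha', rfl⟩ := ha
            obtain ⟨p1, p2, p3, p4, p5⟩ := hcond a' ha'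
            have p5' := mem_FF.mp p5
            have hb0 : 0 < a'.1 / a'.2 := Nat.div_pos (Nat.le_of_dvd (by omega) p2) p1.pos
            rw [hQ, mem_sigma, mem_filter, mem_Ioc]
            refine ⟨mem_FF.mpr ⟨hb0, (Nat.div_le_self _ _).trans p5'.2.1, ?_⟩,
              ⟨p1.pos, ?_⟩, p1⟩
            · exact F1_of_dvd p5'.2.2 (Nat.div_dvd_of_dvd p2)
            · show a'.2 ≤ x / (a'.1 / a'.2)
              rw [Nat.le_div_iff_mul_le hb0, mul_comm, p4]
              exact p5'.2.1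
          · have := hf a.1
            have : 0 ≤ Real.log (a.2 : ℝ) := Real.log_natCast_nonneg _
            positivity
  have h3 : ∑ a ∈ Q, c * f a.1 * Real.log a.2 ≤ c * Real.log 4 * x * ∑ m ∈ FF x, f m / m := by
    rw [hQ, sum_sigma, mul_sum]
    refine sum_le_sum fun b hb => ?_
    have hb' := mem_FF.mp hb
    have hb0 : (0 : ℝ) < b := by exact_mod_cast hb'.1
    simp only
    rw [← mul_sum]
    have hθ : ∑ p ∈ (Ioc 0 (x / b)).filter Nat.Prime, Real.log p ≤ Real.log 4 * (x / b) := by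
      have h4 := Chebyshev.theta_le_log4_mul_x (x := ((x : ℝ) / b)) (by positivity)
      have h5 : Chebyshev.theta ((x : ℝ) / b) =
          ∑ p ∈ (Ioc 0 (x / b)).filter Nat.Prime, Real.log p := by
        unfold Chebyshev.theta
        rw [Nat.floor_div_eq_div]
      rwa [h5] at h4
    have hfb := hf b
    calc c * f b * ∑ p ∈ (Ioc 0 (x / b)).filter Nat.Prime, Real.log p
        ≤ c * f b * (Real.log 4 * (x / b)) :=
          mul_le_mul_of_nonneg_left hθ (mul_nonneg hc hfb)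
      _ = c * Real.log 4 * x * (f b / b) := by ring
  rw [h1]
  exact h2.trans h3

theorem ht (c : ℝ) (hc : 0 ≤ c) : ∃ C : ℝ, 0 < C ∧ ∀ f : ℕ → ℝ, (∀ n, 0 ≤ f n) →
    (∀ b p : ℕ, F1 (b * p) → p.Prime → f (b * p) ≤ c * f b) → ∀ x : ℕ, 2 ≤ x →
    ∑ m ∈ FF x, f m ≤ C * ((x : ℝ) / Real.log x) * ∑ m ∈ FF x, f m / m := by
  have hl4 : 0 < Real.log 4 := Real.log_pos (by norm_num)
  refine ⟨c * Real.log 4 + 1, by positivity, fun f hf hfc x hx => ?_⟩
  have hx0 : (0 : ℝ) < x := by exact_mod_cast (by omega : 0 < x)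
  have hlx : 0 < Real.log x := Real.log_pos (by exact_mod_cast (by omega : 1 < x))
  have h1 := part_one hc f hf hfc x
  have h2 : ∑ m ∈ FF x, f m * Real.log (x / m) ≤ x * ∑ m ∈ FF x, f m / m := by
    rw [mul_sum]
    refine sum_le_sum fun m hm => ?_
    have hm' := mem_FF.mp hm
    have hm0 : (0 : ℝ) < m := by exact_mod_cast hm'.1
    have : Real.log (x / m) ≤ x / m := (Real.log_le_sub_one_of_pos (by positivity)).trans (by linarith)
    calc f m * Real.log (x / m) ≤ f m * (x / m) := mul_le_mul_of_nonneg_left this (hf m)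
      _ = x * (f m / m) := by ring
  have h3 : Real.log x * ∑ m ∈ FF x, f m =
      ∑ m ∈ FF x, f m * Real.log m + ∑ m ∈ FF x, f m * Real.log (x / m) := by
    rw [mul_sum, ← sum_add_distrib]
    refine sum_congr rfl fun m hm => ?_
    have hm' := mem_FF.mp hm
    have hm0 : (m : ℝ) ≠ 0 := by
      have : 0 < m := hm'.1
      positivity
    rw [Real.log_div hx0.ne' hm0]
    ring
  have h4 : Real.log x * ∑ m ∈ FF x, f m ≤
      (c * Real.log 4 + 1) * x * ∑ m ∈ FF x, f m / m := by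
    rw [h3]
    calc _ ≤ c * Real.log 4 * x * ∑ m ∈ FF x, f m / m + x * ∑ m ∈ FF x, f m / m :=
          add_le_add h1 h2
      _ = _ := by ring
  have e : (c * Real.log 4 + 1) * ((x : ℝ) / Real.log x) * ∑ m ∈ FF x, f m / m =
      ((c * Real.log 4 + 1) * x * ∑ m ∈ FF x, f m / m) / Real.log x := by ring
  rw [e, le_div_iff₀ hlx]
  linarith

end Pool.Agent.TLW
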