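import Mathlib
import Pool.Agent.TLW.Defs
import Pool.Agent.HyperWeil.LargeSieve

set_option autoImplicit false

/-!
# S6 / L2a: the character sums `SS` as the twisted sums of `HyperWeil` (quadratic reciprocity)
-/

namespace Pool.Agent.TLW

open Finset Pool.Agent.HyperWeil

lemma abs_sg (x : ZMod 2) : |sg x| = 1 := by
  unfold sg; split_ifs <;> simp

/-- the weight that turns `(q / d)` into `(d / q)` -/
noncomputable def Fw (i j : ZMod 2) (t : Bool) (q : ℕ) : ℝ :=
  if P8 q then sg (i * nn q + j * lam q) * (if t = true ∧ q % 4 = 3 then -1 else 1) else 0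

lemma abs_Fw_le (i j : ZMod 2) (t : Bool) (q : ℕ) : |Fw i j t q| ≤ 1 := by
  unfold Fw
  split_ifs
  · rw [abs_mul, abs_sg]; simp
  · rw [abs_mul, abs_sg]; simp
  · simp

lemma P8.odd {q : ℕ} (h : P8 q) : Odd q := by
  rcases h with ⟨_, h | h⟩ <;> exact Nat.odd_iff.mpr (by omega)

lemma F1.odd {d : ℕ} (h : F1 d) : Odd d := by
  rcases Nat.even_or_odd d with he | ho
  · exfalso
    have h0 : d ≠ 0 := h.1.ne_zero
    have h2 : 2 ∈ d.primeFactors := by
      rw [Nat.mem_primeFactors]
      exact ⟨Nat.prime_two, he.two_dvd, h0⟩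
    rcases h.2 2 h2 with h' | h' <;> omega
  · exact ho

lemma F1.ne_zero {d : ℕ} (h : F1 d) : d ≠ 0 := h.1.ne_zero

lemma ss_eq_tsum {d : ℕ} (hd : F1 d) (x : ℕ) (i j : ZMod 2) :
    SS (pr 0 x) (fun _ => 1) d i j = tsum' (Fw i j (decide (d % 4 = 3))) x (d : ℤ) := by
  unfold SS tsum'
  have hsub : pr 0 x ⊆ oddPrimes x := by
    intro q hq
    rw [pr, mem_filter, mem_Ioc] at hq
    rw [mem_oddPrimes]
    refine ⟨hq.1.2, hq.2.1, ?_⟩
    rintro rfl
    rcases hq.2.2 with h | h <;> omega
  rw [← Finset.sum_subset hsub]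
  · refine Finset.sum_congr rfl fun q hq => ?_
    rw [pr, mem_filter, mem_Ioc] at hq
    have hP := hq.2
    have hqo : Odd q := hP.odd
    have hq2 : q % 2 = 1 := Nat.odd_iff.mp hqo
    unfold Fw psi
    rw [if_pos hP, if_pos hq2, one_mul]
    rw [jacobiSym.quadratic_reciprocity hqo hd.odd]
    have hd2 : d % 2 = 1 := Nat.odd_iff.mp hd.odd
    have key : ((-1 : ℤ) ^ (q / 2 * (d / 2))) =
        (if (decide (d % 4 = 3)) = true ∧ q % 4 = 3 then -1 else 1) := by
      have hq4 : q % 4 = 1 ∨ q % 4 = 3 := by omega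
      have hd4 : d % 4 = 1 ∨ d % 4 = 3 := by omega
      rcases hd4 with h | h
      · have : Even (d / 2) := by rw [Nat.even_iff]; omega
        rw [(this.mul_left _).neg_one_pow]
        simp [h]
      · rcases hq4 with h' | h'
        · have : Even (q / 2) := by rw [Nat.even_iff]; omega
          rw [(this.mul_right _).neg_one_pow]
          simp [h']
        · have h1 : Odd (q / 2) := by rw [Nat.odd_iff]; omega
          have h2 : Odd (d / 2) := by rw [Nat.odd_iff]; omega
          rw [(h1.mul h2).neg_one_pow]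
          simp [h, h']
    rw [key]
    push_cast
    ring
  · intro q _ hq
    have : ¬ P8 q := by
      intro hP
      apply hq
      rw [pr, mem_filter, mem_Ioc]
      rename_i h1
      rw [mem_oddPrimes] at h1
      exact ⟨⟨hP.1.pos, h1.1⟩, hP⟩
    unfold Fw
    rw [if_neg this, zero_mul]

end Pool.Agent.TLW
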