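import Mathlib
import Pool.Agent.TLW.Defs
import Pool.Agent.TLW.L2a
import Pool.Agent.PNTAP.Main

set_option autoImplicit false

/-!
# S6 / L2b: the character sums for a fixed modulus (prime number theorem in progressions)
-/

namespace Pool.Agent.TLW

open Finset Filter Topology

/-- the summand as a function of the residue modulo `16 d` -/
noncomputable def fv (d : ℕ) (i j : ZMod 2) (n : ℕ) : ℝ :=
  if n % 8 = 1 ∨ n % 8 = 7 then (jacobiSym (n : ℤ) d : ℝ) * sg (i * nn n + j * lam n) else 0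

lemma fv_mod (d : ℕ) (i j : ZMod 2) (n : ℕ) : fv d i j (n % (16 * d)) = fv d i j n := by
  have h16 : n % (16 * d) % 16 = n % 16 := Nat.mod_mod_of_dvd _ (Dvd.intro _ rfl)
  have h8 : n % (16 * d) % 8 = n % 8 :=
    Nat.mod_mod_of_dvd _ (Dvd.intro (2 * d) (by ring))
  have hnn : nn (n % (16 * d)) = nn n := by unfold nn; rw [h8]
  have hlam : lam (n % (16 * d)) = lam n := by unfold lam; rw [h16]
  have hJ : jacobiSym ((n % (16 * d) : ℕ) : ℤ) d = jacobiSym (n : ℤ) d := by
    rw [jacobiSym.mod_left, jacobiSym.mod_left (n : ℤ)]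
    congr 1
    push_cast
    exact Int.emod_emod_of_dvd _ (Dvd.intro_left 16 rfl)
  unfold fv
  rw [h8, hnn, hlam, hJ]

lemma zmod2_cases : ∀ x : ZMod 2, x = 0 ∨ x = 1 := by decide

lemma sg_add (x y : ZMod 2) : sg (x + y) = sg x * sg y := by
  have h11 : (1 : ZMod 2) + 1 = 0 := by decide
  have h10 : (1 : ZMod 2) ≠ 0 := by decide
  rcases zmod2_cases x with rfl | rfl <;> rcases zmod2_cases y with rfl | rfl <;>
    simp [sg, h11]

/-- multiplicativity on the classes `±1` modulo `8` -/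
lemma fv_mul (d : ℕ) (i j : ZMod 2) {U : ℕ} (hU : U % 8 = 1 ∨ U % 8 = 7) (n : ℕ) :
    fv d i j (U * n) = fv d i j U * fv d i j n := by
  have hiff : ((U * n) % 8 = 1 ∨ (U * n) % 8 = 7) ↔ (n % 8 = 1 ∨ n % 8 = 7) := by
    rw [Nat.mul_mod]
    have hn : n % 8 < 8 := Nat.mod_lt _ (by norm_num)
    rcases hU with h | h <;> rw [h] <;> interval_cases (n % 8) <;> simp
  by_cases hn : n % 8 = 1 ∨ n % 8 = 7
  · unfold fv
    rw [if_pos hU, if_pos hn, if_pos (hiff.mpr hn)]
    have hnn : nn (U * n) = nn U + nn n := by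
      unfold nn
      rw [Nat.mul_mod]
      rcases hU with h | h <;> rcases hn with h' | h' <;> rw [h, h'] <;> norm_num <;> decide
    have hlam : lam (U * n) = lam U + lam n := by
      unfold lam
      rw [Nat.mul_mod]
      have h1 : U % 16 = 1 ∨ U % 16 = 7 ∨ U % 16 = 9 ∨ U % 16 = 15 := by omega
      have h2 : n % 16 = 1 ∨ n % 16 = 7 ∨ n % 16 = 9 ∨ n % 16 = 15 := by omega
      rcases h1 with h | h | h | h <;> rcases h2 with h' | h' | h' | h' <;> rw [h, h'] <;>
        norm_num <;> decide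
    rw [hnn, hlam]
    have : i * (nn U + nn n) + j * (lam U + lam n) = (i * nn U + j * lam U) + (i * nn n + j * lam n) := by
      ring
    rw [this, sg_add]
    push_cast
    rw [jacobiSym.mul_left]
    push_cast
    ring
  · have h0 : fv d i j n = 0 := by unfold fv; rw [if_neg hn]
    have h1 : fv d i j (U * n) = 0 := by
      unfold fv; rw [if_neg (fun h => hn (hiff.mp h))]
    rw [h0, h1, mul_zero]

lemma exists_U {d : ℕ} (hd : F1 d) (i j : ZMod 2) (h : ¬ (d = 1 ∧ i = 0 ∧ j = 0)) :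
    ∃ U : ℕ, Nat.Coprime U (16 * d) ∧ (U % 8 = 1 ∨ U % 8 = 7) ∧ fv d i j U = -1 := by
  by_cases hd1 : d = 1
  · subst hd1
    have hij : ¬ (i = 0 ∧ j = 0) := fun h' => h ⟨rfl, h'⟩
    rcases zmod2_cases i with rfl | rfl <;> rcases zmod2_cases j with rfl | rfl
    · exact absurd ⟨rfl, rfl⟩ hij
    · refine ⟨7, by norm_num, by norm_num, ?_⟩
      simp [fv, lam, nn, sg]
    · refine ⟨7, by norm_num, by norm_num, ?_⟩
      simp [fv, lam, nn, sg]
    · refine ⟨9, by norm_num, by norm_num, ?_⟩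
      simp [fv, lam, nn, sg]
  · -- a prime of `d`
    obtain ⟨p, hp, hpd⟩ := Nat.exists_prime_and_dvd hd1
    obtain ⟨e, rfl⟩ := hpd
    have hsq : Squarefree (p * e) := hd.1
    have hodd : Odd (p * e) := hd.odd
    have hpo : Odd p := (Nat.odd_mul.mp hodd).1
    have heo : Odd e := (Nat.odd_mul.mp hodd).2
    have hcop : Nat.Coprime p e := (Nat.squarefree_mul_iff.mp hsq).1
    have : Fact p.Prime := ⟨hp⟩
    have hp2 : ringChar (ZMod p) ≠ 2 := by
      rw [ZMod.ringChar_zmod_n]
      rintro rfl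
      exact absurd hpo (by decide)
    obtain ⟨a, ha⟩ := FiniteField.exists_nonsquare hp2
    -- CRT
    have hcop2 : Nat.Coprime p (16 * e) := by
      refine Nat.Coprime.mul_right ?_ hcop
      exact Nat.Coprime.pow_right 4 (Nat.coprime_two_right.mpr hpo)
    obtain ⟨U, hU1, hU2⟩ := Nat.chineseRemainder hcop2 a.val 1
    have hUp : ((U : ℕ) : ZMod p) = a := by
      have := (ZMod.natCast_eq_natCast_iff U a.val p).mpr hU1
      rw [this, ZMod.natCast_zmod_val]
    have hU16 : U % 16 = 1 := by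
      have := hU2.of_mul_right e
      unfold Nat.ModEq at this
      omega
    have hUe : U ≡ 1 [MOD e] := hU2.of_mul_left 16
    have hJp : jacobiSym (U : ℤ) p = -1 := by
      rw [← jacobiSym.legendreSym.to_jacobiSym]
      rw [legendreSym.eq_neg_one_iff]
      push_cast
      rw [hUp]
      exact ha
    have hJe : jacobiSym (U : ℤ) e = 1 := by
      rw [jacobiSym.mod_left, show (U : ℤ) % e = (1 : ℤ) % e from ?_, ← jacobiSym.mod_left,
        jacobiSym.one_left]
      have := (Int.natCast_modEq_iff (a := U) (b := 1) (n := e)).mpr hUe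
      exact_mod_cast this
    have hJ : jacobiSym (U : ℤ) (p * e) = -1 := by
      rw [jacobiSym.mul_right' _ hp.ne_zero heo.pos.ne', hJp, hJe, mul_one]
    refine ⟨U, ?_, Or.inl (by omega), ?_⟩
    · have h16 : Nat.Coprime U 16 := by
        have : Odd U := Nat.odd_iff.mpr (by omega)
        exact Nat.Coprime.pow_right 4 (Nat.coprime_two_right.mpr this)
      refine Nat.Coprime.mul_right h16 ?_
      have : jacobiSym (U : ℤ) (p * e) ≠ 0 := by rw [hJ]; norm_num
      by_contra hnc
      apply this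
      rw [jacobiSym.eq_zero_iff]
      refine ⟨hd.ne_zero, ?_⟩
      intro hg
      apply hnc
      rw [Nat.Coprime, ← hg]
      rfl
    · unfold fv
      rw [if_pos (Or.inl (by omega))]
      have h1 : nn U = 0 := by unfold nn; rw [if_neg (by omega)]
      have h2 : lam U = 0 := by unfold lam; rw [if_neg (by omega)]
      rw [h1, h2, hJ]
      simp [sg]

open Classical in
/-- the weight of a class -/
noncomputable def gv (d : ℕ) (i j : ZMod 2) (b : ZMod (16 * d)) : ℝ :=
  if IsUnit b then fv d i j b.val else 0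

lemma sum_gv {d : ℕ} (hd : F1 d) (i j : ZMod 2) (h : ¬ (d = 1 ∧ i = 0 ∧ j = 0)) [NeZero (16 * d)] :
    ∑ b : ZMod (16 * d), gv d i j b = 0 := by
  obtain ⟨U, hUc, hU8, hfU⟩ := exists_U hd i j h
  have hUu : IsUnit ((U : ℕ) : ZMod (16 * d)) := (ZMod.isUnit_iff_coprime U (16 * d)).mpr hUc
  obtain ⟨u, hu⟩ := hUu
  have h1 : ∑ b : ZMod (16 * d), gv d i j b = ∑ b : ZMod (16 * d), gv d i j (u * b) :=
    (Equiv.sum_comp (Units.mulLeft u) (gv d i j)).symm
  have h2 : ∀ b : ZMod (16 * d), gv d i j (u * b) = - gv d i j b := by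
    intro b
    by_cases hb : IsUnit b
    · have hb' : IsUnit ((u : ZMod (16 * d)) * b) := (Units.isUnit_units_mul u b).mpr hb
      have : ((u : ZMod (16 * d)) * b).val = (U * b.val) % (16 * d) := by
        rw [ZMod.val_mul, hu, ZMod.val_natCast, Nat.mod_mul_mod]
      unfold gv
      rw [if_pos hb, if_pos hb', this, fv_mod, fv_mul d i j hU8, hfU]
      ring
    · have hb' : ¬ IsUnit ((u : ZMod (16 * d)) * b) := fun h' =>
        hb ((Units.isUnit_units_mul u b).mp h')
      unfold gv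
      rw [if_neg hb, if_neg hb', neg_zero]
  rw [Finset.sum_congr rfl fun b _ => h2 b, Finset.sum_neg_distrib] at h1
  linarith

lemma SS_eq_sum {d : ℕ} (hd : F1 d) (i j : ZMod 2) [NeZero (16 * d)] (x : ℕ) :
    SS (pr 0 x) (fun _ => 1) d i j
      = ∑ b : ZMod (16 * d), gv d i j b * PNTAP.piC b (x : ℝ) := by
  have h1 : ∀ b : ZMod (16 * d), gv d i j b * PNTAP.piC b (x : ℝ)
      = ∑ q ∈ (Ioc 0 x).filter Nat.Prime, if ((q : ℕ) : ZMod (16 * d)) = b then gv d i j q else 0 := by
    intro b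
    unfold PNTAP.piC PNTAP.primesC
    rw [Nat.floor_natCast, ← Finset.sum_filter, Finset.filter_filter]
    rw [Finset.sum_congr rfl (g := fun _ => gv d i j b), Finset.sum_const, nsmul_eq_mul, mul_comm]
    intro q hq
    rw [mem_filter] at hq
    rw [hq.2.2]
  rw [Finset.sum_congr rfl fun b _ => h1 b, Finset.sum_comm]
  have h2 : ∀ q ∈ (Ioc 0 x).filter Nat.Prime,
      (∑ b : ZMod (16 * d), if ((q : ℕ) : ZMod (16 * d)) = b then gv d i j q else 0)
        = if P8 q then (1 : ℝ) * (jacobiSym (q : ℤ) d : ℝ) * sg (i * nn q + j * lam q) else 0 := by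
    intro q hq
    rw [Finset.sum_ite_eq]
    simp only [mem_univ, if_true]
    rw [mem_filter] at hq
    have hqp := hq.2
    unfold gv
    by_cases hu : IsUnit ((q : ℕ) : ZMod (16 * d))
    · rw [if_pos hu, ZMod.val_natCast, fv_mod]
      unfold fv P8
      by_cases h8 : q % 8 = 1 ∨ q % 8 = 7
      · rw [if_pos h8, if_pos ⟨hqp, h8⟩, one_mul]
      · rw [if_neg h8, if_neg (fun h => h8 h.2)]
    · rw [if_neg hu]
      by_cases hP : P8 q
      · rw [if_pos hP]
        have hnc : ¬ Nat.Coprime q (16 * d) := fun h => hu ((ZMod.isUnit_iff_coprime q (16 * d)).mpr h)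
        have hc16 : Nat.Coprime q 16 :=
          Nat.Coprime.pow_right 4 (Nat.coprime_two_right.mpr hP.odd)
        have hncd : ¬ Nat.Coprime q d := fun h => hnc (Nat.Coprime.mul_right hc16 h)
        have : jacobiSym (q : ℤ) d = 0 := by
          rw [jacobiSym.eq_zero_iff]
          refine ⟨hd.ne_zero, fun hg => hncd ?_⟩
          rw [Nat.Coprime, ← hg]
          rfl
        rw [this]; simp
      · rw [if_neg hP]
  rw [Finset.sum_congr rfl h2, ← Finset.sum_filter, Finset.filter_filter]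
  unfold SS pr
  refine Finset.sum_congr ?_ fun _ _ => rfl
  ext q
  simp only [mem_filter]
  constructor
  · rintro ⟨h, h'⟩
    exact ⟨h, h'.1, h'⟩
  · rintro ⟨h, _, h'⟩
    exact ⟨h, h'⟩

/-- **fixed modulus** -/
theorem SS_fixed {d : ℕ} (hd : F1 d) (i j : ZMod 2) (h : ¬ (d = 1 ∧ i = 0 ∧ j = 0)) :
    Tendsto (fun x : ℕ => SS (pr 0 x) (fun _ => 1) d i j * Real.log x / x) atTop (𝓝 0) := by
  have : NeZero (16 * d) := ⟨by have := hd.ne_zero; omega⟩
  have h1 : ∀ b : ZMod (16 * d), Tendsto (fun x : ℕ => gv d i j b * (PNTAP.piC b (x : ℝ) *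
      Real.log x / x)) atTop (𝓝 (gv d i j b * (((16 * d).totient : ℝ)⁻¹))) := by
    intro b
    by_cases hb : IsUnit b
    · exact ((PNTAP.tendsto_primeCounting_class hb).comp tendsto_natCast_atTop_atTop).const_mul _
    · have : gv d i j b = 0 := by unfold gv; rw [if_neg hb]
      rw [this]; simp
  have h2 := tendsto_finsetSum (univ : Finset (ZMod (16 * d))) fun b _ => h1 b
  rw [← Finset.sum_mul, sum_gv hd i j h, zero_mul] at h2
  refine h2.congr fun x => ?_
  rw [SS_eq_sum hd i j x, Finset.sum_mul, Finset.sum_div]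
  refine Finset.sum_congr rfl fun b _ => ?_
  ring

end Pool.Agent.TLW
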