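import Mathlib
import Pool.Agent.TLW.Defs
import Pool.Agent.TLW.L2a
import Pool.Agent.TLW.L2b
import Pool.Agent.TLW.L2c

set_option autoImplicit false

/-!
# S6 / L2: weighted second moment of all the character sums of the primes up to `x`

`∑_{d ≤ x^A, d ∈ F1} ∑_{i, j} d^(b-1) SS(x; d, i, j)^2 = o((x / log x)^2)`, the trivial triple `(1, 0, 0)` left out,
for some `b = b(A) > 0`.
-/

namespace Pool.Agent.TLW

open Finset Filter Topology

/-- the trivial character -/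
def triv (d : ℕ) (i j : ZMod 2) : Prop := d = 1 ∧ i = 0 ∧ j = 0

instance (d : ℕ) (i j : ZMod 2) : Decidable (triv d i j) := inferInstanceAs (Decidable (_ ∧ _))

/-- one triple: `o((x/log x)^2)` -/
lemma L2_one {d : ℕ} (hd : F1 d) (i j : ZMod 2) (h : ¬ triv d i j) {ε : ℝ} (hε : 0 < ε) :
    ∀ᶠ x : ℕ in atTop, (SS (pr 0 x) (fun _ => 1) d i j) ^ 2 ≤ ε * (x / Real.log x) ^ 2 := by
  have h1 := (SS_fixed hd i j h).pow 2
  rw [zero_pow (by norm_num)] at h1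
  filter_upwards [h1.eventually_le_const hε, eventually_gt_atTop 1] with x hx hx1
  have hx0 : (0 : ℝ) < x := by exact_mod_cast (by omega : 0 < x)
  have hl : 0 < Real.log x := Real.log_pos (by exact_mod_cast hx1)
  have e : (SS (pr 0 x) (fun _ => 1) d i j) ^ 2
      = (SS (pr 0 x) (fun _ => 1) d i j * Real.log x / x) ^ 2 * (x / Real.log x) ^ 2 := by
    field_simp
  rw [e]
  gcongr

/-- the weighted sum -/
noncomputable def WS (b : ℝ) (x D : ℕ) : ℝ :=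
  ∑ d ∈ FF D, ∑ i : ZMod 2, ∑ j : ZMod 2,
    if triv d i j then 0 else (d : ℝ) ^ (b - 1) * (SS (pr 0 x) (fun _ => 1) d i j) ^ 2

lemma mem_FF {D d : ℕ} : d ∈ FF D ↔ (1 ≤ d ∧ d ≤ D) ∧ F1 d := by
  rw [FF, mem_filter, mem_Icc]

/-- bounded conductors -/
lemma L2_bounded (b : ℝ) (D : ℕ) {ε : ℝ} (hε : 0 < ε) :
    ∀ᶠ x : ℕ in atTop, WS b x D ≤ ε * (x / Real.log x) ^ 2 := by
  set N : ℝ := ∑ d ∈ FF D, ∑ i : ZMod 2, ∑ j : ZMod 2, (d : ℝ) ^ (b - 1) with hN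
  have hN0 : 0 ≤ N := by positivity
  have h1 : ∀ d ∈ FF D, ∀ᶠ x : ℕ in atTop, ∀ i j : ZMod 2, ¬ triv d i j →
      (SS (pr 0 x) (fun _ => 1) d i j) ^ 2 ≤ (ε / (N + 1)) * (x / Real.log x) ^ 2 := by
    intro d hd
    rw [eventually_all]
    intro i
    rw [eventually_all]
    intro j
    by_cases h : triv d i j
    · exact Eventually.of_forall fun x h' => absurd h h'
    · filter_upwards [L2_one (mem_FF.mp hd).2 i j h (show 0 < ε / (N + 1) by positivity)] with x hx _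
      exact hx
  have h2 := (Filter.eventually_all_finset (FF D)).mpr h1
  filter_upwards [h2] with x hx
  have h3 : WS b x D ≤ ∑ d ∈ FF D, ∑ i : ZMod 2, ∑ j : ZMod 2,
      (d : ℝ) ^ (b - 1) * ((ε / (N + 1)) * (x / Real.log x) ^ 2) := by
    unfold WS
    refine Finset.sum_le_sum fun d hd => Finset.sum_le_sum fun i _ => Finset.sum_le_sum fun j _ => ?_
    split_ifs with h
    · positivity
    · exact mul_le_mul_of_nonneg_left (hx d hd i j h) (by positivity)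
  refine h3.trans ?_
  simp_rw [← Finset.sum_mul]
  rw [← hN]
  have : N * (ε / (N + 1) * (x / Real.log x) ^ 2) = (N / (N + 1)) * (ε * (x / Real.log x) ^ 2) := by
    field_simp
  rw [this]
  have h4 : N / (N + 1) ≤ 1 := by
    rw [div_le_one (by linarith)]; linarith
  have h5 : 0 ≤ ε * ((x : ℝ) / Real.log x) ^ 2 := by positivity
  calc N / (N + 1) * (ε * (x / Real.log x) ^ 2) ≤ 1 * (ε * (x / Real.log x) ^ 2) := by gcongr
    _ = _ := one_mul _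

/-- splitting at `D0` -/
lemma WS_split_le {b : ℝ} (hb : b ≤ 1 / 2) {B : ℝ} {x D0 D1 : ℕ} (hD0 : 1 ≤ D0) (hD : D0 ≤ D1)
    (hB : ∀ i j : ZMod 2, ∑ d ∈ FF D1, (SS (pr 0 x) (fun _ => 1) d i j) ^ 2 ≤ B) :
    WS b x D1 ≤ WS b x D0 + 4 * ((D0 : ℝ) ^ (-(1 / 2 : ℝ)) * B) := by
  have hsub : FF D0 ⊆ FF D1 := by
    intro d hd
    rw [mem_FF] at hd ⊢
    exact ⟨⟨hd.1.1, hd.1.2.trans hD⟩, hd.2⟩
  unfold WS
  rw [← Finset.sum_sdiff hsub, add_comm]
  gcongr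
  have h1 : ∀ d ∈ FF D1 \ FF D0, ∑ i : ZMod 2, ∑ j : ZMod 2,
      (if triv d i j then 0 else (d : ℝ) ^ (b - 1) * (SS (pr 0 x) (fun _ => 1) d i j) ^ 2)
      ≤ ∑ i : ZMod 2, ∑ j : ZMod 2,
        (D0 : ℝ) ^ (-(1 / 2 : ℝ)) * (SS (pr 0 x) (fun _ => 1) d i j) ^ 2 := by
    intro d hd
    rw [Finset.mem_sdiff, mem_FF, mem_FF] at hd
    have hd0 : D0 < d := by
      by_contra h
      exact hd.2 ⟨⟨hd.1.1.1, by omega⟩, hd.1.2⟩
    refine Finset.sum_le_sum fun i _ => Finset.sum_le_sum fun j _ => ?_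
    have hw : (d : ℝ) ^ (b - 1) ≤ (D0 : ℝ) ^ (-(1 / 2 : ℝ)) := by
      have hD0' : (1 : ℝ) ≤ D0 := by exact_mod_cast hD0
      have hd' : (D0 : ℝ) ≤ d := by exact_mod_cast hd0.le
      calc (d : ℝ) ^ (b - 1) ≤ (d : ℝ) ^ (-(1 / 2 : ℝ)) :=
            Real.rpow_le_rpow_of_exponent_le (hD0'.trans hd') (by linarith)
        _ ≤ _ := Real.rpow_le_rpow_of_nonpos (by linarith) hd' (by norm_num)
    split_ifs
    · positivity
    · gcongr
  refine (Finset.sum_le_sum h1).trans ?_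
  rw [Finset.sum_comm]
  have h2 : ∀ i : ZMod 2, ∑ d ∈ FF D1 \ FF D0, ∑ j : ZMod 2,
      (D0 : ℝ) ^ (-(1 / 2 : ℝ)) * (SS (pr 0 x) (fun _ => 1) d i j) ^ 2
      ≤ 2 * ((D0 : ℝ) ^ (-(1 / 2 : ℝ)) * B) := by
    intro i
    rw [Finset.sum_comm]
    have h3 : ∀ j : ZMod 2, ∑ d ∈ FF D1 \ FF D0,
        (D0 : ℝ) ^ (-(1 / 2 : ℝ)) * (SS (pr 0 x) (fun _ => 1) d i j) ^ 2
        ≤ (D0 : ℝ) ^ (-(1 / 2 : ℝ)) * B := by
      intro j
      rw [← Finset.mul_sum]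
      gcongr
      refine le_trans ?_ (hB i j)
      exact Finset.sum_le_sum_of_subset_of_nonneg Finset.sdiff_subset fun _ _ _ => sq_nonneg _
    refine (Finset.sum_le_sum fun j _ => h3 j).trans ?_
    rw [Finset.sum_const, Finset.card_univ, ZMod.card, nsmul_eq_mul]
    norm_num
  refine (Finset.sum_le_sum fun i _ => h2 i).trans ?_
  rw [Finset.sum_const, Finset.card_univ, ZMod.card, nsmul_eq_mul]
  norm_num
  linarith

/-- Hölder for large conductors -/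
lemma L2_high (A : ℕ) (hA : 1 ≤ A) : ∃ C : ℝ, 0 < C ∧ ∀ᶠ x : ℕ in atTop, ∀ T : Finset ℕ,
    T ⊆ FF (x ^ A) → (∀ d ∈ T, (x : ℝ) ^ (1 / 20 : ℝ) ≤ d) → ∀ i j : ZMod 2,
    ∑ d ∈ T, (d : ℝ) ^ (1 / (4 * (3 * A + 1)) - 1 : ℝ) * (SS (pr 0 x) (fun _ => 1) d i j) ^ 2
      ≤ C * (x : ℝ) ^ (-(1 / (4 * (3 * A + 1)) / 20) : ℝ) * (x ^ 2 / Real.log x) := by
  set K : ℕ := 3 * A + 1 with hK
  have hK4 : 4 ≤ K := by omega
  have hKr : (4 : ℝ) ≤ K := by exact_mod_cast hK4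
  have hKc : ((3 : ℝ) * A + 1) = K := by rw [hK]; push_cast; ring
  set a : ℝ := (K - 1 / 2) / (K - 1) with ha
  have ha1 : 1 < a := by
    rw [ha, lt_div_iff₀ (by linarith)]; linarith
  set Z : ℝ := ∑' d : ℕ, (d : ℝ) ^ (-a) with hZ
  have hsum : Summable fun d : ℕ => (d : ℝ) ^ (-a) := Real.summable_nat_rpow.mpr (by linarith)
  have hZ0 : 0 ≤ Z := tsum_nonneg fun d => by positivity
  have hconj : (K / (K - 1) : ℝ).HolderConjugate K := by
    rw [Real.holderConjugate_iff]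
    constructor
    · rw [lt_div_iff₀ (by linarith)]; linarith
    · field_simp; ring
  refine ⟨(Z ^ (1 / (K / (K - 1) : ℝ)) + 1) * (10 * (2 * K)), by positivity, ?_⟩
  filter_upwards [L2_moment A, eventually_gt_atTop 1] with x hx hx1 T hT hTd i j
  have hx0 : (0 : ℝ) < x := by exact_mod_cast (by omega : 0 < x)
  have hl : 0 < Real.log x := Real.log_pos (by exact_mod_cast hx1)
  rw [hKc]
  set b : ℝ := 1 / (4 * K) with hb
  have hb0 : 0 < b := by positivity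
  -- first step
  have h1 : ∀ d ∈ T, (d : ℝ) ^ (b - 1) * (SS (pr 0 x) (fun _ => 1) d i j) ^ 2
      ≤ (x : ℝ) ^ (-(b / 20)) * ((d : ℝ) ^ (2 * b - 1) * (SS (pr 0 x) (fun _ => 1) d i j) ^ 2) := by
    intro d hd
    have hd1 : 0 < d := by
      have := (mem_FF.mp (hT hd)).1.1
      omega
    have hd0 : (0 : ℝ) < d := by exact_mod_cast hd1
    have e : (d : ℝ) ^ (b - 1) = (d : ℝ) ^ (-b) * (d : ℝ) ^ (2 * b - 1) := by
      rw [← Real.rpow_add hd0]; congr 1; ring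
    have h2 : (d : ℝ) ^ (-b) ≤ (x : ℝ) ^ (-(b / 20)) := by
      calc (d : ℝ) ^ (-b) ≤ ((x : ℝ) ^ (1 / 20 : ℝ)) ^ (-b) :=
            Real.rpow_le_rpow_of_nonpos (by positivity) (hTd d hd) (by linarith)
        _ = _ := by rw [← Real.rpow_mul hx0.le]; congr 1; ring
    rw [e, mul_assoc]
    gcongr
  refine (Finset.sum_le_sum h1).trans ?_
  rw [← Finset.mul_sum]
  -- Hölder
  have h3 := Real.inner_le_Lp_mul_Lq T (fun d : ℕ => (d : ℝ) ^ (2 * b - 1))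
    (fun d => (SS (pr 0 x) (fun _ => 1) d i j) ^ 2) hconj
  have h4 : ∑ d ∈ T, |(d : ℝ) ^ (2 * b - 1)| ^ (K / (K - 1) : ℝ) ≤ Z := by
    have h5 : ∀ d ∈ T, |(d : ℝ) ^ (2 * b - 1)| ^ (K / (K - 1) : ℝ) = (d : ℝ) ^ (-a) := by
      intro d _
      rw [abs_of_nonneg (by positivity), ← Real.rpow_mul (by positivity)]
      congr 1
      rw [hb, ha]
      field_simp
      ring
    rw [Finset.sum_congr rfl h5]
    exact hsum.sum_le_tsum T fun d _ => by positivity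
  have h6 : ∑ d ∈ T, |(SS (pr 0 x) (fun _ => 1) d i j) ^ 2| ^ (K : ℝ)
      ≤ 10 * ((K : ℕ) * (2 * (x / Real.log x)) * x) ^ K := by
    refine le_trans ?_ (hx i j)
    have h7 : ∀ d ∈ T, |(SS (pr 0 x) (fun _ => 1) d i j) ^ 2| ^ (K : ℝ)
        = (SS (pr 0 x) (fun _ => 1) d i j) ^ (2 * K) := by
      intro d _
      rw [abs_of_nonneg (sq_nonneg _), Real.rpow_natCast, ← pow_mul]
    rw [Finset.sum_congr rfl h7]
    refine Finset.sum_le_sum_of_subset_of_nonneg hT fun d _ _ => ?_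
    exact Even.pow_nonneg ⟨K, by ring⟩ _
  have h8 : (∑ d ∈ T, |(SS (pr 0 x) (fun _ => 1) d i j) ^ 2| ^ (K : ℝ)) ^ (1 / (K : ℝ))
      ≤ 10 * ((K : ℝ) * (2 * (x / Real.log x)) * x) := by
    have hy : 0 ≤ (K : ℝ) * (2 * (x / Real.log x)) * x := by positivity
    calc (∑ d ∈ T, |(SS (pr 0 x) (fun _ => 1) d i j) ^ 2| ^ (K : ℝ)) ^ (1 / (K : ℝ))
        ≤ (10 * ((K : ℕ) * (2 * (x / Real.log x)) * x) ^ K) ^ (1 / (K : ℝ)) := by
          refine Real.rpow_le_rpow ?_ h6 (by positivity)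
          positivity
      _ = (10 : ℝ) ^ (1 / (K : ℝ)) * ((K : ℝ) * (2 * (x / Real.log x)) * x) := by
          rw [Real.mul_rpow (by norm_num) (by positivity), one_div,
            Real.pow_rpow_inv_natCast hy (by omega)]
      _ ≤ (10 : ℝ) ^ (1 : ℝ) * ((K : ℝ) * (2 * (x / Real.log x)) * x) := by
          gcongr
          · norm_num
          · rw [div_le_one (by linarith)]; linarith
      _ = _ := by rw [Real.rpow_one]
  have h9 : (∑ d ∈ T, |(d : ℝ) ^ (2 * b - 1)| ^ (K / (K - 1) : ℝ)) ^ (1 / (K / (K - 1) : ℝ))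
      ≤ Z ^ (1 / (K / (K - 1) : ℝ)) + 1 := by
    have : (∑ d ∈ T, |(d : ℝ) ^ (2 * b - 1)| ^ (K / (K - 1) : ℝ)) ^ (1 / (K / (K - 1) : ℝ))
      ≤ Z ^ (1 / (K / (K - 1) : ℝ)) := by
      refine Real.rpow_le_rpow (by positivity) h4 ?_
      have : (0 : ℝ) < K - 1 := by linarith
      positivity
    linarith
  calc (x : ℝ) ^ (-(b / 20)) * ∑ d ∈ T, (d : ℝ) ^ (2 * b - 1) * (SS (pr 0 x) (fun _ => 1) d i j) ^ 2
      ≤ (x : ℝ) ^ (-(b / 20)) * ((Z ^ (1 / (K / (K - 1) : ℝ)) + 1) *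
          (10 * ((K : ℝ) * (2 * (x / Real.log x)) * x))) := by
        gcongr
        refine h3.trans ?_
        gcongr
    _ = _ := by
        field_simp

/-- **L2.** -/
theorem L2_main (A : ℕ) : ∃ b : ℝ, 0 < b ∧ b ≤ 1 / 2 ∧ ∀ ε : ℝ, 0 < ε → ∀ᶠ x : ℕ in atTop,
    WS b x (x ^ A) ≤ ε * (x / Real.log x) ^ 2 := by
  obtain ⟨C, hC, hhigh⟩ := L2_high (A + 1) (by omega)
  obtain ⟨C1, hC1, hlarge⟩ := L2_large
  set b : ℝ := 1 / (4 * (3 * ((A + 1 : ℕ) : ℝ) + 1)) with hb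
  have hA0 : (0 : ℝ) ≤ ((A + 1 : ℕ) : ℝ) := by positivity
  have hb0 : 0 < b := by positivity
  have hb1 : b ≤ 1 / 2 := by
    rw [hb, div_le_div_iff₀ (by positivity) (by norm_num)]
    linarith
  refine ⟨b, hb0, hb1, fun ε hε => ?_⟩
  -- choice of D0
  have hD0 : ∃ D0 : ℕ, 1 ≤ D0 ∧ 4 * ((D0 : ℝ) ^ (-(1 / 2 : ℝ)) * C1) ≤ ε / 3 := by
    have h1 : Tendsto (fun n : ℕ => 4 * ((n : ℝ) ^ (-(1 / 2 : ℝ)) * C1)) atTop (𝓝 (4 * (0 * C1))) := by
      refine ((Tendsto.mul_const C1 ?_)).const_mul 4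
      exact (tendsto_rpow_neg_atTop (by norm_num : (0 : ℝ) < 1 / 2)).comp
        tendsto_natCast_atTop_atTop
    have h2 : (4 * (0 * C1) : ℝ) < ε / 3 := by
      rw [zero_mul, mul_zero]; positivity
    obtain ⟨D0, h3, h4⟩ := ((h1.eventually_le_const h2).and (eventually_ge_atTop 1)).exists
    exact ⟨D0, h4, h3⟩
  obtain ⟨D0, hD01, hD0ε⟩ := hD0
  have hX : ∀ᶠ x : ℕ in atTop, 4 * C * (x : ℝ) ^ (-(b / 20)) * Real.log x ≤ ε / 3 := by
    have h1 : (fun x : ℝ => Real.log x) =o[atTop] fun x : ℝ => x ^ (b / 20) :=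
      isLittleO_log_rpow_atTop (by positivity)
    have h2 := (h1.def (show (0 : ℝ) < ε / 3 / (4 * C) by positivity)).natCast_atTop
    filter_upwards [h2, eventually_gt_atTop 1] with x hx hx1
    have hx0 : (0 : ℝ) < x := by exact_mod_cast (by omega : 0 < x)
    have hl : 0 < Real.log x := Real.log_pos (by exact_mod_cast hx1)
    rw [Real.norm_eq_abs, Real.norm_eq_abs, abs_of_pos hl, abs_of_pos (by positivity)] at hx
    calc 4 * C * (x : ℝ) ^ (-(b / 20)) * Real.log x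
        ≤ 4 * C * (x : ℝ) ^ (-(b / 20)) * (ε / 3 / (4 * C) * (x : ℝ) ^ (b / 20)) := by gcongr
      _ = ε / 3 * ((x : ℝ) ^ (-(b / 20)) * (x : ℝ) ^ (b / 20)) := by field_simp
      _ = ε / 3 := by rw [← Real.rpow_add hx0]; simp
  have hbig : ∀ᶠ x : ℕ in atTop, D0 ^ 20 ≤ x := eventually_ge_atTop _
  filter_upwards [hhigh, hlarge, hX, hbig, L2_bounded b D0 (show 0 < ε / 3 by positivity),
    eventually_gt_atTop 1] with x hh hla hX hbig hbd hx1
  have hx0 : (0 : ℝ) < x := by exact_mod_cast (by omega : 0 < x)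
  have hl : 0 < Real.log x := Real.log_pos (by exact_mod_cast hx1)
  -- D1
  set D1 : ℕ := ⌊(x : ℝ) ^ (1 / 20 : ℝ)⌋₊ with hD1
  have hD1le : (D1 : ℝ) ≤ (x : ℝ) ^ (1 / 20 : ℝ) := Nat.floor_le (by positivity)
  have hD1ge : (x : ℝ) ^ (1 / 20 : ℝ) < D1 + 1 := Nat.lt_floor_add_one _
  have hD1p : D1 ^ 20 ≤ x := by
    have h20 : ((x : ℝ) ^ (1 / 20 : ℝ)) ^ (20 : ℕ) = (x : ℝ) := by
      rw [← Real.rpow_natCast, ← Real.rpow_mul hx0.le]; norm_num
    have h21 : (D1 : ℝ) ^ (20 : ℕ) ≤ ((x : ℝ) ^ (1 / 20 : ℝ)) ^ (20 : ℕ) := by gcongr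
    rw [h20] at h21
    exact_mod_cast h21
  have hD01 : D0 ≤ D1 := by
    refine Nat.le_floor ?_
    have : ((D0 : ℝ) ^ 20) ≤ x := by exact_mod_cast hbig
    calc (D0 : ℝ) = ((D0 : ℝ) ^ 20) ^ (1 / 20 : ℝ) := by
          rw [← Real.rpow_natCast, ← Real.rpow_mul (by positivity)]; norm_num
      _ ≤ _ := Real.rpow_le_rpow (by positivity) this (by norm_num)
  have h1 := WS_split_le (b := b) hb1 (x := x) (D0 := D0) (D1 := D1)
    (B := C1 * (x / Real.log x) ^ 2) (by assumption) hD01 (fun i j => hla D1 hD1p i j)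
  -- the high part
  set T := FF (x ^ A) \ FF D1 with hT
  have hTsub : T ⊆ FF (x ^ (A + 1)) := by
    intro d hd
    have := (Finset.mem_sdiff.mp hd).1
    rw [mem_FF] at this ⊢
    refine ⟨⟨this.1.1, this.1.2.trans ?_⟩, this.2⟩
    exact Nat.pow_le_pow_right (by omega) (by omega)
  have hTd : ∀ d ∈ T, (x : ℝ) ^ (1 / 20 : ℝ) ≤ d := by
    intro d hd
    rw [hT, Finset.mem_sdiff, mem_FF, mem_FF] at hd
    have : D1 + 1 ≤ d := by
      by_contra h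
      exact hd.2 ⟨⟨hd.1.1.1, by omega⟩, hd.1.2⟩
    have : ((D1 : ℝ) + 1) ≤ d := by exact_mod_cast this
    linarith
  have h2 : WS b x (x ^ A) ≤ WS b x D1 + ∑ d ∈ T, ∑ i : ZMod 2, ∑ j : ZMod 2,
      (d : ℝ) ^ (b - 1) * (SS (pr 0 x) (fun _ => 1) d i j) ^ 2 := by
    have hsub : FF (x ^ A) ⊆ FF D1 ∪ T := by
      intro d hd
      by_cases h : d ∈ FF D1
      · exact Finset.mem_union_left _ h
      · exact Finset.mem_union_right _ (Finset.mem_sdiff.mpr ⟨hd, h⟩)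
    unfold WS
    refine (Finset.sum_le_sum_of_subset_of_nonneg hsub fun d _ _ => ?_).trans ?_
    · refine Finset.sum_nonneg fun i _ => Finset.sum_nonneg fun j _ => ?_
      split_ifs
      · exact le_rfl
      · positivity
    · rw [Finset.sum_union Finset.disjoint_sdiff.symm.symm]
      gcongr with d hd i _ j _
      split_ifs
      · positivity
      · exact le_rfl
  have h3 : ∑ d ∈ T, ∑ i : ZMod 2, ∑ j : ZMod 2,
      (d : ℝ) ^ (b - 1) * (SS (pr 0 x) (fun _ => 1) d i j) ^ 2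
      ≤ ε / 3 * (x / Real.log x) ^ 2 := by
    rw [Finset.sum_comm]
    have h4 : ∀ i : ZMod 2, ∑ d ∈ T, ∑ j : ZMod 2,
        (d : ℝ) ^ (b - 1) * (SS (pr 0 x) (fun _ => 1) d i j) ^ 2
        ≤ 2 * (C * (x : ℝ) ^ (-(b / 20)) * (x ^ 2 / Real.log x)) := by
      intro i
      rw [Finset.sum_comm]
      have h5 : ∀ j : ZMod 2, ∑ d ∈ T,
          (d : ℝ) ^ (b - 1) * (SS (pr 0 x) (fun _ => 1) d i j) ^ 2
          ≤ C * (x : ℝ) ^ (-(b / 20)) * (x ^ 2 / Real.log x) := fun j => hh T hTsub hTd i j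
      refine (Finset.sum_le_sum fun j _ => h5 j).trans ?_
      rw [Finset.sum_const, Finset.card_univ, ZMod.card, nsmul_eq_mul]
      norm_num
    refine (Finset.sum_le_sum fun i _ => h4 i).trans ?_
    rw [Finset.sum_const, Finset.card_univ, ZMod.card, nsmul_eq_mul]
    calc ((2 : ℕ) : ℝ) * (2 * (C * (x : ℝ) ^ (-(b / 20)) * (x ^ 2 / Real.log x)))
        = (4 * C * (x : ℝ) ^ (-(b / 20)) * Real.log x) * (x / Real.log x) ^ 2 := by
          field_simp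
          push_cast
          ring
      _ ≤ ε / 3 * (x / Real.log x) ^ 2 := by gcongr
  have h6 : 4 * ((D0 : ℝ) ^ (-(1 / 2 : ℝ)) * (C1 * (x / Real.log x) ^ 2))
      ≤ ε / 3 * (x / Real.log x) ^ 2 := by
    calc 4 * ((D0 : ℝ) ^ (-(1 / 2 : ℝ)) * (C1 * (x / Real.log x) ^ 2))
        = (4 * ((D0 : ℝ) ^ (-(1 / 2 : ℝ)) * C1)) * (x / Real.log x) ^ 2 := by ring
      _ ≤ _ := by gcongr
  linarith

end Pool.Agent.TLW
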