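import Pool.Agent.TLW.RegA

set_option autoImplicit false

/-! sum of reciprocals over `(Y, Y^2]` -/

namespace Pool.Agent.TLW

open Finset Filter Topology

lemma pr_succ {y z : ℕ} (hyz : y ≤ z) (g : ℕ → ℝ) :
    ∑ p ∈ pr y (z + 1), g p = ∑ p ∈ pr y z, g p + if P8 (z + 1) then g (z + 1) else 0 := by
  unfold pr
  rw [Finset.sum_filter, Finset.sum_filter, Finset.sum_Ioc_succ_top hyz]

lemma pr_card_succ (z : ℕ) :
    ((pr 0 (z + 1)).card : ℝ) = (pr 0 z).card + if P8 (z + 1) then 1 else 0 := by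
  have := pr_succ (Nat.zero_le z) (fun _ => 1)
  simpa using this

/-- Abel summation -/
lemma pr_abel (Y : ℕ) : ∀ Z : ℕ, Y ≤ Z → ∑ p ∈ pr Y Z, 1 / (p : ℝ) =
    ((pr 0 Z).card : ℝ) / (Z + 1) - ((pr 0 Y).card : ℝ) / (Y + 1) +
      ∑ n ∈ Ioc Y Z, ((pr 0 n).card : ℝ) / (n * (n + 1)) := by
  intro Z hZ
  induction Z, hZ using Nat.le_induction with
  | base =>
    have : pr Y Y = ∅ := by
      unfold pr
      rw [Finset.Ioc_self, Finset.filter_empty]
    rw [this, Finset.Ioc_self]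
    simp
  | succ Z hZ ih =>
    rw [pr_succ hZ, ih, Finset.sum_Ioc_succ_top hZ, pr_card_succ Z]
    have h1 : (0 : ℝ) < (Z : ℝ) + 1 := by positivity
    have h2 : (0 : ℝ) < (Z : ℝ) + 2 := by positivity
    push_cast
    split_ifs
    · field_simp
      ring
    · field_simp
      ring

/-- weights -/
noncomputable def wt (n : ℕ) : ℝ := 1 / ((n + 1) * Real.log n)

lemma wt_nonneg (n : ℕ) : 0 ≤ wt n := by
  unfold wt
  have := Real.log_natCast_nonneg n
  positivity

lemma wt_le {n : ℕ} (hn : 3 ≤ n) :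
    wt n ≤ Real.log (Real.log n) - Real.log (Real.log (n - 1 : ℕ)) := by
  have h1 : (3 : ℝ) ≤ n := by exact_mod_cast hn
  have hc : ((n - 1 : ℕ) : ℝ) = n - 1 := by
    rw [Nat.cast_sub (by omega)]
    simp
  rw [hc]
  have hb : 0 < Real.log n := Real.log_pos (by linarith)
  have ha : 0 < Real.log ((n : ℝ) - 1) := Real.log_pos (by linarith)
  have h2 : Real.log (Real.log ((n : ℝ) - 1)) - Real.log (Real.log n) ≤
      Real.log ((n : ℝ) - 1) / Real.log n - 1 := by
    rw [← Real.log_div ha.ne' hb.ne']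
    exact Real.log_le_sub_one_of_pos (by positivity)
  have h3 : Real.log ((n : ℝ) - 1) - Real.log n ≤ ((n : ℝ) - 1) / n - 1 := by
    rw [← Real.log_div (by linarith) (by linarith)]
    exact Real.log_le_sub_one_of_pos (by apply div_pos <;> linarith)
  have h4 : ((n : ℝ) - 1) / n - 1 = - (1 / n) := by
    field_simp
    ring
  rw [h4] at h3
  have h5 : Real.log ((n : ℝ) - 1) / Real.log n - 1 ≤ - (1 / n) / Real.log n := by
    rw [le_div_iff₀ hb, sub_mul, div_mul_cancel₀ _ hb.ne', one_mul]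
    exact h3
  have h6 : wt n ≤ (1 / n) / Real.log n := by
    unfold wt
    rw [div_div]
    apply one_div_le_one_div_of_le (by positivity)
    apply mul_le_mul_of_nonneg_right _ hb.le
    linarith
  rw [neg_div] at h5
  linarith

lemma le_wt {n : ℕ} (hn : 3 ≤ n) :
    (n : ℝ) / (n + 1) * (Real.log (Real.log (n + 1 : ℕ)) - Real.log (Real.log n)) ≤ wt n := by
  have h1 : (3 : ℝ) ≤ n := by exact_mod_cast hn
  push_cast
  have ha : 0 < Real.log n := Real.log_pos (by linarith)
  have hb : 0 < Real.log ((n : ℝ) + 1) := Real.log_pos (by linarith)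
  have h2 : Real.log (Real.log ((n : ℝ) + 1)) - Real.log (Real.log n) ≤
      Real.log ((n : ℝ) + 1) / Real.log n - 1 := by
    rw [← Real.log_div hb.ne' ha.ne']
    exact Real.log_le_sub_one_of_pos (by positivity)
  have h3 : Real.log ((n : ℝ) + 1) - Real.log n ≤ ((n : ℝ) + 1) / n - 1 := by
    rw [← Real.log_div (by linarith) (by linarith)]
    exact Real.log_le_sub_one_of_pos (by positivity)
  have h4 : ((n : ℝ) + 1) / n - 1 = 1 / n := by
    field_simp
    ring
  rw [h4] at h3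
  have h5 : Real.log ((n : ℝ) + 1) / Real.log n - 1 ≤ (1 / n) / Real.log n := by
    rw [le_div_iff₀ ha, sub_mul, div_mul_cancel₀ _ ha.ne', one_mul]
    exact h3
  have h6 : (n : ℝ) / (n + 1) * ((1 / n) / Real.log n) = wt n := by
    unfold wt
    field_simp
  rw [← h6]
  apply mul_le_mul_of_nonneg_left (h2.trans h5)
  positivity

lemma sum_wt_le {Y : ℕ} (hY : 2 ≤ Y) : ∀ Z : ℕ, Y ≤ Z →
    ∑ n ∈ Ioc Y Z, wt n ≤ Real.log (Real.log Z) - Real.log (Real.log Y) := by
  intro Z hZ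
  induction Z, hZ using Nat.le_induction with
  | base => simp
  | succ Z hZ ih =>
    rw [Finset.sum_Ioc_succ_top hZ]
    have := wt_le (n := Z + 1) (by omega)
    rw [Nat.add_sub_cancel] at this
    linarith

lemma le_sum_wt {Y : ℕ} (hY : 2 ≤ Y) : ∀ Z : ℕ, Y ≤ Z →
    (Y : ℝ) / (Y + 1) * (Real.log (Real.log (Z + 1 : ℕ)) - Real.log (Real.log (Y + 1 : ℕ))) ≤
    ∑ n ∈ Ioc Y Z, wt n := by
  intro Z hZ
  induction Z, hZ using Nat.le_induction with
  | base => simp
  | succ Z hZ ih =>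
    rw [Finset.sum_Ioc_succ_top hZ]
    have h1 := le_wt (n := Z + 1) (by omega)
    have hm : Real.log (Real.log (Z + 1 : ℕ)) ≤ Real.log (Real.log (Z + 1 + 1 : ℕ)) := by
      apply Real.log_le_log
      · apply Real.log_pos
        exact_mod_cast (by omega : 1 < Z + 1)
      · apply Real.log_le_log
        · exact_mod_cast (by omega : 0 < Z + 1)
        · exact_mod_cast (by omega : Z + 1 ≤ Z + 1 + 1)
    have h2 : (Y : ℝ) / (Y + 1) ≤ ((Z + 1 : ℕ) : ℝ) / ((Z + 1 : ℕ) + 1) := by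
      rw [div_le_div_iff₀ (by positivity) (by positivity)]
      have : (Y : ℝ) ≤ Z := by exact_mod_cast hZ
      push_cast
      nlinarith
    have h3 : (Y : ℝ) / (Y + 1) *
        (Real.log (Real.log (Z + 1 + 1 : ℕ)) - Real.log (Real.log (Z + 1 : ℕ))) ≤
        ((Z + 1 : ℕ) : ℝ) / ((Z + 1 : ℕ) + 1) *
        (Real.log (Real.log (Z + 1 + 1 : ℕ)) - Real.log (Real.log (Z + 1 : ℕ))) :=
      mul_le_mul_of_nonneg_right h2 (by linarith)
    have h4 : (Y : ℝ) / (Y + 1) *
        (Real.log (Real.log (Z + 1 + 1 : ℕ)) - Real.log (Real.log (Y + 1 : ℕ))) =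
        (Y : ℝ) / (Y + 1) *
        (Real.log (Real.log (Z + 1 : ℕ)) - Real.log (Real.log (Y + 1 : ℕ))) +
        (Y : ℝ) / (Y + 1) *
        (Real.log (Real.log (Z + 1 + 1 : ℕ)) - Real.log (Real.log (Z + 1 : ℕ))) := by ring
    linarith

lemma loglog_sq {Y : ℕ} (hY : 2 ≤ Y) :
    Real.log (Real.log (Y ^ 2 : ℕ)) = Real.log 2 + Real.log (Real.log Y) := by
  have : (2 : ℝ) ≤ Y := by exact_mod_cast hY
  have h1 : 0 < Real.log Y := Real.log_pos (by linarith)
  push_cast
  rw [Real.log_pow, Real.log_mul (by norm_num) h1.ne']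
  norm_num

lemma loglog_diff : Tendsto (fun Y : ℕ => Real.log (Real.log (Y + 1 : ℕ)) -
    Real.log (Real.log Y)) atTop (𝓝 0) := by
  have h0 : Tendsto (fun Y : ℕ => 1 / (Y : ℝ) / Real.log 2) atTop (𝓝 0) := by
    have := (tendsto_one_div_atTop_nhds_zero_nat (𝕜 := ℝ)).div_const (Real.log 2)
    simpa using this
  refine tendsto_of_tendsto_of_tendsto_of_le_of_le' tendsto_const_nhds h0 ?_ ?_
  · filter_upwards [eventually_ge_atTop 2] with Y hY
    have : (2 : ℝ) ≤ Y := by exact_mod_cast hY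
    push_cast
    rw [sub_nonneg]
    apply Real.log_le_log (Real.log_pos (by linarith))
    exact Real.log_le_log (by linarith) (by linarith)
  · filter_upwards [eventually_ge_atTop 2] with Y hY
    have hY' : (2 : ℝ) ≤ Y := by exact_mod_cast hY
    push_cast
    have ha : 0 < Real.log Y := Real.log_pos (by linarith)
    have hb : 0 < Real.log ((Y : ℝ) + 1) := Real.log_pos (by linarith)
    have h2 : Real.log (Real.log ((Y : ℝ) + 1)) - Real.log (Real.log Y) ≤
        Real.log ((Y : ℝ) + 1) / Real.log Y - 1 := by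
      rw [← Real.log_div hb.ne' ha.ne']
      exact Real.log_le_sub_one_of_pos (by positivity)
    have h3 : Real.log ((Y : ℝ) + 1) - Real.log Y ≤ ((Y : ℝ) + 1) / Y - 1 := by
      rw [← Real.log_div (by linarith) (by linarith)]
      exact Real.log_le_sub_one_of_pos (by positivity)
    have h4 : ((Y : ℝ) + 1) / Y - 1 = 1 / Y := by
      field_simp
      ring
    rw [h4] at h3
    have h5 : Real.log ((Y : ℝ) + 1) / Real.log Y - 1 ≤ (1 / Y) / Real.log Y := by
      rw [le_div_iff₀ ha, sub_mul, div_mul_cancel₀ _ ha.ne', one_mul]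
      exact h3
    have h6 : (1 / (Y : ℝ)) / Real.log Y ≤ 1 / (Y : ℝ) / Real.log 2 := by
      apply div_le_div_of_nonneg_left (by positivity) (Real.log_pos (by norm_num))
      exact Real.log_le_log (by norm_num) hY'
    linarith

lemma sum_wt_lim : Tendsto (fun Y : ℕ => ∑ n ∈ Ioc Y (Y ^ 2), wt n) atTop
    (𝓝 (Real.log 2)) := by
  have h1 : Tendsto (fun Y : ℕ => (Y : ℝ) / (Y + 1) * (Real.log 2 -
      (Real.log (Real.log (Y + 1 : ℕ)) - Real.log (Real.log Y)))) atTop
      (𝓝 (1 * (Real.log 2 - 0))) := by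
    apply Tendsto.mul
    · exact tendsto_natCast_div_add_atTop (1 : ℝ)
    · exact tendsto_const_nhds.sub loglog_diff
  rw [one_mul, sub_zero] at h1
  refine tendsto_of_tendsto_of_tendsto_of_le_of_le' h1 tendsto_const_nhds ?_ ?_
  · filter_upwards [eventually_ge_atTop 2] with Y hY
    have hYY : Y ≤ Y ^ 2 := by nlinarith
    have h2 := le_sum_wt hY (Y ^ 2) hYY
    refine le_trans ?_ h2
    apply mul_le_mul_of_nonneg_left _ (by positivity)
    have h3 : Real.log (Real.log (Y ^ 2 : ℕ)) ≤ Real.log (Real.log (Y ^ 2 + 1 : ℕ)) := by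
      have h5 : 4 ≤ Y ^ 2 := by nlinarith
      apply Real.log_le_log
      · apply Real.log_pos
        exact_mod_cast (by omega : 1 < Y ^ 2)
      · apply Real.log_le_log
        · exact_mod_cast (by omega : 0 < Y ^ 2)
        · exact_mod_cast (by omega : Y ^ 2 ≤ Y ^ 2 + 1)
    rw [loglog_sq hY] at h3
    linarith
  · filter_upwards [eventually_ge_atTop 2] with Y hY
    have hYY : Y ≤ Y ^ 2 := by nlinarith
    have h2 := sum_wt_le hY (Y ^ 2) hYY
    rw [loglog_sq hY] at h2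
    linarith

/-- ratio of the count to its size -/
noncomputable def rat (n : ℕ) : ℝ := ((pr 0 n).card : ℝ) / (n / Real.log n)

lemma rat_wt {n : ℕ} (hn : 2 ≤ n) :
    ((pr 0 n).card : ℝ) / (n * (n + 1)) = rat n * wt n := by
  have h1 : (2 : ℝ) ≤ n := by exact_mod_cast hn
  have ha : 0 < Real.log n := Real.log_pos (by linarith)
  unfold rat wt
  field_simp

lemma edge_lim : Tendsto (fun n : ℕ => ((pr 0 n).card : ℝ) / (n + 1)) atTop (𝓝 0) := by
  have h1 : Tendsto (fun n : ℕ => rat n * (Real.log n)⁻¹) atTop (𝓝 (1 / 2 * 0)) := by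
    apply Tendsto.mul pr_count
    exact (Real.tendsto_log_atTop.comp tendsto_natCast_atTop_atTop).inv_tendsto_atTop
  rw [mul_zero] at h1
  refine tendsto_of_tendsto_of_tendsto_of_le_of_le' tendsto_const_nhds h1 ?_ ?_
  · filter_upwards with n
    positivity
  · filter_upwards [eventually_ge_atTop 2] with n hn
    have h2 : (2 : ℝ) ≤ n := by exact_mod_cast hn
    have ha : 0 < Real.log n := Real.log_pos (by linarith)
    have h3 : rat n * (Real.log n)⁻¹ = ((pr 0 n).card : ℝ) / n := by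
      unfold rat
      field_simp
    rw [h3]
    apply div_le_div_of_nonneg_left (by positivity) (by linarith) (by linarith)

theorem pr_sum_sq : Tendsto (fun Y : ℕ => ∑ p ∈ pr Y (Y ^ 2), 1 / (p : ℝ)) atTop
    (𝓝 (Real.log 2 / 2)) := by
  have hsq : Tendsto (fun Y : ℕ => Y ^ 2) atTop atTop :=
    tendsto_pow_atTop (by norm_num)
  have hA : Tendsto (fun Y : ℕ => ((pr 0 (Y ^ 2)).card : ℝ) / ((Y ^ 2 : ℕ) + 1)) atTop (𝓝 0) :=
    edge_lim.comp hsq
  have hB := edge_lim
  have hT := sum_wt_lim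
  -- the error
  have hE : Tendsto (fun Y : ℕ => ∑ n ∈ Ioc Y (Y ^ 2), (rat n - 1 / 2) * wt n) atTop (𝓝 0) := by
    rw [Metric.tendsto_atTop]
    intro ε hε
    obtain ⟨N, hN⟩ := (Metric.tendsto_atTop.1 pr_count) ε hε
    refine ⟨max N 2, fun Y hY => ?_⟩
    have hY2 : 2 ≤ Y := (le_max_right _ _).trans hY
    have hYN : N ≤ Y := (le_max_left _ _).trans hY
    have hYY : Y ≤ Y ^ 2 := by nlinarith
    rw [Real.dist_eq, sub_zero]
    have h1 : |∑ n ∈ Ioc Y (Y ^ 2), (rat n - 1 / 2) * wt n| ≤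
        ∑ n ∈ Ioc Y (Y ^ 2), ε * wt n := by
      refine (Finset.abs_sum_le_sum_abs _ _).trans (Finset.sum_le_sum fun n hn => ?_)
      rw [Finset.mem_Ioc] at hn
      rw [abs_mul, abs_of_nonneg (wt_nonneg n)]
      apply mul_le_mul_of_nonneg_right _ (wt_nonneg n)
      have := hN n (by omega)
      rw [Real.dist_eq] at this
      exact this.le
    have h2 := sum_wt_le hY2 (Y ^ 2) hYY
    rw [loglog_sq hY2] at h2
    rw [← Finset.mul_sum] at h1
    have h3 : Real.log 2 < 1 := by linarith [Real.log_two_lt_d9]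
    have h4 : ε * ∑ n ∈ Ioc Y (Y ^ 2), wt n ≤ ε * Real.log 2 :=
      mul_le_mul_of_nonneg_left (by linarith) hε.le
    nlinarith
  have hsum := ((hA.sub hB).add hE).add (hT.div_const 2)
  simp only [sub_zero, add_zero, zero_add] at hsum
  refine hsum.congr' ?_
  filter_upwards [eventually_ge_atTop 2] with Y hY
  have hYY : Y ≤ Y ^ 2 := by nlinarith
  rw [pr_abel Y (Y ^ 2) hYY]
  have h1 : ∑ n ∈ Ioc Y (Y ^ 2), ((pr 0 n).card : ℝ) / (n * (n + 1)) =
      ∑ n ∈ Ioc Y (Y ^ 2), (rat n - 1 / 2) * wt n + (∑ n ∈ Ioc Y (Y ^ 2), wt n) / 2 := by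
    rw [Finset.sum_div, ← Finset.sum_add_distrib]
    apply Finset.sum_congr rfl
    intro n hn
    rw [Finset.mem_Ioc] at hn
    rw [rat_wt (by omega)]
    ring
  rw [h1]
  ring

end Pool.Agent.TLW
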