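import Pool.Agent.TLW.Defs
import Pool.Agent.TRL.Sgn

set_option autoImplicit false

/-! transfer lemma: Parseval and Cauchy-Schwarz -/

namespace Pool.Agent.TLWT

open Finset Pool.Agent.TLW

/-- points of the group -/
abbrev G (a : ℕ) : Type := (Ix a → ZMod 2) × ZMod 2 × ZMod 2

lemma sg_eq (x : ZMod 2) : sg x = Pool.Agent.TRL.sg x := rfl

lemma sg_add (x y : ZMod 2) : sg (x + y) = sg x * sg y := Pool.Agent.TRL.sg_add x y

lemma sg_zero : sg 0 = 1 := by simp [sg]

lemma sg_one : sg 1 = -1 := by simp [sg]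

/-- characters -/
noncomputable def ch {a : ℕ} (c x : G a) : ℝ :=
  sg (∑ p, c.1 p * x.1 p) * sg (c.2.1 * x.2.1) * sg (c.2.2 * x.2.2)

lemma ch_add {a : ℕ} (c x y : G a) : ch c x * ch c y = ch c (x + y) := by
  unfold ch
  simp only [Prod.fst_add, Prod.snd_add, Pi.add_apply, mul_add, sum_add_distrib, sg_add]
  ring

lemma sum_ch {a : ℕ} (x : G a) : ∑ c : G a, ch c x =
    if x = 0 then (2 : ℝ) ^ (a.primeFactors.card + 2) else 0 := by
  unfold ch
  rw [Fintype.sum_prod_type]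
  simp_rw [Fintype.sum_prod_type]
  have h1 : ∀ v : Ix a → ZMod 2, ∑ i : ZMod 2, ∑ j : ZMod 2,
      sg (∑ p, v p * x.1 p) * sg (i * x.2.1) * sg (j * x.2.2) =
      sg (∑ p, v p * x.1 p) * ((∑ i : ZMod 2, sg (i * x.2.1)) * ∑ j : ZMod 2, sg (j * x.2.2)) := by
    intro v
    rw [Finset.sum_mul_sum, Finset.mul_sum]
    refine sum_congr rfl fun i _ => ?_
    rw [Finset.mul_sum]
    refine sum_congr rfl fun j _ => ?_
    ring
  simp only [h1]
  rw [← Finset.sum_mul]
  have h2 := Pool.Agent.TRL.sum_univ_sg (ι := Ix a) x.1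
  have h3 := Pool.Agent.TRL.sum_sg_mul x.2.1
  have h4 := Pool.Agent.TRL.sum_sg_mul x.2.2
  change (∑ v : Ix a → ZMod 2, Pool.Agent.TRL.sg (∑ p, v p * x.1 p)) *
    ((∑ i : ZMod 2, Pool.Agent.TRL.sg (i * x.2.1)) *
      ∑ j : ZMod 2, Pool.Agent.TRL.sg (j * x.2.2)) = _
  rw [h2, h3, h4]
  have hcard : Fintype.card (Ix a) = a.primeFactors.card := by simp
  rw [hcard]
  by_cases hx : x = 0
  · subst hx
    simp
    ring
  · rw [if_neg hx]
    by_cases ha : ∀ i, x.1 i = 0
    · by_cases hb : x.2.1 = 0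
      · by_cases hc : x.2.2 = 0
        · exfalso
          apply hx
          refine Prod.ext (funext ha) (Prod.ext hb hc)
        · rw [if_neg hc]; ring
      · rw [if_neg hb]; ring
    · rw [if_neg ha]; ring

lemma ch_swap {a : ℕ} (c x : G a) : ch c x = ch x c := by
  unfold ch
  simp only [mul_comm]

/-- Parseval -/
lemma parseval {a : ℕ} (μ : G a → ℝ) : ∑ c : G a, (∑ x : G a, μ x * ch c x) ^ 2 =
    2 ^ (a.primeFactors.card + 2) * ∑ x : G a, μ x ^ 2 := by
  have h1 : ∀ c : G a, (∑ x : G a, μ x * ch c x) ^ 2 =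
      ∑ x : G a, ∑ y : G a, μ x * μ y * ch c (x + y) := by
    intro c
    rw [sq, Finset.sum_mul_sum]
    refine sum_congr rfl fun x _ => sum_congr rfl fun y _ => ?_
    rw [← ch_add]
    ring
  rw [Finset.sum_congr rfl fun c _ => h1 c, Finset.sum_comm, Finset.mul_sum]
  refine sum_congr rfl fun x _ => ?_
  rw [Finset.sum_comm]
  have h2 : ∀ y : G a, ∑ c : G a, μ x * μ y * ch c (x + y) =
      if y = x then μ x ^ 2 * 2 ^ (a.primeFactors.card + 2) else 0 := by
    intro y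
    rw [← Finset.mul_sum, sum_ch]
    have hxy : x + y = 0 ↔ y = x := by
      constructor
      · intro h
        have h3 : x + x = 0 := by
          refine Prod.ext (funext fun p => ?_) (Prod.ext ?_ ?_)
          · exact CharTwo.add_self_eq_zero _
          · exact CharTwo.add_self_eq_zero _
          · exact CharTwo.add_self_eq_zero _
        have h4 : x + y = x + x := by rw [h, h3]
        exact add_left_cancel h4
      · rintro rfl
        refine Prod.ext (funext fun p => ?_) (Prod.ext ?_ ?_)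
        · exact CharTwo.add_self_eq_zero _
        · exact CharTwo.add_self_eq_zero _
        · exact CharTwo.add_self_eq_zero _
    by_cases h : y = x
    · rw [if_pos (hxy.mpr h), if_pos h, h]; ring
    · rw [if_neg (fun h' => h (hxy.mp h')), if_neg h]; ring
  rw [Finset.sum_congr rfl fun y _ => h2 y]
  simp
  ring

/-- the points attached to a prime -/
def X (a q : ℕ) (t : ZMod 2) : G a := (fun p => if (p : ℕ) = q then t else sy p q, nn q, lam q)

lemma X_eq {a q : ℕ} (h : q ∉ a.primeFactors) (t : ZMod 2) : X a q t = (wq a q, nn q, lam q) := by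
  unfold X wq
  refine Prod.ext (funext fun p => ?_) rfl
  have : (p : ℕ) ≠ q := fun h' => h (h' ▸ p.2)
  simp [this]

/-- the divisor attached to a vector -/
def dvS {a : ℕ} (v : Ix a → ZMod 2) : Finset ℕ :=
  (univ.filter fun p : Ix a => v p = 1).map (Function.Embedding.subtype _)

/-- the divisor attached to a vector -/
def dvv {a : ℕ} (v : Ix a → ZMod 2) : ℕ := ∏ p ∈ dvS v, p

lemma mem_dvS {a : ℕ} (v : Ix a → ZMod 2) (q : ℕ) :
    q ∈ dvS v ↔ ∃ h : q ∈ a.primeFactors, v ⟨q, h⟩ = 1 := by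
  unfold dvS
  simp only [mem_map, mem_filter, mem_univ, true_and, Function.Embedding.coe_subtype]
  constructor
  · rintro ⟨p, hp, rfl⟩
    exact ⟨p.2, hp⟩
  · rintro ⟨h, hv⟩
    exact ⟨⟨q, h⟩, hv, rfl⟩

lemma dvS_sub {a : ℕ} (v : Ix a → ZMod 2) : dvS v ⊆ a.primeFactors := by
  intro q hq
  rw [mem_dvS] at hq
  exact hq.1

lemma dvS_prime {a : ℕ} (v : Ix a → ZMod 2) {p : ℕ} (hp : p ∈ dvS v) : p.Prime :=
  Nat.prime_of_mem_primeFactors (dvS_sub v hp)

lemma primeFactors_dvv {a : ℕ} (v : Ix a → ZMod 2) : (dvv v).primeFactors = dvS v :=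
  Nat.primeFactors_prod fun _ hp => dvS_prime v hp

lemma dvv_inj {a : ℕ} : Function.Injective (dvv (a := a)) := by
  intro v w h
  have h1 : dvS v = dvS w := by rw [← primeFactors_dvv, ← primeFactors_dvv, h]
  funext p
  have h2 : (p : ℕ) ∈ dvS v ↔ (p : ℕ) ∈ dvS w := by rw [h1]
  rw [mem_dvS, mem_dvS] at h2
  have h3 : v p = 1 ↔ w p = 1 := by
    constructor
    · intro h'
      obtain ⟨_, h''⟩ := h2.mp ⟨p.2, h'⟩
      exact h''
    · intro h'
      obtain ⟨_, h''⟩ := h2.mpr ⟨p.2, h'⟩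
      exact h''
  rcases Pool.Agent.TRL.zmod2_cases (v p) with h4 | h4 <;>
    rcases Pool.Agent.TRL.zmod2_cases (w p) with h5 | h5
  · rw [h4, h5]
  · rw [h4] at h3; rw [h5] at h3
    exact absurd (h3.mpr rfl) (by decide)
  · rw [h4] at h3; rw [h5] at h3
    exact absurd (h3.mp rfl) (by decide)
  · rw [h4, h5]

lemma dvv_dvd {a : ℕ} (ha : Squarefree a) (v : Ix a → ZMod 2) : dvv v ∣ a := by
  have h1 : a = ∏ p ∈ a.primeFactors, p := (Nat.prod_primeFactors_of_squarefree ha).symm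
  conv_rhs => rw [h1]
  exact Finset.prod_dvd_prod_of_subset _ _ _ (dvS_sub v)

lemma dvv_eq_one {a : ℕ} (v : Ix a → ZMod 2) : dvv v = 1 ↔ v = 0 := by
  have h0 : dvv (0 : Ix a → ZMod 2) = 1 := by
    unfold dvv
    apply Finset.prod_eq_one
    intro p hp
    rw [mem_dvS] at hp
    obtain ⟨_, h⟩ := hp
    simp at h
  constructor
  · intro h
    exact dvv_inj (h.trans h0.symm)
  · rintro rfl; exact h0

lemma jac_sg {p q : ℕ} (hp : p.Prime) (hq : q.Prime) (hne : q ≠ p) :
    (jacobiSym (q : ℤ) p : ℝ) = sg (sy p q) := by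
  have h1 : jacobiSym (q : ℤ) p ≠ 0 := by
    apply jacobiSym.ne_zero
    rw [Int.gcd_natCast_natCast]
    exact (Nat.coprime_primes hq hp).mpr hne
  unfold sy sg
  rcases jacobiSym.trichotomy (q : ℤ) p with h | h | h
  · exact absurd h h1
  · rw [h]; norm_num
  · rw [h]; norm_num

lemma jac_prod (S : Finset ℕ) (hS : ∀ p ∈ S, p.Prime) (q : ℕ) :
    (jacobiSym (q : ℤ) (∏ p ∈ S, p) : ℝ) = ∏ p ∈ S, (jacobiSym (q : ℤ) p : ℝ) := by
  induction S using Finset.induction_on with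
  | empty => simp
  | insert p S hp ih =>
    rw [Finset.prod_insert hp, Finset.prod_insert hp]
    have h1 : p ≠ 0 := (hS p (mem_insert_self p S)).ne_zero
    have h2 : ∏ r ∈ S, r ≠ 0 := by
      rw [Finset.prod_ne_zero_iff]
      intro r hr
      exact (hS r (mem_insert_of_mem hr)).ne_zero
    rw [jacobiSym.mul_right' _ h1 h2]
    push_cast
    rw [ih fun r hr => hS r (mem_insert_of_mem hr)]

lemma jac_self {q : ℕ} (hq : q.Prime) : jacobiSym (q : ℤ) q = 0 := by
  haveI : NeZero q := ⟨hq.ne_zero⟩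
  rw [jacobiSym.eq_zero_iff_not_coprime]
  rw [Int.gcd_natCast_natCast, Nat.gcd_self]
  exact hq.one_lt.ne'

lemma sum_points {a : ℕ} (c : G a) {q : ℕ} (hq : q.Prime) :
    (∑ t : ZMod 2, ch c (X a q t)) / 2 =
      (jacobiSym (q : ℤ) (dvv c.1) : ℝ) * sg (c.2.1 * nn q + c.2.2 * lam q) := by
  have h1 : ∀ t : ZMod 2, ch c (X a q t) =
      (∏ p ∈ dvS c.1, sg (if p = q then t else sy p q)) *
        sg (c.2.1 * nn q + c.2.2 * lam q) := by
    intro t
    unfold ch X
    simp only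
    rw [sg_add, mul_assoc]
    congr 1
    have h2 := Pool.Agent.TRL.sg_sum (univ : Finset (Ix a))
      (fun p => c.1 p * (if (p : ℕ) = q then t else sy p q))
    rw [sg_eq, h2]
    unfold dvS
    rw [Finset.prod_map]
    rw [Finset.prod_filter]
    refine prod_congr rfl fun p _ => ?_
    rcases Pool.Agent.TRL.zmod2_cases (c.1 p) with h | h
    · rw [h, zero_mul]
      simp [Pool.Agent.TRL.sg_zero]
    · rw [h, one_mul]
      simp [sg_eq]
  rw [Finset.sum_congr rfl fun t _ => h1 t, ← Finset.sum_mul, Pool.Agent.TRL.sum_zmod2]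
  unfold dvv
  rw [jac_prod _ (fun p hp => dvS_prime c.1 hp)]
  by_cases hqS : q ∈ dvS c.1
  · have h3 : ∏ p ∈ dvS c.1, (jacobiSym (q : ℤ) p : ℝ) = 0 := by
      apply Finset.prod_eq_zero hqS
      rw [jac_self hq]; simp
    rw [h3]
    have h4 : ∀ t : ZMod 2, ∏ p ∈ dvS c.1, sg (if p = q then t else sy p q) =
        sg t * ∏ p ∈ (dvS c.1).erase q, sg (sy p q) := by
      intro t
      rw [← Finset.mul_prod_erase _ _ hqS, if_pos rfl]
      congr 1
      refine prod_congr rfl fun p hp => ?_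
      rw [if_neg (Finset.ne_of_mem_erase hp)]
    rw [h4, h4, sg_zero, sg_one]
    ring
  · have h5 : ∀ t : ZMod 2, ∏ p ∈ dvS c.1, sg (if p = q then t else sy p q) =
        ∏ p ∈ dvS c.1, (jacobiSym (q : ℤ) p : ℝ) := by
      intro t
      refine prod_congr rfl fun p hp => ?_
      have hne : p ≠ q := fun h => hqS (h ▸ hp)
      rw [if_neg hne, jac_sg (dvS_prime c.1 hp) hq hne.symm]
    rw [h5, h5]
    ring

end Pool.Agent.TLWT

namespace Pool.Agent.TLW

open Finset Pool.Agent.TLWT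

theorem transfer (a : ℕ) (ha : F1 a) (f : Ph a) (B : ℝ) (hf : ∀ w s l, |f w s l| ≤ B)
    (I : Finset ℕ) (hI : ∀ q ∈ I, P8 q) (ρ : ℕ → ℝ) (hρ : ∀ q, 0 ≤ ρ q) :
    |∑ q ∈ I.filter (fun q => ¬ q ∣ a), ρ q * ev a f q - (∑ q ∈ I, ρ q) * avg a f| ≤
      B * (Real.sqrt (∑ d ∈ a.divisors, ∑ i : ZMod 2, ∑ j : ZMod 2,
          (if d = 1 ∧ i = 0 ∧ j = 0 then 0 else SS I ρ d i j ^ 2)) +
        2 * ∑ q ∈ I.filter (fun q => q ∣ a), ρ q) := by
  classical
  have ha0 : a ≠ 0 := ha.1.ne_zero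
  have hB : 0 ≤ B := le_trans (abs_nonneg _) (hf 0 0 0)
  set N : ℝ := 2 ^ (a.primeFactors.card + 2) with hN
  have hNpos : 0 < N := by positivity
  set T : ℝ := ∑ q ∈ I, ρ q with hT
  set F : G a → ℝ := fun x => f x.1 x.2.1 x.2.2 with hF
  set μ : G a → ℝ := fun x => ∑ q ∈ I, ρ q * ((∑ t : ZMod 2, if X a q t = x then (1 : ℝ) else 0) / 2)
    - T / N with hμ
  -- the linear functional
  have hlin : ∀ g : G a → ℝ, ∑ x : G a, μ x * g x =
      ∑ q ∈ I, ρ q * ((∑ t : ZMod 2, g (X a q t)) / 2) - T / N * ∑ x : G a, g x := by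
    intro g
    simp only [hμ, sub_mul, Finset.sum_sub_distrib, Finset.sum_mul]
    rw [Finset.sum_comm, ← Finset.mul_sum]
    congr 1
    refine sum_congr rfl fun q _ => ?_
    have h1 : ∀ x : G a, ρ q * ((∑ t : ZMod 2, if X a q t = x then (1 : ℝ) else 0) / 2) * g x =
        ρ q / 2 * ∑ t : ZMod 2, (if X a q t = x then g x else 0) := by
      intro x
      have h2 : ∑ t : ZMod 2, (if X a q t = x then g x else 0) =
          (∑ t : ZMod 2, if X a q t = x then (1 : ℝ) else 0) * g x := by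
        rw [Finset.sum_mul]
        refine sum_congr rfl fun t _ => ?_
        split_ifs <;> ring
      rw [h2]; ring
    rw [Finset.sum_congr rfl fun x _ => h1 x, ← Finset.mul_sum, Finset.sum_comm]
    have h3 : ∀ t : ZMod 2, ∑ x : G a, (if X a q t = x then g x else 0) = g (X a q t) := by
      intro t
      rw [Finset.sum_ite_eq]
      simp
    rw [Finset.sum_congr rfl fun t _ => h3 t]
    ring
  -- value at f
  have havg : avg a f = (∑ x : G a, F x) / N := by
    unfold avg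
    rw [Fintype.sum_prod_type]
    simp_rw [Fintype.sum_prod_type]
    rfl
  have hmain : ∑ x : G a, μ x * F x =
      ∑ q ∈ I, ρ q * ((∑ t : ZMod 2, F (X a q t)) / 2) - T * avg a f := by
    rw [hlin F, havg]; ring
  -- splitting
  have hsplit : ∑ q ∈ I, ρ q * ((∑ t : ZMod 2, F (X a q t)) / 2) =
      ∑ q ∈ I.filter (fun q => ¬ q ∣ a), ρ q * ev a f q +
      ∑ q ∈ I.filter (fun q => q ∣ a), ρ q * ((∑ t : ZMod 2, F (X a q t)) / 2) := by
    rw [← Finset.sum_filter_add_sum_filter_not I (fun q => q ∣ a), add_comm]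
    congr 1
    refine sum_congr rfl fun q hq => ?_
    rw [mem_filter] at hq
    have hnot : q ∉ a.primeFactors := fun h => hq.2 (Nat.dvd_of_mem_primeFactors h)
    have : ∀ t : ZMod 2, F (X a q t) = ev a f q := by
      intro t
      rw [X_eq hnot]
      rfl
    rw [Finset.sum_congr rfl fun t _ => this t, Pool.Agent.TRL.sum_zmod2]
    ring
  have hdvd : |∑ q ∈ I.filter (fun q => q ∣ a), ρ q * ((∑ t : ZMod 2, F (X a q t)) / 2)| ≤
      B * ∑ q ∈ I.filter (fun q => q ∣ a), ρ q := by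
    refine (Finset.abs_sum_le_sum_abs _ _).trans ?_
    rw [Finset.mul_sum]
    refine sum_le_sum fun q _ => ?_
    rw [abs_mul, abs_of_nonneg (hρ q), mul_comm]
    refine mul_le_mul_of_nonneg_right ?_ (hρ q)
    rw [Pool.Agent.TRL.sum_zmod2, abs_div, abs_of_pos (show (0 : ℝ) < 2 by norm_num),
      div_le_iff₀ (by norm_num)]
    refine (abs_add_le _ _).trans ?_
    have := hf (X a q 0).1 (X a q 0).2.1 (X a q 0).2.2
    have := hf (X a q 1).1 (X a q 1).2.1 (X a q 1).2.2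
    simp only [hF]
    linarith
  -- Cauchy-Schwarz and Parseval
  have hcs : |∑ x : G a, μ x * F x| ≤ B * Real.sqrt (N * ∑ x : G a, μ x ^ 2) := by
    have h1 : (∑ x : G a, μ x * F x) ^ 2 ≤ (∑ x : G a, μ x ^ 2) * ∑ x : G a, F x ^ 2 :=
      Finset.sum_mul_sq_le_sq_mul_sq _ _ _
    have h2 : ∑ x : G a, F x ^ 2 ≤ N * B ^ 2 := by
      have : ∑ x : G a, F x ^ 2 ≤ ∑ x : G a, B ^ 2 := by
        refine sum_le_sum fun x _ => ?_
        exact sq_le_sq' (by have := abs_le.mp (hf x.1 x.2.1 x.2.2); simp only [hF]; linarith [this.1])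
          (abs_le.mp (hf x.1 x.2.1 x.2.2)).2
      refine this.trans (le_of_eq ?_)
      rw [Finset.sum_const, nsmul_eq_mul, Finset.card_univ]
      congr 1
      rw [hN]
      rw [Fintype.card_prod, Fintype.card_prod, Fintype.card_fun, ZMod.card, Fintype.card_coe]
      push_cast
      ring
    have h3 : (∑ x : G a, μ x * F x) ^ 2 ≤ B ^ 2 * (N * ∑ x : G a, μ x ^ 2) := by
      refine h1.trans ?_
      have h4 : 0 ≤ ∑ x : G a, μ x ^ 2 := sum_nonneg fun _ _ => sq_nonneg _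
      calc (∑ x : G a, μ x ^ 2) * ∑ x : G a, F x ^ 2 ≤ (∑ x : G a, μ x ^ 2) * (N * B ^ 2) :=
            mul_le_mul_of_nonneg_left h2 h4
        _ = B ^ 2 * (N * ∑ x : G a, μ x ^ 2) := by ring
    calc |∑ x : G a, μ x * F x| = Real.sqrt ((∑ x : G a, μ x * F x) ^ 2) :=
          (Real.sqrt_sq_eq_abs _).symm
      _ ≤ Real.sqrt (B ^ 2 * (N * ∑ x : G a, μ x ^ 2)) := Real.sqrt_le_sqrt h3
      _ = B * Real.sqrt (N * ∑ x : G a, μ x ^ 2) := by
          rw [Real.sqrt_mul (sq_nonneg B), Real.sqrt_sq hB]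
  have hpar : N * ∑ x : G a, μ x ^ 2 ≤ ∑ d ∈ a.divisors, ∑ i : ZMod 2, ∑ j : ZMod 2,
          (if d = 1 ∧ i = 0 ∧ j = 0 then 0 else SS I ρ d i j ^ 2) := by
    rw [hN, ← parseval μ]
    have h1 : ∀ c : G a, (∑ x : G a, μ x * ch c x) ^ 2 =
        (if dvv c.1 = 1 ∧ c.2.1 = 0 ∧ c.2.2 = 0 then 0 else SS I ρ (dvv c.1) c.2.1 c.2.2 ^ 2) := by
      intro c
      rw [hlin (fun x => ch c x)]
      have h2 : ∑ q ∈ I, ρ q * ((∑ t : ZMod 2, ch c (X a q t)) / 2) =
          SS I ρ (dvv c.1) c.2.1 c.2.2 := by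
        unfold SS
        refine sum_congr rfl fun q hq => ?_
        rw [sum_points c (hI q hq).1]
        ring
      have h3 : ∑ x : G a, ch c x = if c = 0 then N else 0 := by
        rw [← sum_ch c]
        exact sum_congr rfl fun x _ => ch_swap _ _
      rw [h2, h3]
      have hc : c = 0 ↔ dvv c.1 = 1 ∧ c.2.1 = 0 ∧ c.2.2 = 0 := by
        rw [dvv_eq_one]
        constructor
        · rintro rfl; exact ⟨rfl, rfl, rfl⟩
        · rintro ⟨h, h', h''⟩
          exact Prod.ext h (Prod.ext h' h'')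
      by_cases h : c = 0
      · rw [if_pos h, if_pos (hc.mp h)]
        have h4 : SS I ρ (dvv c.1) c.2.1 c.2.2 = T := by
          obtain ⟨h5, h6, h7⟩ := hc.mp h
          unfold SS
          rw [h5, h6, h7, hT]
          refine sum_congr rfl fun q _ => ?_
          simp [sg]
        rw [h4]
        have : T / N * N = T := by field_simp
        rw [this]; ring
      · rw [if_neg h, if_neg fun h' => h (hc.mpr h')]
        ring
    rw [Finset.sum_congr rfl fun c _ => h1 c, Fintype.sum_prod_type]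
    simp_rw [Fintype.sum_prod_type]
    set g : ℕ → ℝ := fun d => ∑ i : ZMod 2, ∑ j : ZMod 2,
      (if d = 1 ∧ i = 0 ∧ j = 0 then 0 else SS I ρ d i j ^ 2) with hg
    have hg0 : ∀ d, 0 ≤ g d := by
      intro d
      refine sum_nonneg fun i _ => sum_nonneg fun j _ => ?_
      split_ifs
      · exact le_rfl
      · exact sq_nonneg _
    change ∑ v : Ix a → ZMod 2, g (dvv v) ≤ ∑ d ∈ a.divisors, g d
    rw [← Finset.sum_image (f := g) (g := dvv (a := a)) (s := univ)
      (fun v _ w _ h => dvv_inj h)]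
    refine Finset.sum_le_sum_of_subset_of_nonneg ?_ fun d _ _ => hg0 d
    intro d hd
    rw [mem_image] at hd
    obtain ⟨v, _, rfl⟩ := hd
    rw [Nat.mem_divisors]
    exact ⟨dvv_dvd ha.1 v, ha0⟩
  -- conclusion
  have hfin : ∑ q ∈ I.filter (fun q => ¬ q ∣ a), ρ q * ev a f q - T * avg a f =
      ∑ x : G a, μ x * F x -
        ∑ q ∈ I.filter (fun q => q ∣ a), ρ q * ((∑ t : ZMod 2, F (X a q t)) / 2) := by
    rw [hmain, hsplit]; ring
  rw [hfin]
  have hρs : 0 ≤ ∑ q ∈ I.filter (fun q => q ∣ a), ρ q := sum_nonneg fun q _ => hρ q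
  calc |∑ x : G a, μ x * F x -
        ∑ q ∈ I.filter (fun q => q ∣ a), ρ q * ((∑ t : ZMod 2, F (X a q t)) / 2)|
      ≤ |∑ x : G a, μ x * F x| +
        |∑ q ∈ I.filter (fun q => q ∣ a), ρ q * ((∑ t : ZMod 2, F (X a q t)) / 2)| := abs_sub _ _
    _ ≤ B * Real.sqrt (N * ∑ x : G a, μ x ^ 2) + B * ∑ q ∈ I.filter (fun q => q ∣ a), ρ q :=
        add_le_add hcs hdvd
    _ ≤ B * Real.sqrt (∑ d ∈ a.divisors, ∑ i : ZMod 2, ∑ j : ZMod 2,
          (if d = 1 ∧ i = 0 ∧ j = 0 then 0 else SS I ρ d i j ^ 2)) +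
        B * (2 * ∑ q ∈ I.filter (fun q => q ∣ a), ρ q) := by
        refine add_le_add (mul_le_mul_of_nonneg_left (Real.sqrt_le_sqrt hpar) hB) ?_
        refine mul_le_mul_of_nonneg_left ?_ hB
        linarith
    _ = _ := by ring

end Pool.Agent.TLW
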