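import Pool.Agent.TLW.Defs
import Pool.Agent.TRL.Emb
import Pool.Agent.TRL.Chain

/-!
S6, linear algebra: conversion between the definitions, the bordered matrix.
-/

set_option autoImplicit false
set_option linter.unusedSectionVars false

namespace Pool.Agent.TLW

open Finset

variable {ι : Type*} [Fintype ι] [DecidableEq ι]

theorem sg_eq (x : ZMod 2) : sg x = TRL.sg x := rfl

theorem PJ_eq (J : ℕ) : PJ J = TRL.PJ J := rfl

theorem hJ_eq (J r : ℕ) : hJ J r = TRL.hj J r := rfl

/-- The two definitions of the corank agree. -/
theorem crk_eq {κ : Type*} [Fintype κ] [DecidableEq κ] (A : Matrix κ κ (ZMod 2)) :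
    crk A = TRL.crk A := by
  unfold crk TRL.crk TRL.rk
  have h1 := LinearMap.finrank_range_add_finrank_ker A.mulVecLin
  have h2 : TRL.KS A Finset.univ = LinearMap.ker A.mulVecLin := by
    ext v
    rw [TRL.mem_KS, LinearMap.mem_ker, Matrix.mulVecLin_apply, funext_iff]
    constructor
    · rintro ⟨_, h⟩ i
      exact h i (Finset.mem_univ i)
    · intro h
      exact ⟨fun i hi => absurd (Finset.mem_univ i) hi, fun i _ => h i⟩
  rw [h2]
  have h3 : Module.finrank (ZMod 2) (κ → ZMod 2) = Fintype.card κ := Module.finrank_fintype_fun_eq_card _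
  rw [h3] at h1
  have h4 : A.rank = Module.finrank (ZMod 2) (LinearMap.range A.mulVecLin) := rfl
  omega

theorem kerN_eq {κ : Type*} [Fintype κ] [DecidableEq κ] (A : Matrix κ κ (ZMod 2)) :
    kerN A = 2 ^ crk A := by
  rw [crk_eq, ← TRL.card_ker]
  unfold kerN
  congr 1
  ext v
  simp only [Finset.mem_filter, Finset.mem_univ, true_and]
  rw [funext_iff]
  rfl

theorem crk_eq_zero_iff {κ : Type*} [Fintype κ] [DecidableEq κ] (A : Matrix κ κ (ZMod 2)) :
    crk A = 0 ↔ A.det = 1 := by
  rw [crk_eq, TRL.crk_eq_zero_iff]

/-! ### the normal form of the extended matrix -/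

/-- The extended matrix after the row operation. -/
def NB (R : ι → ι → ZMod 2) (s l u : ι → ZMod 2) (L : ZMod 2) (w : ι → ZMod 2)
    (s' x t : ZMod 2) : Matrix (Option (Option ι)) (Option (Option ι)) (ZMod 2) :=
  Matrix.of fun i j => match i, j with
    | some (some i), some (some j) => MM R u i j
    | some (some i), some none => w i
    | some (some i), none => l i
    | some none, some (some j) => w j
    | some none, some none => t
    | some none, none => x
    | none, some (some j) => s j
    | none, some none => s'
    | none, none => L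

theorem MM_ext_some (R : ι → ι → ZMod 2) (s w u : ι → ZMod 2) (s' t : ZMod 2) (i j : ι) :
    MM (exR R s w s') (exv u t) (some i) (some j) = MM R u i j := by
  unfold MM
  simp only [Matrix.of_apply]
  by_cases h : i = j
  · rw [if_pos h, if_pos (congrArg some h)]; rfl
  · rw [if_neg h, if_neg fun h' => h (Option.some_injective _ h')]; rfl

theorem crk_CC_ext (R : ι → ι → ZMod 2) (s l w u : ι → ZMod 2) (s' l' t L : ZMod 2) :
    TRL.crk (CC (exR R s w s') (exv s s') (exv l l') (exv u t) L) =
      TRL.crk (NB R s l u L w s' (l' + s' * L) (t + s')) := by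
  refine TRL.crk_congr_ker fun v => ?_
  have hrow : ∀ (i : ι), ∑ k, CC (exR R s w s') (exv s s') (exv l l') (exv u t) L
      (some (some i)) k * v k = ∑ k, NB R s l u L w s' (l' + s' * L) (t + s')
      (some (some i)) k * v k := by
    intro i
    simp only [Fintype.sum_option]
    have e1 : ∀ j : ι, CC (exR R s w s') (exv s s') (exv l l') (exv u t) L (some (some i))
        (some (some j)) = MM R u i j := fun j => MM_ext_some R s w u s' t i j
    simp only [e1]
    rfl
  have hrow' : ∑ k, CC (exR R s w s') (exv s s') (exv l l') (exv u t) L none k * v k =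
      ∑ k, NB R s l u L w s' (l' + s' * L) (t + s') none k * v k := by
    simp only [Fintype.sum_option]
    rfl
  have hmid : ∑ k, NB R s l u L w s' (l' + s' * L) (t + s') (some none) k * v k =
      ∑ k, CC (exR R s w s') (exv s s') (exv l l') (exv u t) L (some none) k * v k +
        s' * ∑ k, CC (exR R s w s') (exv s s') (exv l l') (exv u t) L none k * v k := by
    simp only [Fintype.sum_option]
    have e1 : ∀ j : ι, CC (exR R s w s') (exv s s') (exv l l') (exv u t) L (some none)
        (some (some j)) = w j + s' * s j := fun j => rfl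
    have e2 : CC (exR R s w s') (exv s s') (exv l l') (exv u t) L (some none) (some none) = t :=
      rfl
    have e3 : CC (exR R s w s') (exv s s') (exv l l') (exv u t) L (some none) none = l' := rfl
    have e4 : ∀ j : ι, CC (exR R s w s') (exv s s') (exv l l') (exv u t) L none
        (some (some j)) = s j := fun j => rfl
    have e5 : CC (exR R s w s') (exv s s') (exv l l') (exv u t) L none (some none) = s' := rfl
    have e6 : CC (exR R s w s') (exv s s') (exv l l') (exv u t) L none none = L := rfl
    have f1 : ∀ j : ι, NB R s l u L w s' (l' + s' * L) (t + s') (some none)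
        (some (some j)) = w j := fun j => rfl
    have f2 : NB R s l u L w s' (l' + s' * L) (t + s') (some none) (some none) = t + s' := rfl
    have f3 : NB R s l u L w s' (l' + s' * L) (t + s') (some none) none = l' + s' * L := rfl
    simp only [e1, e2, e3, e4, e5, e6, f1, f2, f3]
    have hss : s' * s' = s' := by
      rcases TRL.zmod2_cases s' with rfl | rfl <;> simp
    have hw : ∑ j : ι, w j * v (some (some j)) =
        ∑ j : ι, (w j + s' * s j) * v (some (some j)) +
          s' * ∑ j : ι, s j * v (some (some j)) := by
      rw [Finset.mul_sum, ← Finset.sum_add_distrib]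
      refine Finset.sum_congr rfl fun j _ => ?_
      have : (w j + s' * s j) * v (some (some j)) + s' * (s j * v (some (some j))) =
          w j * v (some (some j)) + (s' * s j * v (some (some j)) +
            s' * s j * v (some (some j))) := by ring
      rw [this, TRL.zmod2_add_self, add_zero]
    rw [hw]
    have : s' * (L * v none + (s' * v (some none) + ∑ j : ι, s j * v (some (some j)))) =
        s' * L * v none + (s' * s') * v (some none) + s' * ∑ j : ι, s j * v (some (some j)) := by
      ring
    rw [this, hss]
    ring
  constructor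
  · intro h i
    rcases i with _ | _ | i
    · rw [← hrow']; exact h none
    · rw [hmid, h (some none), h none, mul_zero, add_zero]
    · rw [← hrow]; exact h _
  · intro h i
    have hn := h none
    rw [← hrow'] at hn
    rcases i with _ | _ | i
    · exact hn
    · have := h (some none)
      rw [hmid, hn, mul_zero, add_zero] at this
      exact this
    · rw [hrow]; exact h _

/-- The embedding of the old indices. -/
def embO : Option ι ↪ Option (Option ι) :=
  ⟨fun i => match i with
    | none => none
    | some i => some (some i), by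
      intro a b h
      rcases a with _ | a <;> rcases b with _ | b <;> simp_all⟩

/-- The old indices. -/
def IO : Finset (Option (Option ι)) := Finset.univ.map embO

theorem notMem_IO : (some none : Option (Option ι)) ∉ (IO : Finset (Option (Option ι))) := by
  unfold IO
  rw [Finset.mem_map]
  rintro ⟨a, _, ha⟩
  rcases a with _ | a
  · have h1 : (none : Option (Option ι)) = some none := ha
    exact absurd h1 (by simp)
  · have h1 : (some (some a) : Option (Option ι)) = some none := ha
    exact absurd (Option.some_injective _ h1) (by simp)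

theorem none_mem_IO : (none : Option (Option ι)) ∈ (IO : Finset (Option (Option ι))) :=
  Finset.mem_map.2 ⟨none, Finset.mem_univ _, rfl⟩

theorem some_mem_IO (i : ι) :
    (some (some i) : Option (Option ι)) ∈ (IO : Finset (Option (Option ι))) :=
  Finset.mem_map.2 ⟨some i, Finset.mem_univ _, rfl⟩

theorem insert_IO : insert (some none) (IO : Finset (Option (Option ι))) = Finset.univ := by
  ext i
  simp only [Finset.mem_insert, Finset.mem_univ, iff_true]
  rcases i with _ | _ | i
  · right; exact none_mem_IO
  · left; rfl
  · right; exact some_mem_IO i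

theorem rk_NB_IO (R : ι → ι → ZMod 2) (s l u : ι → ZMod 2) (L : ZMod 2) (w : ι → ZMod 2)
    (s' x t : ZMod 2) : TRL.rk (NB R s l u L w s' x t) IO = TRL.crk (CC R s l u L) := by
  unfold IO TRL.crk
  rw [TRL.rk_map]
  congr 1
  ext i j
  rcases i with _ | i <;> rcases j with _ | j <;> rfl

/-- The solution set behind `zN` contains zero. -/
theorem one_le_zN (R : ι → ι → ZMod 2) (s u : ι → ZMod 2) : 1 ≤ zN R s u := by
  unfold zN
  rw [Nat.succ_le_iff, Finset.card_pos]
  exact ⟨0, Finset.mem_filter.2 ⟨Finset.mem_univ _, fun _ _ => rfl, Matrix.mulVec_zero _⟩⟩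

/-- Elements in both kernels. -/
theorem mem_zN_of_both {R : ι → ι → ZMod 2} {s u y : ι → ZMod 2} (hR : Recip R s)
    (h1 : ∀ i, ∑ j, MM R u i j * y j = 0) (h2 : ∀ i, ∑ j, MM R u j i * y j = 0)
    (h3 : ∑ j, s j * y j = 0) : ∀ i, s i = 1 → y i = 0 := by
  intro i hi
  have h4 : ∑ j, (MM R u i j + MM R u j i) * y j = 0 := by
    simp only [add_mul, Finset.sum_add_distrib]
    rw [h1 i, h2 i, add_zero]
  have h5 : ∀ j, (MM R u i j + MM R u j i) * y j = s j * y j + (if j = i then y i else 0) := by
    intro j
    unfold MM
    simp only [Matrix.of_apply]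
    by_cases hij : i = j
    · subst hij
      rw [if_pos rfl, if_pos rfl, TRL.zmod2_add_self, hi, zero_mul, one_mul,
        TRL.zmod2_add_self]
    · rw [if_neg hij, if_neg (Ne.symm hij), if_neg (Ne.symm hij), hR i j hij, hi, one_mul,
        ← add_assoc, TRL.zmod2_add_self, zero_add, add_zero]
  rw [Finset.sum_congr rfl fun j _ => h5 j, Finset.sum_add_distrib, h3, zero_add,
    Finset.sum_ite_eq' Finset.univ i (fun _ => y i), if_pos (Finset.mem_univ i)] at h4
  exact h4

end Pool.Agent.TLW
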