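import Pool.Agent.TLW.LinA

/-!
S6, linear algebra: the one step law for `GG`.
-/

set_option autoImplicit false
set_option linter.unusedSectionVars false

namespace Pool.Agent.TLW

open Finset

variable {ι : Type*} [Fintype ι] [DecidableEq ι]

theorem tog_NB (R : ι → ι → ZMod 2) (s l u : ι → ZMod 2) (L : ZMod 2) (w : ι → ZMod 2)
    (s' x : ZMod 2) : TRL.tog (some none) (NB R s l u L w s' x 0) = NB R s l u L w s' x 1 := by
  ext i j
  unfold TRL.tog
  rcases i with _ | _ | i <;> rcases j with _ | _ | j <;> simp [NB]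

theorem sum_sg_nonzero (a : ι → ZMod 2) (h : ∃ i, a i ≠ 0) :
    ∑ w : ι → ZMod 2, TRL.sg (∑ i, w i * a i) = 0 := by
  rw [TRL.sum_univ_sg, if_neg]
  push Not
  exact h

theorem gen_NB {R : ι → ι → ZMod 2} {s l u : ι → ZMod 2} {L : ZMod 2} (hR : Recip R s)
    (hz : zN R s u ≤ 1) (a : Option (Option ι) → ZMod 2)
    (ha : a ∈ TRL.KS (NB R s l u L 0 0 0 0).transpose IO) (b : Option (Option ι) → ZMod 2)
    (hb : b ∈ TRL.KS (NB R s l u L 0 0 0 0) IO) (hab : a ≠ 0 ∨ b ≠ 0) :
    ∑ p : (ι → ZMod 2) × ZMod 2 × ZMod 2,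
      TRL.sg ((∑ i, a i * NB R s l u L p.1 p.2.1 p.2.2 0 i (some none)) +
        ∑ i, b i * NB R s l u L p.1 p.2.1 p.2.2 0 (some none) i) = 0 := by
  rw [TRL.mem_KS] at ha hb
  have haz : a (some none) = 0 := ha.1 _ notMem_IO
  have hbz : b (some none) = 0 := hb.1 _ notMem_IO
  have hsum : ∀ p : (ι → ZMod 2) × ZMod 2 × ZMod 2,
      TRL.sg ((∑ i, a i * NB R s l u L p.1 p.2.1 p.2.2 0 i (some none)) +
        ∑ i, b i * NB R s l u L p.1 p.2.1 p.2.2 0 (some none) i) =
      TRL.sg (∑ i : ι, p.1 i * (a (some (some i)) + b (some (some i)))) *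
        (TRL.sg (p.2.1 * a none) * TRL.sg (p.2.2 * b none)) := by
    intro p
    rw [← TRL.sg_add, ← TRL.sg_add]
    congr 1
    simp only [Fintype.sum_option]
    have e1 : NB R s l u L p.1 p.2.1 p.2.2 0 none (some none) = p.2.1 := rfl
    have e2 : NB R s l u L p.1 p.2.1 p.2.2 0 (some none) (some none) = 0 := rfl
    have e3 : ∀ i : ι, NB R s l u L p.1 p.2.1 p.2.2 0 (some (some i)) (some none) = p.1 i :=
      fun i => rfl
    have e4 : NB R s l u L p.1 p.2.1 p.2.2 0 (some none) none = p.2.2 := rfl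
    have e5 : ∀ i : ι, NB R s l u L p.1 p.2.1 p.2.2 0 (some none) (some (some i)) = p.1 i :=
      fun i => rfl
    simp only [e1, e2, e3, e4, e5, mul_zero, zero_add]
    have : ∑ i : ι, p.1 i * (a (some (some i)) + b (some (some i))) =
        (∑ i : ι, a (some (some i)) * p.1 i) + ∑ i : ι, b (some (some i)) * p.1 i := by
      rw [← Finset.sum_add_distrib]
      exact Finset.sum_congr rfl fun i _ => by ring
    rw [this]
    ring
  rw [Finset.sum_congr rfl fun p _ => hsum p]
  have hprod : ∑ p : (ι → ZMod 2) × ZMod 2 × ZMod 2,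
      TRL.sg (∑ i : ι, p.1 i * (a (some (some i)) + b (some (some i)))) *
        (TRL.sg (p.2.1 * a none) * TRL.sg (p.2.2 * b none)) =
      (∑ w : ι → ZMod 2, TRL.sg (∑ i : ι, w i * (a (some (some i)) + b (some (some i))))) *
        ((∑ x : ZMod 2, TRL.sg (x * a none)) * ∑ x : ZMod 2, TRL.sg (x * b none)) := by
    rw [Finset.sum_mul_sum, Fintype.sum_prod_type, Finset.sum_mul_sum]
    refine Finset.sum_congr rfl fun w _ => ?_
    rw [Fintype.sum_prod_type]
    refine Finset.sum_congr rfl fun x _ => ?_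
    rw [Finset.mul_sum]
  rw [hprod]
  by_cases h1 : ∃ i : ι, a (some (some i)) + b (some (some i)) ≠ 0
  · rw [sum_sg_nonzero _ h1, zero_mul]
  push Not at h1
  by_cases h2 : a none = 0
  swap
  · rw [TRL.sum_sg_mul, if_neg h2, zero_mul, mul_zero]
  by_cases h3 : b none = 0
  swap
  · rw [TRL.sum_sg_mul (b none), if_neg h3, mul_zero, mul_zero]
  exfalso
  have hab' : ∀ i : ι, a (some (some i)) = b (some (some i)) := fun i =>
    CharTwo.add_eq_zero.1 (h1 i)
  -- the common vector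
  have hM1 : ∀ i : ι, ∑ j, MM R u i j * b (some (some j)) = 0 := by
    intro i
    have := hb.2 (some (some i)) (some_mem_IO i)
    simp only [Fintype.sum_option] at this
    rw [h3, hbz, mul_zero, mul_zero, zero_add, zero_add] at this
    exact this
  have hM2 : ∀ i : ι, ∑ j, MM R u j i * b (some (some j)) = 0 := by
    intro i
    have := ha.2 (some (some i)) (some_mem_IO i)
    simp only [Fintype.sum_option] at this
    rw [h2, haz, mul_zero, mul_zero, zero_add, zero_add] at this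
    rw [← this]
    refine Finset.sum_congr rfl fun j _ => ?_
    rw [hab' j]; rfl
  have hs : ∑ j : ι, s j * b (some (some j)) = 0 := by
    have := hb.2 none none_mem_IO
    simp only [Fintype.sum_option] at this
    rw [h3, hbz, mul_zero, mul_zero, zero_add, zero_add] at this
    exact this
  have hsy := mem_zN_of_both hR hM1 hM2 hs
  have hne : (fun i : ι => b (some (some i))) ≠ 0 := by
    intro h0
    have hb0 : b = 0 := by
      funext i
      rcases i with _ | _ | i
      · exact h3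
      · exact hbz
      · exact congrFun h0 i
    have ha0 : a = 0 := by
      funext i
      rcases i with _ | _ | i
      · exact h2
      · exact haz
      · rw [hab' i]; exact congrFun h0 i
    rcases hab with h | h
    · exact h ha0
    · exact h hb0
  have hmem : (fun i : ι => b (some (some i))) ∈
      Finset.univ.filter fun y : ι → ZMod 2 => (∀ i, s i = 1 → y i = 0) ∧ (MM R u).mulVec y = 0 :=
    Finset.mem_filter.2 ⟨Finset.mem_univ _, hsy, funext fun i => hM1 i⟩
  have hmem0 : (0 : ι → ZMod 2) ∈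
      Finset.univ.filter fun y : ι → ZMod 2 => (∀ i, s i = 1 → y i = 0) ∧ (MM R u).mulVec y = 0 :=
    Finset.mem_filter.2 ⟨Finset.mem_univ _, fun _ _ => rfl, Matrix.mulVec_zero _⟩
  exact hne (Finset.card_le_one.1 hz _ hmem _ hmem0)

theorem step_NB {R : ι → ι → ZMod 2} {s : ι → ZMod 2} (l u : ι → ZMod 2) (L : ZMod 2)
    (hR : Recip R s) (hz : zN R s u ≤ 1) (F : ℕ → ℝ) :
    ∑ w : ι → ZMod 2, ∑ s' : ZMod 2, ∑ x : ZMod 2, ∑ t : ZMod 2,
      F (TRL.crk (NB R s l u L w s' x t)) =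
      2 ^ (Fintype.card ι + 3) * TRL.TF F (TRL.crk (CC R s l u L)) := by
  have h := TRL.step_law (P := (ι → ZMod 2) × ZMod 2 × ZMod 2)
    (fun p => NB R s l u L p.1 p.2.1 p.2.2 0) (NB R s l u L 0 0 0 0) IO (z := some none)
    notMem_IO ?_ (fun a ha b hb hab => gen_NB hR hz a ha b hb hab) F
  · rw [rk_NB_IO, insert_IO] at h
    have hcard : (Fintype.card ((ι → ZMod 2) × ZMod 2 × ZMod 2) : ℝ) =
        2 ^ (Fintype.card ι + 2) := by
      rw [Fintype.card_prod, Fintype.card_prod, Fintype.card_fun, ZMod.card]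
      push_cast
      ring
    rw [hcard, Fintype.sum_prod_type] at h
    have h2 : ∀ w : ι → ZMod 2, ∑ y : ZMod 2 × ZMod 2,
        (F (TRL.rk (NB R s l u L w y.1 y.2 0) Finset.univ) +
          F (TRL.rk (TRL.tog (some none) (NB R s l u L w y.1 y.2 0)) Finset.univ)) / 2 =
        (∑ s' : ZMod 2, ∑ x : ZMod 2, ∑ t : ZMod 2,
          F (TRL.crk (NB R s l u L w s' x t))) / 2 := by
      intro w
      rw [Fintype.sum_prod_type, Finset.sum_div]
      refine Finset.sum_congr rfl fun s' _ => ?_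
      rw [Finset.sum_div]
      refine Finset.sum_congr rfl fun x _ => ?_
      rw [TRL.sum_zmod2, tog_NB]
      rfl
    rw [Finset.sum_congr rfl fun w _ => h2 w, ← Finset.sum_div] at h
    rw [div_eq_iff (by norm_num)] at h
    rw [h]
    ring
  · intro p i hi k hk
    have hi' : i ≠ some none := fun h => notMem_IO (h ▸ hi)
    have hk' : k ≠ some none := fun h => notMem_IO (h ▸ hk)
    rcases i with _ | _ | i
    · rcases k with _ | _ | k
      · rfl
      · exact absurd rfl hk'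
      · rfl
    · exact absurd rfl hi'
    · rcases k with _ | _ | k
      · rfl
      · exact absurd rfl hk'
      · rfl

/-- Sum over vectors on `Option ι`. -/
theorem sum_option_vec (f : (Option ι → ZMod 2) → ℝ) :
    ∑ u : Option ι → ZMod 2, f u = ∑ u : ι → ZMod 2, ∑ t : ZMod 2, f (exv u t) := by
  rw [Finset.sum_comm, ← Fintype.sum_prod_type' (f := fun (t : ZMod 2) (u : ι → ZMod 2) => f (exv u t))]
  refine Fintype.sum_equiv (Equiv.piOptionEquivProd (β := fun _ : Option ι => ZMod 2)) _ _ ?_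
  intro u
  congr 1
  funext i
  rcases i with _ | i <;> rfl

/-- shift of a sum over `ZMod 2` -/
theorem sum_shift (f : ZMod 2 → ℝ) (a : ZMod 2) : ∑ x : ZMod 2, f (x + a) = ∑ x : ZMod 2, f x :=
  Fintype.sum_equiv (Equiv.addRight a) _ _ fun _ => rfl

/-- The sum over all parameters of one extension in the normal form. -/
theorem sum_ext_eq (R : ι → ι → ZMod 2) (s l : ι → ZMod 2) (F : ℕ → ℝ) :
    ∑ w : ι → ZMod 2, ∑ s' : ZMod 2, ∑ l' : ZMod 2, ∑ u : Option ι → ZMod 2, ∑ L : ZMod 2,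
      F (TRL.crk (CC (exR R s w s') (exv s s') (exv l l') u L)) =
    ∑ u : ι → ZMod 2, ∑ L : ZMod 2, ∑ w : ι → ZMod 2, ∑ s' : ZMod 2, ∑ x : ZMod 2,
      ∑ t : ZMod 2, F (TRL.crk (NB R s l u L w s' x t)) := by
  have h1 : ∀ (w : ι → ZMod 2) (s' l' : ZMod 2), ∑ u : Option ι → ZMod 2, ∑ L : ZMod 2,
      F (TRL.crk (CC (exR R s w s') (exv s s') (exv l l') u L)) =
      ∑ u : ι → ZMod 2, ∑ L : ZMod 2, ∑ t : ZMod 2,
        F (TRL.crk (NB R s l u L w s' (l' + s' * L) t)) := by
    intro w s' l'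
    rw [sum_option_vec]
    refine Finset.sum_congr rfl fun u _ => ?_
    rw [Finset.sum_comm]
    refine Finset.sum_congr rfl fun L _ => ?_
    rw [← sum_shift (fun t => F (TRL.crk (NB R s l u L w s' (l' + s' * L) t))) s']
    refine Finset.sum_congr rfl fun t _ => ?_
    rw [crk_CC_ext]
  simp only [h1]
  -- move the sums over `u` and `L` out
  have h2 : ∀ (w : ι → ZMod 2) (s' : ZMod 2), ∑ l' : ZMod 2, ∑ u : ι → ZMod 2, ∑ L : ZMod 2,
      ∑ t : ZMod 2, F (TRL.crk (NB R s l u L w s' (l' + s' * L) t)) =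
      ∑ u : ι → ZMod 2, ∑ L : ZMod 2, ∑ x : ZMod 2, ∑ t : ZMod 2,
        F (TRL.crk (NB R s l u L w s' x t)) := by
    intro w s'
    rw [Finset.sum_comm]
    refine Finset.sum_congr rfl fun u _ => ?_
    rw [Finset.sum_comm]
    refine Finset.sum_congr rfl fun L _ => ?_
    exact sum_shift (fun x => ∑ t : ZMod 2, F (TRL.crk (NB R s l u L w s' x t))) (s' * L)
  simp only [h2]
  have h3 : ∀ w : ι → ZMod 2, ∑ s' : ZMod 2, ∑ u : ι → ZMod 2, ∑ L : ZMod 2, ∑ x : ZMod 2,
      ∑ t : ZMod 2, F (TRL.crk (NB R s l u L w s' x t)) =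
      ∑ u : ι → ZMod 2, ∑ L : ZMod 2, ∑ s' : ZMod 2, ∑ x : ZMod 2,
      ∑ t : ZMod 2, F (TRL.crk (NB R s l u L w s' x t)) := by
    intro w
    rw [Finset.sum_comm]
    refine Finset.sum_congr rfl fun u _ => ?_
    rw [Finset.sum_comm]
  simp only [h3]
  rw [Finset.sum_comm]
  refine Finset.sum_congr rfl fun u _ => ?_
  rw [Finset.sum_comm]

/-- Mean of `GG` over one extension. -/
theorem GG_step' {R : ι → ι → ZMod 2} {s l : ι → ZMod 2} (hR : Recip R s) (J : ℕ) :
    |(∑ w : ι → ZMod 2, ∑ s' : ZMod 2, ∑ l' : ZMod 2,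
      GG J (exR R s w s') (exv s s') (exv l l')) / 2 ^ (Fintype.card ι + 2) -
        GG (J + 1) R s l| ≤ K0 R s - 1 := by
  classical
  have hn : (0 : ℝ) < 2 ^ Fintype.card ι := by positivity
  -- the numerator
  set S : ℝ := ∑ u : ι → ZMod 2, ∑ L : ZMod 2, ∑ w : ι → ZMod 2, ∑ s' : ZMod 2, ∑ x : ZMod 2,
      ∑ t : ZMod 2, hJ J (TRL.crk (NB R s l u L w s' x t)) with hS
  have h1 : (∑ w : ι → ZMod 2, ∑ s' : ZMod 2, ∑ l' : ZMod 2,
      GG J (exR R s w s') (exv s s') (exv l l')) = S / 2 ^ (Fintype.card ι + 2) := by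
    rw [hS, ← sum_ext_eq R s l (hJ J)]
    simp only [Finset.sum_div]
    refine Finset.sum_congr rfl fun w _ => Finset.sum_congr rfl fun s' _ =>
      Finset.sum_congr rfl fun l' _ => ?_
    unfold GG
    rw [Finset.sum_div, Fintype.card_option]
    refine Finset.sum_congr rfl fun u _ => ?_
    rw [Finset.sum_div]
    refine Finset.sum_congr rfl fun L _ => ?_
    rw [crk_eq]
  have h2 : ∀ (u : ι → ZMod 2) (L : ZMod 2),
      |(∑ w : ι → ZMod 2, ∑ s' : ZMod 2, ∑ x : ZMod 2,
        ∑ t : ZMod 2, hJ J (TRL.crk (NB R s l u L w s' x t))) -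
        2 ^ (Fintype.card ι + 3) * hJ (J + 1) (crk (CC R s l u L))| ≤
      2 ^ (Fintype.card ι + 3) * ((zN R s u : ℝ) - 1) := by
    intro u L
    have hz1 := one_le_zN R s u
    by_cases hz : zN R s u ≤ 1
    · rw [step_NB l u L hR hz (hJ J)]
      have : TRL.TF (hJ J) (TRL.crk (CC R s l u L)) = hJ (J + 1) (crk (CC R s l u L)) := by
        rw [crk_eq]
        exact TRL.TF_hj J _
      rw [this, sub_self, abs_zero]
      have : (1 : ℝ) ≤ zN R s u := by exact_mod_cast hz1
      have h0 : (0 : ℝ) ≤ (zN R s u : ℝ) - 1 := by linarith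
      positivity
    · have hz2 : (2 : ℝ) ≤ zN R s u := by
        have : 2 ≤ zN R s u := by omega
        exact_mod_cast this
      have hA0 : 0 ≤ ∑ w : ι → ZMod 2, ∑ s' : ZMod 2, ∑ x : ZMod 2,
          ∑ t : ZMod 2, hJ J (TRL.crk (NB R s l u L w s' x t)) :=
        Finset.sum_nonneg fun w _ => Finset.sum_nonneg fun s' _ => Finset.sum_nonneg fun x _ =>
          Finset.sum_nonneg fun t _ => TRL.hj_nonneg _ _
      have hA1 : (∑ w : ι → ZMod 2, ∑ s' : ZMod 2, ∑ x : ZMod 2,
          ∑ t : ZMod 2, hJ J (TRL.crk (NB R s l u L w s' x t))) ≤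
          2 ^ (Fintype.card ι + 3) := by
        calc _ ≤ ∑ w : ι → ZMod 2, ∑ s' : ZMod 2, ∑ x : ZMod 2, ∑ t : ZMod 2, (1 : ℝ) :=
              Finset.sum_le_sum fun w _ => Finset.sum_le_sum fun s' _ =>
                Finset.sum_le_sum fun x _ => Finset.sum_le_sum fun t _ => TRL.hj_le_one _ _
          _ = 2 ^ (Fintype.card ι + 3) := by
            simp only [Finset.sum_const, Finset.card_univ, nsmul_eq_mul, Fintype.card_fun,
              ZMod.card, mul_one]
            push_cast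
            ring
      have hB0 : 0 ≤ 2 ^ (Fintype.card ι + 3) * hJ (J + 1) (crk (CC R s l u L)) :=
        mul_nonneg (by positivity) (TRL.hj_nonneg _ _)
      have hB1 : 2 ^ (Fintype.card ι + 3) * hJ (J + 1) (crk (CC R s l u L)) ≤
          2 ^ (Fintype.card ι + 3) :=
        mul_le_of_le_one_right (by positivity) (TRL.hj_le_one _ _)
      have hpos : (0 : ℝ) < 2 ^ (Fintype.card ι + 3) := by positivity
      rw [abs_le]
      constructor <;> nlinarith
  have h3 : |S - ∑ u : ι → ZMod 2, ∑ L : ZMod 2,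
      2 ^ (Fintype.card ι + 3) * hJ (J + 1) (crk (CC R s l u L))| ≤
      ∑ u : ι → ZMod 2, ∑ L : ZMod 2, 2 ^ (Fintype.card ι + 3) * ((zN R s u : ℝ) - 1) := by
    rw [hS, ← Finset.sum_sub_distrib]
    refine (Finset.abs_sum_le_sum_abs _ _).trans (Finset.sum_le_sum fun u _ => ?_)
    rw [← Finset.sum_sub_distrib]
    exact (Finset.abs_sum_le_sum_abs _ _).trans (Finset.sum_le_sum fun L _ => h2 u L)
  have h4 : ∑ u : ι → ZMod 2, ∑ L : ZMod 2,
      2 ^ (Fintype.card ι + 3) * hJ (J + 1) (crk (CC R s l u L)) =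
      2 ^ (Fintype.card ι + 3) * (GG (J + 1) R s l * 2 ^ (Fintype.card ι + 1)) := by
    unfold GG
    rw [div_mul_cancel₀ _ (by positivity), Finset.mul_sum]
    refine Finset.sum_congr rfl fun u _ => ?_
    rw [Finset.mul_sum]
  have h5 : ∑ u : ι → ZMod 2, ∑ L : ZMod 2, 2 ^ (Fintype.card ι + 3) * ((zN R s u : ℝ) - 1) =
      2 ^ (Fintype.card ι + 3) * (2 * (2 ^ Fintype.card ι * (K0 R s - 1))) := by
    have : (2 : ℝ) ^ Fintype.card ι * (K0 R s - 1) = ∑ u : ι → ZMod 2, ((zN R s u : ℝ) - 1) := by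
      unfold K0
      rw [mul_sub, mul_div_cancel₀ _ (by positivity : (2 : ℝ) ^ Fintype.card ι ≠ 0),
        Finset.sum_sub_distrib]
      congr 1
      simp [ZMod.card]
    rw [this, Finset.mul_sum, Finset.mul_sum]
    refine Finset.sum_congr rfl fun u _ => ?_
    rw [TRL.sum_zmod2]
    ring
  rw [h4, h5] at h3
  rw [h1]
  have h6 : S / 2 ^ (Fintype.card ι + 2) / 2 ^ (Fintype.card ι + 2) - GG (J + 1) R s l =
      (S - 2 ^ (Fintype.card ι + 3) * (GG (J + 1) R s l * 2 ^ (Fintype.card ι + 1))) /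
        (2 ^ (Fintype.card ι + 3) * 2 ^ (Fintype.card ι + 1)) := by
    rw [eq_div_iff (by positivity)]
    simp only [pow_add]
    field_simp
  rw [h6, abs_div, abs_of_pos (by positivity : (0 : ℝ) < 2 ^ (Fintype.card ι + 3) *
    2 ^ (Fintype.card ι + 1)), div_le_iff₀ (by positivity)]
  refine h3.trans (le_of_eq ?_)
  ring

end Pool.Agent.TLW
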