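import Pool.Agent.TLW.LinB

/-!
S6, linear algebra: the means of `KK` and `K0` over one extension, bounds.
-/

set_option autoImplicit false
set_option linter.unusedSectionVars false

namespace Pool.Agent.TLW

open Finset

variable {ι : Type*} [Fintype ι] [DecidableEq ι]

theorem kerN_real {κ : Type*} [Fintype κ] [DecidableEq κ] (A : Matrix κ κ (ZMod 2)) :
    (kerN A : ℝ) = 2 ^ TRL.crk A := by
  rw [kerN_eq, crk_eq]; push_cast; rfl

/-! ### the limit constant -/

theorem Pinf_eq : Pinf = TRL.Poo := by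
  have hm : Multipliable fun i : ℕ => (1 - (1 / 2 : ℝ) ^ (i + 1)) := by
    have h1 : Summable fun i : ℕ => (1 / 2 : ℝ) ^ (i + 1) := by
      have := (summable_geometric_of_lt_one (r := (1 / 2 : ℝ)) (by norm_num) (by norm_num))
      exact (summable_nat_add_iff 1).2 this
    have h2 : Summable fun i : ℕ => ‖-((1 / 2 : ℝ) ^ (i + 1))‖ := by
      refine h1.congr fun i => ?_
      rw [norm_neg, Real.norm_of_nonneg (by positivity)]
    have h3 := multipliable_one_add_of_summable h2
    refine h3.congr fun i => ?_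
    ring
  have h4 := hm.hasProd.tendsto_prod_nat
  exact tendsto_nhds_unique h4 TRL.tendsto_PJ

theorem Pinf_pos : 0 < Pinf := by rw [Pinf_eq]; exact TRL.Poo_pos

theorem Pinf_le_one : Pinf ≤ 1 := by rw [Pinf_eq]; exact TRL.Poo_le_one

theorem hJ_nonneg (J r : ℕ) : 0 ≤ hJ J r := TRL.hj_nonneg J r

theorem hJ_le_one (J r : ℕ) : hJ J r ≤ 1 := TRL.hj_le_one J r

theorem hJ_zero (r : ℕ) : hJ 0 r = if r = 0 then 1 else 0 := TRL.hj_zero r

theorem abs_hJ_sub (J r : ℕ) : |hJ J r - Pinf| ≤ (1 / 2) ^ J * 2 ^ r := by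
  rw [Pinf_eq, mul_comm]; exact TRL.abs_hj_sub_Poo J r

/-! ### `KK` -/

theorem GG_nonneg (J : ℕ) (R : ι → ι → ZMod 2) (s l : ι → ZMod 2) : 0 ≤ GG J R s l := by
  unfold GG
  exact div_nonneg (Finset.sum_nonneg fun _ _ => Finset.sum_nonneg fun _ _ => hJ_nonneg _ _)
    (by positivity)

theorem sum_uL_const (c : ℝ) :
    ∑ _u : ι → ZMod 2, ∑ _L : ZMod 2, c = 2 ^ (Fintype.card ι + 1) * c := by
  simp only [Finset.sum_const, Finset.card_univ, nsmul_eq_mul, Fintype.card_fun, ZMod.card]
  push_cast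
  ring

theorem GG_le_one (J : ℕ) (R : ι → ι → ZMod 2) (s l : ι → ZMod 2) : GG J R s l ≤ 1 := by
  unfold GG
  rw [div_le_one (by positivity)]
  calc _ ≤ ∑ _u : ι → ZMod 2, ∑ _L : ZMod 2, (1 : ℝ) :=
        Finset.sum_le_sum fun _ _ => Finset.sum_le_sum fun _ _ => hJ_le_one _ _
    _ = _ := by rw [sum_uL_const, mul_one]

/-- (A5) -/
theorem GG_bound (J : ℕ) (R : ι → ι → ZMod 2) (s l : ι → ZMod 2) :
    |GG J R s l - Pinf| ≤ (1 / 2) ^ J * KK R s l := by
  have h1 : GG J R s l - Pinf =
      (∑ u : ι → ZMod 2, ∑ L : ZMod 2, (hJ J (crk (CC R s l u L)) - Pinf)) /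
        2 ^ (Fintype.card ι + 1) := by
    unfold GG
    rw [eq_div_iff (by positivity), sub_mul, div_mul_cancel₀ _ (by positivity)]
    simp only [Finset.sum_sub_distrib]
    rw [sum_uL_const]
    ring
  rw [h1, abs_div, abs_of_pos (by positivity : (0 : ℝ) < 2 ^ (Fintype.card ι + 1)),
    div_le_iff₀ (by positivity)]
  have h2 : (1 / 2 : ℝ) ^ J * KK R s l * 2 ^ (Fintype.card ι + 1) =
      ∑ u : ι → ZMod 2, ∑ L : ZMod 2, (1 / 2) ^ J * (kerN (CC R s l u L) : ℝ) := by
    unfold KK
    rw [mul_assoc, div_mul_cancel₀ _ (by positivity), Finset.mul_sum]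
    exact Finset.sum_congr rfl fun u _ => Finset.mul_sum _ _ _
  rw [h2]
  refine (Finset.abs_sum_le_sum_abs _ _).trans (Finset.sum_le_sum fun u _ => ?_)
  refine (Finset.abs_sum_le_sum_abs _ _).trans (Finset.sum_le_sum fun L _ => ?_)
  rw [kerN_eq]
  push_cast
  exact abs_hJ_sub J _

theorem kerN_ext_le (R : ι → ι → ZMod 2) (s l w u : ι → ZMod 2) (s' l' t L : ZMod 2) :
    (kerN (CC (exR R s w s') (exv s s') (exv l l') (exv u t) L) : ℝ) ≤
      2 * kerN (CC R s l u L) := by
  rw [kerN_real, kerN_real, crk_CC_ext]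
  have h1 := TRL.rk_insert_le (NB R s l u L w s' (l' + s' * L) (t + s')) IO (some none)
  rw [insert_IO, rk_NB_IO] at h1
  calc (2 : ℝ) ^ TRL.crk (NB R s l u L w s' (l' + s' * L) (t + s'))
      ≤ 2 ^ (TRL.crk (CC R s l u L) + 1) := pow_le_pow_right₀ (by norm_num) h1
    _ = 2 * 2 ^ TRL.crk (CC R s l u L) := by ring

/-- (A3), second part -/
theorem KK_ext_le (R : ι → ι → ZMod 2) (s l w : ι → ZMod 2) (s' l' : ZMod 2) :
    KK (exR R s w s') (exv s s') (exv l l') ≤ 2 * KK R s l := by
  unfold KK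
  rw [div_le_iff₀ (by positivity), sum_option_vec, Fintype.card_option]
  have h1 : 2 * ((∑ u : ι → ZMod 2, ∑ L : ZMod 2, (kerN (CC R s l u L) : ℝ)) /
      2 ^ (Fintype.card ι + 1)) * 2 ^ (Fintype.card ι + 1 + 1) =
      ∑ u : ι → ZMod 2, ∑ _t : ZMod 2, ∑ L : ZMod 2, 2 * (kerN (CC R s l u L) : ℝ) := by
    have : ∀ u : ι → ZMod 2, ∑ _t : ZMod 2, ∑ L : ZMod 2, 2 * (kerN (CC R s l u L) : ℝ) =
        4 * ∑ L : ZMod 2, (kerN (CC R s l u L) : ℝ) := by
      intro u
      rw [TRL.sum_zmod2, ← Finset.mul_sum]; ring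
    simp only [this]
    rw [← Finset.mul_sum, pow_succ (2 : ℝ) (Fintype.card ι + 1)]
    field_simp
    ring
  rw [h1]
  refine Finset.sum_le_sum fun u _ => Finset.sum_le_sum fun t _ => Finset.sum_le_sum fun L _ => ?_
  exact kerN_ext_le R s l w u s' l' t L

/-- Sum over all parameters of the number of kernel vectors in the normal form. -/
theorem sum_kerN_NB (R : ι → ι → ZMod 2) (s l u : ι → ZMod 2) (L : ZMod 2) :
    ∑ w : ι → ZMod 2, ∑ s' : ZMod 2, ∑ x : ZMod 2, ∑ t : ZMod 2,
      (2 : ℝ) ^ (TRL.crk (NB R s l u L w s' x t)) =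
      2 ^ (Fintype.card ι + 2) * (2 ^ TRL.crk (CC R s l u L) + 2) := by
  classical
  -- count pairs (parameters, vector)
  have hcount : ∀ (w : ι → ZMod 2) (s' x t : ZMod 2),
      (2 : ℝ) ^ (TRL.crk (NB R s l u L w s' x t)) =
      ∑ v : ι → ZMod 2, ∑ a : ZMod 2,
        ((if (∀ i, ∑ j, MM R u i j * v j + l i * a = 0) ∧ (∑ j, s j * v j) + L * a = 0 ∧
            (∑ j, w j * v j) + x * a = 0 then (1 : ℝ) else 0) +
          if (∀ i, ∑ j, MM R u i j * v j + l i * a = w i) ∧ (∑ j, s j * v j) + L * a = s' ∧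
            (∑ j, w j * v j) + x * a = t then (1 : ℝ) else 0) := by
    intro w s' x t
    have h1 : ((Finset.univ.filter fun v : Option (Option ι) → ZMod 2 =>
        ∀ i, ∑ k, NB R s l u L w s' x t i k * v k = 0).card : ℝ) =
        (2 : ℝ) ^ (TRL.crk (NB R s l u L w s' x t)) := by
      rw [TRL.card_ker]; push_cast; rfl
    rw [← h1, Finset.card_filter]
    push_cast
    rw [sum_option_vec]
    have h2 : ∀ (v' : Option ι → ZMod 2) (a : ZMod 2), (∀ i, ∑ k,
        NB R s l u L w s' x t i k * exv v' a k = 0) ↔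
        ((∀ i, ∑ j, MM R u i j * v' (some j) + l i * a + w i * v' none = 0) ∧
          (∑ j, s j * v' (some j)) + L * a + s' * v' none = 0 ∧
            (∑ j, w j * v' (some j)) + x * a + t * v' none = 0) := by
      intro v' a
      have r1 : ∀ i : ι, ∑ k, NB R s l u L w s' x t (some (some i)) k * exv v' a k =
          ∑ j, MM R u i j * v' (some j) + l i * a + w i * v' none := by
        intro i
        simp only [Fintype.sum_option]
        have : ∀ j : ι, NB R s l u L w s' x t (some (some i)) (some (some j)) *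
          exv v' a (some (some j)) = MM R u i j * v' (some j) := fun j => rfl
        simp only [this]
        have e1 : NB R s l u L w s' x t (some (some i)) none * exv v' a none = l i * a := rfl
        have e2 : NB R s l u L w s' x t (some (some i)) (some none) * exv v' a (some none) =
          w i * v' none := rfl
        rw [e1, e2]; ring
      have r2 : ∑ k, NB R s l u L w s' x t none k * exv v' a k =
          (∑ j, s j * v' (some j)) + L * a + s' * v' none := by
        simp only [Fintype.sum_option]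
        have : ∀ j : ι, NB R s l u L w s' x t none (some (some j)) *
          exv v' a (some (some j)) = s j * v' (some j) := fun j => rfl
        simp only [this]
        have e1 : NB R s l u L w s' x t none none * exv v' a none = L * a := rfl
        have e2 : NB R s l u L w s' x t none (some none) * exv v' a (some none) =
          s' * v' none := rfl
        rw [e1, e2]; ring
      have r3 : ∑ k, NB R s l u L w s' x t (some none) k * exv v' a k =
          (∑ j, w j * v' (some j)) + x * a + t * v' none := by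
        simp only [Fintype.sum_option]
        have : ∀ j : ι, NB R s l u L w s' x t (some none) (some (some j)) *
          exv v' a (some (some j)) = w j * v' (some j) := fun j => rfl
        simp only [this]
        have e1 : NB R s l u L w s' x t (some none) none * exv v' a none = x * a := rfl
        have e2 : NB R s l u L w s' x t (some none) (some none) * exv v' a (some none) =
          t * v' none := rfl
        rw [e1, e2]; ring
      constructor
      · intro h
        exact ⟨fun i => by rw [← r1]; exact h _, by rw [← r2]; exact h _,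
          by rw [← r3]; exact h _⟩
      · rintro ⟨h1, h2, h3⟩ i
        rcases i with _ | _ | i
        · rw [r2]; exact h2
        · rw [r3]; exact h3
        · rw [r1]; exact h1 i
    simp only [h2]
    rw [sum_option_vec]
    refine Finset.sum_congr rfl fun v _ => ?_
    rw [Finset.sum_comm]
    refine Finset.sum_congr rfl fun a _ => ?_
    rw [TRL.sum_zmod2]
    have e0 : ∀ j : ι, exv v (0 : ZMod 2) (some j) = v j := fun j => rfl
    have e1 : ∀ j : ι, exv v (1 : ZMod 2) (some j) = v j := fun j => rfl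
    have e2 : exv v (0 : ZMod 2) none = 0 := rfl
    have e3 : exv v (1 : ZMod 2) none = 1 := rfl
    simp only [e0, e1, e2, e3, mul_zero, add_zero, mul_one]
    congr 1
    refine if_congr ?_ rfl rfl
    simp only [CharTwo.add_eq_zero]
  simp only [hcount]
  -- exchange the sums
  have hswap : ∑ w : ι → ZMod 2, ∑ s' : ZMod 2, ∑ x : ZMod 2, ∑ t : ZMod 2,
      ∑ v : ι → ZMod 2, ∑ a : ZMod 2,
        ((if (∀ i, ∑ j, MM R u i j * v j + l i * a = 0) ∧ (∑ j, s j * v j) + L * a = 0 ∧
            (∑ j, w j * v j) + x * a = 0 then (1 : ℝ) else 0) +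
          if (∀ i, ∑ j, MM R u i j * v j + l i * a = w i) ∧ (∑ j, s j * v j) + L * a = s' ∧
            (∑ j, w j * v j) + x * a = t then (1 : ℝ) else 0) =
      ∑ v : ι → ZMod 2, ∑ a : ZMod 2, ∑ w : ι → ZMod 2, ∑ s' : ZMod 2, ∑ x : ZMod 2,
        ∑ t : ZMod 2,
        ((if (∀ i, ∑ j, MM R u i j * v j + l i * a = 0) ∧ (∑ j, s j * v j) + L * a = 0 ∧
            (∑ j, w j * v j) + x * a = 0 then (1 : ℝ) else 0) +
          if (∀ i, ∑ j, MM R u i j * v j + l i * a = w i) ∧ (∑ j, s j * v j) + L * a = s' ∧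
            (∑ j, w j * v j) + x * a = t then (1 : ℝ) else 0) := by
    -- move `v`, `a` outwards one sum at a time
    have m1 : ∀ (f : ZMod 2 → (ι → ZMod 2) → ZMod 2 → ℝ),
        ∑ t : ZMod 2, ∑ v : ι → ZMod 2, ∑ a : ZMod 2, f t v a =
        ∑ v : ι → ZMod 2, ∑ a : ZMod 2, ∑ t : ZMod 2, f t v a := by
      intro f
      rw [Finset.sum_comm]
      exact Finset.sum_congr rfl fun v _ => Finset.sum_comm
    have m2 : ∀ (f : (ι → ZMod 2) → (ι → ZMod 2) → ZMod 2 → ℝ),
        ∑ w : ι → ZMod 2, ∑ v : ι → ZMod 2, ∑ a : ZMod 2, f w v a =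
        ∑ v : ι → ZMod 2, ∑ a : ZMod 2, ∑ w : ι → ZMod 2, f w v a := by
      intro f
      rw [Finset.sum_comm]
      exact Finset.sum_congr rfl fun v _ => Finset.sum_comm
    conv_lhs =>
      simp only [m1]
      rw [m2]
  rw [hswap]
  have hn : (Fintype.card (ι → ZMod 2) : ℝ) = 2 ^ Fintype.card ι := by
    rw [Fintype.card_fun, ZMod.card]; push_cast; rfl
  have hone : ∀ c : ZMod 2, ∑ t : ZMod 2, (if c = t then (1 : ℝ) else 0) = 1 := by
    intro c; rw [Finset.sum_ite_eq Finset.univ c (fun _ => (1 : ℝ)), if_pos (Finset.mem_univ c)]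
  -- second indicator: exactly two parameters
  have hsecond : ∀ (v : ι → ZMod 2) (a : ZMod 2),
      ∑ w : ι → ZMod 2, ∑ s' : ZMod 2, ∑ x : ZMod 2, ∑ t : ZMod 2,
        (if (∀ i, ∑ j, MM R u i j * v j + l i * a = w i) ∧ (∑ j, s j * v j) + L * a = s' ∧
            (∑ j, w j * v j) + x * a = t then (1 : ℝ) else 0) = 2 := by
    intro v a
    rw [Finset.sum_eq_single_of_mem (fun i => ∑ j, MM R u i j * v j + l i * a)
      (Finset.mem_univ _)]
    · rw [Finset.sum_eq_single_of_mem ((∑ j, s j * v j) + L * a) (Finset.mem_univ _)]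
      · have : ∀ x : ZMod 2, ∑ t : ZMod 2,
            (if (∀ i, ∑ j, MM R u i j * v j + l i * a =
                (fun i => ∑ j, MM R u i j * v j + l i * a) i) ∧
              (∑ j, s j * v j) + L * a = (∑ j, s j * v j) + L * a ∧
              (∑ j, (fun i => ∑ j, MM R u i j * v j + l i * a) j * v j) + x * a = t
              then (1 : ℝ) else 0) = 1 := by
          intro x
          simp only [true_and, implies_true]
          exact hone _
        rw [Finset.sum_congr rfl fun x _ => this x, TRL.sum_zmod2]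
        norm_num
      · intro s' _ hs'
        refine Finset.sum_eq_zero fun x _ => Finset.sum_eq_zero fun t _ => ?_
        rw [if_neg]
        rintro ⟨_, h, _⟩
        exact hs' h.symm
    · intro w _ hw
      refine Finset.sum_eq_zero fun s' _ => Finset.sum_eq_zero fun x _ =>
        Finset.sum_eq_zero fun t _ => ?_
      rw [if_neg]
      rintro ⟨h, _, _⟩
      exact hw (funext fun i => (h i).symm)
  -- first indicator
  have hfirst : ∀ (v : ι → ZMod 2) (a : ZMod 2),
      ∑ w : ι → ZMod 2, ∑ s' : ZMod 2, ∑ x : ZMod 2, ∑ t : ZMod 2,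
        (if (∀ i, ∑ j, MM R u i j * v j + l i * a = 0) ∧ (∑ j, s j * v j) + L * a = 0 ∧
            (∑ j, w j * v j) + x * a = 0 then (1 : ℝ) else 0) =
      2 ^ (Fintype.card ι + 2) * ((if (∀ i, ∑ j, MM R u i j * v j + l i * a = 0) ∧
        (∑ j, s j * v j) + L * a = 0 then (1 : ℝ) else 0) +
        if v = 0 ∧ a = 0 then (1 : ℝ) else 0) := by
    intro v a
    by_cases hC : (∀ i, ∑ j, MM R u i j * v j + l i * a = 0) ∧ (∑ j, s j * v j) + L * a = 0
    · have e1 : ∀ (w : ι → ZMod 2) (x : ZMod 2),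
          (if (∀ i, ∑ j, MM R u i j * v j + l i * a = 0) ∧ (∑ j, s j * v j) + L * a = 0 ∧
            (∑ j, w j * v j) + x * a = 0 then (1 : ℝ) else 0) =
          (1 + TRL.sg (∑ j, w j * v j) * TRL.sg (x * a)) / 2 := by
        intro w x
        rw [← TRL.sg_add]
        by_cases h : (∑ j, w j * v j) + x * a = 0
        · rw [if_pos ⟨hC.1, hC.2, h⟩, h, TRL.sg_zero]; norm_num
        · rw [if_neg fun h' => h h'.2.2, TRL.zmod2_ne_zero.1 h, TRL.sg_one]; norm_num
      simp only [e1]
      have e2 : ∑ w : ι → ZMod 2, ∑ s' : ZMod 2, ∑ x : ZMod 2, ∑ t : ZMod 2,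
          (1 + TRL.sg (∑ j, w j * v j) * TRL.sg (x * a)) / 2 =
          2 * ∑ w : ι → ZMod 2, ∑ x : ZMod 2,
            (1 + TRL.sg (∑ j, w j * v j) * TRL.sg (x * a)) := by
        rw [Finset.mul_sum]
        refine Finset.sum_congr rfl fun w _ => ?_
        rw [TRL.sum_zmod2, Finset.mul_sum, ← Finset.sum_add_distrib]
        refine Finset.sum_congr rfl fun x _ => ?_
        rw [TRL.sum_zmod2]
        ring
      rw [e2]
      have e3 : ∑ w : ι → ZMod 2, ∑ x : ZMod 2,
            (1 + TRL.sg (∑ j, w j * v j) * TRL.sg (x * a)) =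
          2 * 2 ^ Fintype.card ι + (∑ w : ι → ZMod 2, TRL.sg (∑ j, w j * v j)) *
            ∑ x : ZMod 2, TRL.sg (x * a) := by
        rw [Finset.sum_mul_sum]
        simp only [Finset.sum_add_distrib]
        congr 1
        rw [TRL.sum_zmod2]
        simp only [Finset.sum_const, Finset.card_univ, nsmul_eq_mul, mul_one]
        rw [hn]; ring
      rw [e3, TRL.sum_univ_sg, TRL.sum_sg_mul, if_pos hC]
      by_cases hv : v = 0 ∧ a = 0
      · rw [if_pos hv, if_pos (fun i => by rw [hv.1]; rfl), if_pos hv.2]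
        rw [pow_add]; ring
      · rw [if_neg hv]
        have : (if ∀ i, v i = 0 then (2 : ℝ) ^ Fintype.card ι else 0) *
            (if a = 0 then 2 else 0) = 0 := by
          by_cases ha : a = 0
          · have hv' : ¬ ∀ i, v i = 0 := fun h => hv ⟨funext h, ha⟩
            rw [if_neg hv', zero_mul]
          · rw [if_neg ha, mul_zero]
        rw [this, pow_add]; ring
    · have e1 : ∀ (w : ι → ZMod 2) (x : ZMod 2),
          (if (∀ i, ∑ j, MM R u i j * v j + l i * a = 0) ∧ (∑ j, s j * v j) + L * a = 0 ∧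
            (∑ j, w j * v j) + x * a = 0 then (1 : ℝ) else 0) = 0 := by
        intro w x
        rw [if_neg]
        rintro ⟨h1, h2, _⟩
        exact hC ⟨h1, h2⟩
      simp only [e1]
      have hv : ¬ (v = 0 ∧ a = 0) := by
        rintro ⟨rfl, rfl⟩
        exact hC ⟨fun i => by simp, by simp⟩
      rw [if_neg hC, if_neg hv]
      simp
  simp only [Finset.sum_add_distrib]
  simp only [hfirst, hsecond]
  have hK : ∑ v : ι → ZMod 2, ∑ a : ZMod 2,
      (if (∀ i, ∑ j, MM R u i j * v j + l i * a = 0) ∧ (∑ j, s j * v j) + L * a = 0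
        then (1 : ℝ) else 0) = 2 ^ TRL.crk (CC R s l u L) := by
    have h1 : ((Finset.univ.filter fun v : Option ι → ZMod 2 =>
        ∀ i, ∑ k, CC R s l u L i k * v k = 0).card : ℝ) =
        (2 : ℝ) ^ (TRL.crk (CC R s l u L)) := by
      rw [TRL.card_ker]; push_cast; rfl
    rw [← h1, Finset.card_filter]
    push_cast
    rw [sum_option_vec]
    refine Finset.sum_congr rfl fun v _ => Finset.sum_congr rfl fun a _ => ?_
    refine if_congr ?_ rfl rfl
    have r1 : ∀ i : ι, ∑ k, CC R s l u L (some i) k * exv v a k =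
        ∑ j, MM R u i j * v j + l i * a := by
      intro i
      rw [Fintype.sum_option, add_comm]
      rfl
    have r2 : ∑ k, CC R s l u L none k * exv v a k = (∑ j, s j * v j) + L * a := by
      rw [Fintype.sum_option, add_comm]
      rfl
    constructor
    · rintro ⟨h1, h2⟩ i
      rcases i with _ | i
      · rw [r2]; exact h2
      · rw [r1]; exact h1 i
    · intro h
      exact ⟨fun i => by rw [← r1]; exact h _, by rw [← r2]; exact h _⟩
  have hz : ∑ v : ι → ZMod 2, ∑ a : ZMod 2, (if v = 0 ∧ a = 0 then (1 : ℝ) else 0) = 1 := by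
    rw [Finset.sum_eq_single_of_mem 0 (Finset.mem_univ _)]
    · rw [TRL.sum_zmod2]; simp
    · intro v _ hv
      refine Finset.sum_eq_zero fun a _ => ?_
      rw [if_neg fun h => hv h.1]
  simp only [← Finset.mul_sum, Finset.sum_add_distrib]
  rw [hK, hz, sum_uL_const]
  rw [pow_add, pow_add]
  ring

/-- (A3), first part -/
theorem KK_step (R : ι → ι → ZMod 2) (s l : ι → ZMod 2) :
    (∑ w : ι → ZMod 2, ∑ s' : ZMod 2, ∑ l' : ZMod 2,
      KK (exR R s w s') (exv s s') (exv l l')) / 2 ^ (Fintype.card ι + 2) =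
        KK R s l / 2 + 1 := by
  have h1 : (∑ w : ι → ZMod 2, ∑ s' : ZMod 2, ∑ l' : ZMod 2,
      KK (exR R s w s') (exv s s') (exv l l')) =
      (∑ u : ι → ZMod 2, ∑ L : ZMod 2, ∑ w : ι → ZMod 2, ∑ s' : ZMod 2, ∑ x : ZMod 2,
      ∑ t : ZMod 2, (2 : ℝ) ^ (TRL.crk (NB R s l u L w s' x t))) /
        2 ^ (Fintype.card ι + 2) := by
    rw [← sum_ext_eq R s l (fun r => (2 : ℝ) ^ r)]
    simp only [Finset.sum_div]
    refine Finset.sum_congr rfl fun w _ => Finset.sum_congr rfl fun s' _ =>
      Finset.sum_congr rfl fun l' _ => ?_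
    unfold KK
    rw [Finset.sum_div, Fintype.card_option]
    refine Finset.sum_congr rfl fun u _ => ?_
    rw [Finset.sum_div]
    refine Finset.sum_congr rfl fun L _ => ?_
    rw [kerN_real]
  rw [h1]
  simp only [sum_kerN_NB]
  have h2 : ∑ u : ι → ZMod 2, ∑ L : ZMod 2, 2 ^ (Fintype.card ι + 2) *
      ((2 : ℝ) ^ TRL.crk (CC R s l u L) + 2) =
      2 ^ (Fintype.card ι + 2) * (KK R s l * 2 ^ (Fintype.card ι + 1) +
        2 ^ (Fintype.card ι + 1) * 2) := by
    unfold KK
    rw [div_mul_cancel₀ _ (by positivity)]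
    simp only [← Finset.mul_sum, Finset.sum_add_distrib]
    rw [sum_uL_const]
    simp only [kerN_real]
  rw [h2]
  simp only [pow_add]
  field_simp

end Pool.Agent.TLW
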