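import Pool.Agent.TLW.LinC

/-!
S6, linear algebra: the mean of `K0` over one extension, bounds.
-/

set_option autoImplicit false
set_option linter.unusedSectionVars false

namespace Pool.Agent.TLW

open Finset

variable {ι : Type*} [Fintype ι] [DecidableEq ι]

theorem one_le_K0 (R : ι → ι → ZMod 2) (s : ι → ZMod 2) : 1 ≤ K0 R s := by
  unfold K0
  rw [le_div_iff₀ (by positivity), one_mul]
  calc (2 : ℝ) ^ Fintype.card ι = ∑ _u : ι → ZMod 2, (1 : ℝ) := by
        simp [ZMod.card]
    _ ≤ _ := Finset.sum_le_sum fun u _ => by exact_mod_cast one_le_zN R s u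

theorem mem_zset {R : ι → ι → ZMod 2} {s u y : ι → ZMod 2} :
    y ∈ (univ.filter fun y : ι → ZMod 2 => (∀ i, s i = 1 → y i = 0) ∧ (MM R u).mulVec y = 0) ↔
      (∀ i, s i = 1 → y i = 0) ∧ ∀ i, ∑ j, MM R u i j * y j = 0 := by
  rw [Finset.mem_filter, funext_iff]
  constructor
  · rintro ⟨_, h1, h2⟩; exact ⟨h1, h2⟩
  · rintro ⟨h1, h2⟩; exact ⟨Finset.mem_univ _, h1, h2⟩

theorem sum_s_mul {s y : ι → ZMod 2} (h : ∀ i, s i = 1 → y i = 0) (f : ι → ZMod 2) :
    ∑ j, f j * s j * y j = 0 := by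
  refine Finset.sum_eq_zero fun j _ => ?_
  rcases TRL.zmod2_cases (s j) with h0 | h1
  · rw [h0, mul_zero, zero_mul]
  · rw [h j h1, mul_zero]

theorem zN_le_kerN (R : ι → ι → ZMod 2) (s l u : ι → ZMod 2) (L : ZMod 2) :
    zN R s u ≤ kerN (CC R s l u L) := by
  unfold zN kerN
  refine Finset.card_le_card_of_injOn (fun y => exv y 0) ?_ ?_
  · intro y hy
    rw [Finset.mem_coe, mem_zset] at hy
    rw [Finset.mem_coe, Finset.mem_filter, funext_iff]
    refine ⟨Finset.mem_univ _, fun i => ?_⟩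
    rcases i with _ | i
    · show ∑ k, CC R s l u L none k * exv y 0 k = 0
      rw [Fintype.sum_option]
      have e1 : CC R s l u L none none * exv y (0 : ZMod 2) none = L * 0 := rfl
      have e2 : ∀ j : ι, CC R s l u L none (some j) * exv y (0 : ZMod 2) (some j) = s j * y j :=
        fun j => rfl
      rw [e1, Finset.sum_congr rfl fun j _ => e2 j, mul_zero, zero_add]
      have := sum_s_mul hy.1 fun _ => 1
      simpa using this
    · show ∑ k, CC R s l u L (some i) k * exv y 0 k = 0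
      rw [Fintype.sum_option]
      have e1 : CC R s l u L (some i) none * exv y (0 : ZMod 2) none = l i * 0 := rfl
      have e2 : ∀ j : ι, CC R s l u L (some i) (some j) * exv y (0 : ZMod 2) (some j) =
        MM R u i j * y j := fun j => rfl
      rw [e1, Finset.sum_congr rfl fun j _ => e2 j, mul_zero, zero_add]
      exact hy.2 i
  · intro y _ y' _ h
    funext i
    exact congrFun h (some i)

theorem K0_le_KK (R : ι → ι → ZMod 2) (s l : ι → ZMod 2) : K0 R s ≤ KK R s l := by
  unfold K0 KK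
  rw [div_le_div_iff₀ (by positivity) (by positivity)]
  have h1 : (∑ u : ι → ZMod 2, (zN R s u : ℝ)) * 2 ^ (Fintype.card ι + 1) =
      (∑ u : ι → ZMod 2, ∑ _L : ZMod 2, (zN R s u : ℝ)) * 2 ^ Fintype.card ι := by
    simp only [TRL.sum_zmod2, ← two_mul, ← Finset.mul_sum]
    rw [pow_succ]; ring
  rw [h1]
  refine mul_le_mul_of_nonneg_right ?_ (by positivity)
  exact Finset.sum_le_sum fun u _ => Finset.sum_le_sum fun L _ => by
    exact_mod_cast zN_le_kerN R s l u L

theorem KK_pos (R : ι → ι → ZMod 2) (s l : ι → ZMod 2) : 1 ≤ KK R s l :=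
  (one_le_K0 R s).trans (K0_le_KK R s l)

/-- `zN` of an extension. -/
theorem zN_ext (R : ι → ι → ZMod 2) (s w u : ι → ZMod 2) (s' t : ZMod 2) :
    (zN (exR R s w s') (exv s s') (exv u t) : ℝ) =
      ∑ y : ι → ZMod 2,
        ((if ((∀ i, s i = 1 → y i = 0) ∧ ∀ i, ∑ j, MM R u i j * y j = 0) ∧
            ∑ j, w j * y j = 0 then (1 : ℝ) else 0) +
          if (∀ i, s i = 1 → y i = 0) ∧ s' = 0 ∧ (∀ i, ∑ j, MM R u i j * y j = w i) ∧
            ∑ j, w j * y j = t then (1 : ℝ) else 0) := by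
  classical
  unfold zN
  rw [Finset.card_filter]
  push_cast
  rw [sum_option_vec]
  refine Finset.sum_congr rfl fun y _ => ?_
  rw [TRL.sum_zmod2]
  have hr1 : ∀ (a : ZMod 2) (i : ι), ((MM (exR R s w s') (exv u t)).mulVec (exv y a)) (some i) =
      w i * a + ∑ j, MM R u i j * y j := by
    intro a i
    show ∑ k, MM (exR R s w s') (exv u t) (some i) k * exv y a k = _
    rw [Fintype.sum_option]
    congr 1
    refine Finset.sum_congr rfl fun j _ => ?_
    rw [MM_ext_some]; rfl
  have hr2 : ∀ (a : ZMod 2), ((MM (exR R s w s') (exv u t)).mulVec (exv y a)) none =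
      t * a + ∑ j, (w j + s' * s j) * y j := by
    intro a
    show ∑ k, MM (exR R s w s') (exv u t) none k * exv y a k = _
    rw [Fintype.sum_option]
    rfl
  have hw : ∀ (_ : ∀ i, s i = 1 → y i = 0), ∑ j, (w j + s' * s j) * y j = ∑ j, w j * y j := by
    intro h
    have := sum_s_mul h fun _ => s'
    simp only [add_mul, Finset.sum_add_distrib]
    rw [this, add_zero]
  congr 1
  · refine if_congr ?_ rfl rfl
    constructor
    · rintro ⟨h1, h2⟩
      have h1' : ∀ i, s i = 1 → y i = 0 := fun i hi => h1 (some i) hi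
      refine ⟨⟨h1', fun i => ?_⟩, ?_⟩
      · have := congrFun h2 (some i)
        rw [hr1, mul_zero, zero_add] at this
        exact this
      · have := congrFun h2 none
        rw [hr2, mul_zero, zero_add, hw h1'] at this
        exact this
    · rintro ⟨⟨h1, h2⟩, h3⟩
      refine ⟨fun i hi => ?_, funext fun i => ?_⟩
      · rcases i with _ | i
        · rfl
        · exact h1 i hi
      · rcases i with _ | i
        · rw [hr2, mul_zero, zero_add, hw h1]; exact h3
        · rw [hr1, mul_zero, zero_add]; exact h2 i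
  · refine if_congr ?_ rfl rfl
    constructor
    · rintro ⟨h1, h2⟩
      have h1' : ∀ i, s i = 1 → y i = 0 := fun i hi => h1 (some i) hi
      refine ⟨h1', ?_, fun i => ?_, ?_⟩
      · by_contra hne
        have := h1 none (TRL.zmod2_ne_zero.1 hne)
        exact absurd this (by simp [exv])
      · have := congrFun h2 (some i)
        rw [hr1, mul_one] at this
        exact (CharTwo.add_eq_zero.1 this).symm
      · have := congrFun h2 none
        rw [hr2, mul_one, hw h1'] at this
        exact (CharTwo.add_eq_zero.1 this).symm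
    · rintro ⟨h1, h0, h2, h3⟩
      refine ⟨fun i hi => ?_, funext fun i => ?_⟩
      · rcases i with _ | i
        · have : s' = 1 := hi
          rw [h0] at this
          exact absurd this (by decide)
        · exact h1 i hi
      · rcases i with _ | i
        · rw [hr2, mul_one, hw h1, h3]
          exact TRL.zmod2_add_self t
        · rw [hr1, mul_one, h2 i]
          exact TRL.zmod2_add_self (w i)

/-- number of vectors supported off `s` -/
theorem card_off (s : ι → ZMod 2) :
    ∑ y : ι → ZMod 2, (if ∀ i, s i = 1 → y i = 0 then (1 : ℝ) else 0) =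
      2 ^ Fintype.card ι * (1 / 2) ^ (univ.filter fun i => s i = 1).card := by
  classical
  rw [← Finset.sum_filter, Finset.sum_const, nsmul_eq_mul, mul_one]
  have h1 : (Finset.univ.filter fun y : ι → ZMod 2 => ∀ i, s i = 1 → y i = 0) =
      TRL.VI (univ.filter fun i => s i ≠ 1) := by
    ext y
    rw [Finset.mem_filter, TRL.mem_VI]
    constructor
    · rintro ⟨_, h⟩ i hi
      rw [Finset.mem_filter] at hi
      push Not at hi
      exact h i (hi (Finset.mem_univ i))
    · intro h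
      refine ⟨Finset.mem_univ _, fun i hi => h i ?_⟩
      rw [Finset.mem_filter]
      push Not
      exact fun _ => hi
  rw [h1]
  unfold TRL.VI
  rw [Fintype.card_piFinset]
  have h2 : ∀ i, (if i ∈ univ.filter (fun i => s i ≠ 1) then (Finset.univ : Finset (ZMod 2))
      else {0}).card = if s i = 1 then 1 else 2 := by
    intro i
    by_cases h : s i = 1
    · rw [if_neg (by rw [Finset.mem_filter]; push Not; exact fun _ => h), if_pos h,
        Finset.card_singleton]
    · rw [if_pos (Finset.mem_filter.2 ⟨Finset.mem_univ i, h⟩), if_neg h, Finset.card_univ,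
        ZMod.card]
  rw [Finset.prod_congr rfl fun i _ => h2 i]
  push_cast
  have h3 : ∀ i : ι, ((if s i = 1 then (1 : ℝ) else 2)) = 2 * (if s i = 1 then 1 / 2 else 1) := by
    intro i; split_ifs <;> norm_num
  rw [Finset.prod_congr rfl fun i _ => h3 i, Finset.prod_mul_distrib, Finset.prod_const,
    Finset.card_univ, ← Finset.prod_filter, Finset.prod_const]

theorem sum_zN_ext (R : ι → ι → ZMod 2) (s u : ι → ZMod 2) :
    ∑ w : ι → ZMod 2, ∑ s' : ZMod 2, ∑ t : ZMod 2,
      (zN (exR R s w s') (exv s s') (exv u t) : ℝ) =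
      2 ^ (Fintype.card ι + 1) * ((zN R s u : ℝ) + 1) +
        2 ^ Fintype.card ι * (1 / 2) ^ (univ.filter fun i => s i = 1).card := by
  classical
  simp only [zN_ext]
  have hn : (Fintype.card (ι → ZMod 2) : ℝ) = 2 ^ Fintype.card ι := by
    rw [Fintype.card_fun, ZMod.card]; push_cast; rfl
  have hswap : ∀ (f : (ι → ZMod 2) → ZMod 2 → ZMod 2 → (ι → ZMod 2) → ℝ),
      ∑ w : ι → ZMod 2, ∑ s' : ZMod 2, ∑ t : ZMod 2, ∑ y : ι → ZMod 2, f w s' t y =
      ∑ y : ι → ZMod 2, ∑ w : ι → ZMod 2, ∑ s' : ZMod 2, ∑ t : ZMod 2, f w s' t y := by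
    intro f
    have h1 : ∀ w : ι → ZMod 2, ∑ s' : ZMod 2, ∑ t : ZMod 2, ∑ y : ι → ZMod 2, f w s' t y =
        ∑ y : ι → ZMod 2, ∑ s' : ZMod 2, ∑ t : ZMod 2, f w s' t y := by
      intro w
      have h2 : ∀ s' : ZMod 2, ∑ t : ZMod 2, ∑ y : ι → ZMod 2, f w s' t y =
          ∑ y : ι → ZMod 2, ∑ t : ZMod 2, f w s' t y := fun s' => Finset.sum_comm
      rw [Finset.sum_congr rfl fun s' _ => h2 s', Finset.sum_comm]
    rw [Finset.sum_congr rfl fun w _ => h1 w, Finset.sum_comm]
  rw [hswap]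
  have hfirst : ∀ y : ι → ZMod 2, ∑ w : ι → ZMod 2, ∑ _s' : ZMod 2, ∑ _t : ZMod 2,
      (if ((∀ i, s i = 1 → y i = 0) ∧ ∀ i, ∑ j, MM R u i j * y j = 0) ∧
            ∑ j, w j * y j = 0 then (1 : ℝ) else 0) =
      2 ^ (Fintype.card ι + 1) * ((if (∀ i, s i = 1 → y i = 0) ∧
        ∀ i, ∑ j, MM R u i j * y j = 0 then (1 : ℝ) else 0) + if y = 0 then (1 : ℝ) else 0) := by
    intro y
    by_cases hC : (∀ i, s i = 1 → y i = 0) ∧ ∀ i, ∑ j, MM R u i j * y j = 0
    · have e1 : ∀ w : ι → ZMod 2,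
          (if ((∀ i, s i = 1 → y i = 0) ∧ ∀ i, ∑ j, MM R u i j * y j = 0) ∧
            ∑ j, w j * y j = 0 then (1 : ℝ) else 0) = (1 + TRL.sg (∑ j, w j * y j)) / 2 := by
        intro w
        by_cases h : ∑ j, w j * y j = 0
        · rw [if_pos ⟨hC, h⟩, h, TRL.sg_zero]; norm_num
        · rw [if_neg fun h' => h h'.2, TRL.zmod2_ne_zero.1 h, TRL.sg_one]; norm_num
      simp only [e1]
      have e2 : ∑ w : ι → ZMod 2, ∑ _s' : ZMod 2, ∑ _t : ZMod 2,
          (1 + TRL.sg (∑ j, w j * y j)) / 2 =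
          2 * (2 ^ Fintype.card ι + ∑ w : ι → ZMod 2, TRL.sg (∑ j, w j * y j)) := by
        have : ∀ w : ι → ZMod 2, ∑ _s' : ZMod 2, ∑ _t : ZMod 2,
          (1 + TRL.sg (∑ j, w j * y j)) / 2 = 2 * (1 + TRL.sg (∑ j, w j * y j)) := by
          intro w
          simp only [TRL.sum_zmod2]; ring
        rw [Finset.sum_congr rfl fun w _ => this w, ← Finset.mul_sum, Finset.sum_add_distrib]
        simp only [Finset.sum_const, Finset.card_univ, nsmul_eq_mul, mul_one]
        rw [hn]
      rw [e2, TRL.sum_univ_sg, if_pos hC]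
      by_cases hy : y = 0
      · rw [if_pos hy, if_pos (fun i => by rw [hy]; rfl), pow_succ]; ring
      · have hy' : ¬ ∀ i, y i = 0 := fun h => hy (funext h)
        rw [if_neg hy, if_neg hy', pow_succ]; ring
    · have e1 : ∀ w : ι → ZMod 2,
          (if ((∀ i, s i = 1 → y i = 0) ∧ ∀ i, ∑ j, MM R u i j * y j = 0) ∧
            ∑ j, w j * y j = 0 then (1 : ℝ) else 0) = 0 := fun w => if_neg fun h => hC h.1
      simp only [e1]
      have hy : y ≠ 0 := by
        rintro rfl
        exact hC ⟨fun _ _ => rfl, fun i => by simp⟩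
      rw [if_neg hC, if_neg hy]
      simp
  have hsecond : ∀ y : ι → ZMod 2, ∑ w : ι → ZMod 2, ∑ s' : ZMod 2, ∑ t : ZMod 2,
      (if (∀ i, s i = 1 → y i = 0) ∧ s' = 0 ∧ (∀ i, ∑ j, MM R u i j * y j = w i) ∧
            ∑ j, w j * y j = t then (1 : ℝ) else 0) =
      if ∀ i, s i = 1 → y i = 0 then (1 : ℝ) else 0 := by
    intro y
    by_cases hC : ∀ i, s i = 1 → y i = 0
    · rw [if_pos hC, Finset.sum_eq_single_of_mem (fun i => ∑ j, MM R u i j * y j)
        (Finset.mem_univ _)]
      · rw [Finset.sum_eq_single_of_mem (0 : ZMod 2) (Finset.mem_univ _)]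
        · rw [Finset.sum_eq_single_of_mem
            (∑ j, (fun i => ∑ j, MM R u i j * y j) j * y j) (Finset.mem_univ _)]
          · rw [if_pos ⟨hC, rfl, fun _ => rfl, rfl⟩]
          · intro t _ ht
            rw [if_neg fun h => ht h.2.2.2.symm]
        · intro s' _ hs'
          refine Finset.sum_eq_zero fun t _ => ?_
          rw [if_neg fun h => hs' h.2.1]
      · intro w _ hw
        refine Finset.sum_eq_zero fun s' _ => Finset.sum_eq_zero fun t _ => ?_
        rw [if_neg fun h => hw (funext fun i => (h.2.2.1 i).symm)]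
    · rw [if_neg hC]
      refine Finset.sum_eq_zero fun w _ => Finset.sum_eq_zero fun s' _ =>
        Finset.sum_eq_zero fun t _ => if_neg fun h => hC h.1
  simp only [Finset.sum_add_distrib]
  simp only [hfirst, hsecond]
  rw [← card_off s]
  congr 1
  rw [← Finset.mul_sum, Finset.sum_add_distrib]
  congr 1
  congr 1
  · unfold zN
    rw [Finset.card_filter]
    push_cast
    refine Finset.sum_congr rfl fun y _ => ?_
    refine if_congr ?_ rfl rfl
    rw [funext_iff]
    rfl
  · rw [Finset.sum_ite_eq' Finset.univ (0 : ι → ZMod 2) (fun _ => (1 : ℝ)),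
      if_pos (Finset.mem_univ _)]

/-- (A4), first part -/
theorem K0_step (R : ι → ι → ZMod 2) (s : ι → ZMod 2) :
    (∑ w : ι → ZMod 2, ∑ s' : ZMod 2, (K0 (exR R s w s') (exv s s') - 1)) /
      2 ^ (Fintype.card ι + 1) =
        (K0 R s - 1) / 2 + (1 / 2) ^ ((univ.filter fun i => s i = 1).card + 2) := by
  have h1 : ∑ w : ι → ZMod 2, ∑ s' : ZMod 2, K0 (exR R s w s') (exv s s') =
      (∑ u : ι → ZMod 2, ∑ w : ι → ZMod 2, ∑ s' : ZMod 2, ∑ t : ZMod 2,
        (zN (exR R s w s') (exv s s') (exv u t) : ℝ)) / 2 ^ (Fintype.card ι + 1) := by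
    have h2 : ∀ (w : ι → ZMod 2) (s' : ZMod 2), K0 (exR R s w s') (exv s s') =
        (∑ u : ι → ZMod 2, ∑ t : ZMod 2,
          (zN (exR R s w s') (exv s s') (exv u t) : ℝ)) / 2 ^ (Fintype.card ι + 1) := by
      intro w s'
      unfold K0
      rw [sum_option_vec, Fintype.card_option]
    simp only [h2, ← Finset.sum_div]
    congr 1
    have h3 : ∀ w : ι → ZMod 2, ∑ s' : ZMod 2, ∑ u : ι → ZMod 2, ∑ t : ZMod 2,
        (zN (exR R s w s') (exv s s') (exv u t) : ℝ) =
        ∑ u : ι → ZMod 2, ∑ s' : ZMod 2, ∑ t : ZMod 2,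
        (zN (exR R s w s') (exv s s') (exv u t) : ℝ) := fun w => Finset.sum_comm
    rw [Finset.sum_congr rfl fun w _ => h3 w, Finset.sum_comm]
  have h4 : ∑ w : ι → ZMod 2, ∑ s' : ZMod 2, (K0 (exR R s w s') (exv s s') - 1) =
      ∑ w : ι → ZMod 2, ∑ s' : ZMod 2, K0 (exR R s w s') (exv s s') -
        2 ^ (Fintype.card ι + 1) := by
    simp only [Finset.sum_sub_distrib]
    congr 1
    have := sum_uL_const (ι := ι) 1
    rw [mul_one] at this
    exact this
  rw [h4, h1]
  simp only [sum_zN_ext]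
  have h5 : ∑ u : ι → ZMod 2, (2 ^ (Fintype.card ι + 1) * ((zN R s u : ℝ) + 1) +
        2 ^ Fintype.card ι * (1 / 2) ^ (univ.filter fun i => s i = 1).card) =
      2 ^ (Fintype.card ι + 1) * (K0 R s * 2 ^ Fintype.card ι + 2 ^ Fintype.card ι) +
        2 ^ Fintype.card ι * (2 ^ Fintype.card ι *
          (1 / 2) ^ (univ.filter fun i => s i = 1).card) := by
    unfold K0
    rw [div_mul_cancel₀ _ (by positivity)]
    rw [Finset.sum_add_distrib, ← Finset.mul_sum, Finset.sum_add_distrib]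
    simp only [Finset.sum_const, Finset.card_univ, nsmul_eq_mul, Fintype.card_fun, ZMod.card,
      mul_one]
    push_cast
    ring
  rw [h5]
  simp only [pow_add]
  field_simp
  ring

theorem zN_ext_le (R : ι → ι → ZMod 2) (s w u : ι → ZMod 2) (s' t : ZMod 2) :
    (zN (exR R s w s') (exv s s') (exv u t) : ℝ) ≤ 2 * zN R s u := by
  classical
  rw [zN_ext, Finset.sum_add_distrib, two_mul]
  have hz : (zN R s u : ℝ) = ∑ y : ι → ZMod 2, (if (∀ i, s i = 1 → y i = 0) ∧
      ∀ i, ∑ j, MM R u i j * y j = 0 then (1 : ℝ) else 0) := by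
    unfold zN
    rw [Finset.card_filter]
    push_cast
    refine Finset.sum_congr rfl fun y _ => ?_
    refine if_congr ?_ rfl rfl
    rw [funext_iff]
    rfl
  refine add_le_add ?_ ?_
  · rw [hz]
    refine Finset.sum_le_sum fun y _ => ?_
    by_cases h : ((∀ i, s i = 1 → y i = 0) ∧ ∀ i, ∑ j, MM R u i j * y j = 0) ∧
            ∑ j, w j * y j = 0
    · rw [if_pos h, if_pos h.1]
    · rw [if_neg h]
      split_ifs <;> norm_num
  · by_cases hex : ∃ y0 : ι → ZMod 2, (∀ i, s i = 1 → y0 i = 0) ∧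
        (∀ i, ∑ j, MM R u i j * y0 j = w i)
    · obtain ⟨y0, h1, h2⟩ := hex
      rw [hz]
      have hshift : ∑ y : ι → ZMod 2, (if (∀ i, s i = 1 → y i = 0) ∧
          ∀ i, ∑ j, MM R u i j * y j = 0 then (1 : ℝ) else 0) =
          ∑ y : ι → ZMod 2, (if (∀ i, s i = 1 → (y + y0) i = 0) ∧
          ∀ i, ∑ j, MM R u i j * (y + y0) j = 0 then (1 : ℝ) else 0) :=
        (Fintype.sum_equiv (Equiv.addRight y0) _ _ fun _ => rfl).symm
      rw [hshift]
      refine Finset.sum_le_sum fun y _ => ?_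
      by_cases h : (∀ i, s i = 1 → y i = 0) ∧ s' = 0 ∧ (∀ i, ∑ j, MM R u i j * y j = w i) ∧
            ∑ j, w j * y j = t
      · rw [if_pos h, if_pos]
        refine ⟨fun i hi => ?_, fun i => ?_⟩
        · rw [Pi.add_apply, h.1 i hi, h1 i hi, add_zero]
        · simp only [Pi.add_apply, mul_add, Finset.sum_add_distrib]
          rw [h.2.2.1 i, h2 i]
          exact TRL.zmod2_add_self _
      · rw [if_neg h]
        split_ifs <;> norm_num
    · have : ∑ y : ι → ZMod 2, (if (∀ i, s i = 1 → y i = 0) ∧ s' = 0 ∧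
          (∀ i, ∑ j, MM R u i j * y j = w i) ∧ ∑ j, w j * y j = t then (1 : ℝ) else 0) = 0 := by
        refine Finset.sum_eq_zero fun y _ => if_neg fun h => hex ⟨y, h.1, h.2.2.1⟩
      rw [this]
      exact Nat.cast_nonneg _

/-- (A4), second part -/
theorem K0_ext_le (R : ι → ι → ZMod 2) (s w : ι → ZMod 2) (s' : ZMod 2) :
    K0 (exR R s w s') (exv s s') ≤ 2 * K0 R s := by
  unfold K0
  rw [div_le_iff₀ (by positivity), sum_option_vec, Fintype.card_option]
  have h1 : 2 * ((∑ u : ι → ZMod 2, (zN R s u : ℝ)) / 2 ^ Fintype.card ι) *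
      2 ^ (Fintype.card ι + 1) =
      ∑ u : ι → ZMod 2, ∑ _t : ZMod 2, 2 * (zN R s u : ℝ) := by
    have : ∀ u : ι → ZMod 2, ∑ _t : ZMod 2, 2 * (zN R s u : ℝ) = 4 * (zN R s u : ℝ) := by
      intro u
      rw [TRL.sum_zmod2]; ring
    simp only [this]
    rw [← Finset.mul_sum, pow_succ (2 : ℝ) (Fintype.card ι)]
    field_simp
    ring
  rw [h1]
  refine Finset.sum_le_sum fun u _ => Finset.sum_le_sum fun t _ => ?_
  exact zN_ext_le R s w u s' t

/-- (A2) -/
theorem GG_step {R : ι → ι → ZMod 2} {s : ι → ZMod 2} (l : ι → ZMod 2) (hR : Recip R s)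
    (J : ℕ) :
    |(∑ w : ι → ZMod 2, ∑ s' : ZMod 2, ∑ l' : ZMod 2,
      GG J (exR R s w s') (exv s s') (exv l l')) / 2 ^ (Fintype.card ι + 2) -
        GG (J + 1) R s l| ≤ 2 * (K0 R s - 1) := by
  have h1 := GG_step' (l := l) hR J
  have h2 := one_le_K0 R s
  linarith

end Pool.Agent.TLW
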