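import Pool.Agent.TLW.LinD

/-!
S6: reindexing of the data along an equivalence of the index types.
-/

set_option autoImplicit false

namespace Pool.Agent.TLW

open Finset

theorem crk_reindex {κ κ' : Type*} [Fintype κ] [DecidableEq κ] [Fintype κ'] [DecidableEq κ']
    (e : κ ≃ κ') (A : Matrix κ κ (ZMod 2)) (B : Matrix κ' κ' (ZMod 2))
    (h : ∀ i j, B (e i) (e j) = A i j) : crk B = crk A := by
  rw [crk_eq, crk_eq]
  have hA : A = B.submatrix e e := by
    ext i j
    exact (h i j).symm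
  rw [hA, TRL.crk_submatrix_equiv]

private theorem MM_reindex {ι ι' : Type*} [Fintype ι] [DecidableEq ι] [Fintype ι']
    [DecidableEq ι'] (e : ι ≃ ι') (R : ι → ι → ZMod 2) (R' : ι' → ι' → ZMod 2)
    (hR : ∀ i j, i ≠ j → R' (e i) (e j) = R i j) (u' : ι' → ZMod 2) (i j : ι) :
    MM R' u' (e i) (e j) = MM R (fun k => u' (e k)) i j := by
  unfold MM
  simp only [Matrix.of_apply]
  by_cases h : i = j
  · rw [if_pos (congrArg e h), if_pos h]
  · rw [if_neg fun h' => h (e.injective h'), if_neg h, hR i j h]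

private theorem crk_CC_reindex {ι ι' : Type*} [Fintype ι] [DecidableEq ι] [Fintype ι']
    [DecidableEq ι'] (e : ι ≃ ι') (R : ι → ι → ZMod 2) (s l : ι → ZMod 2) (R' : ι' → ι' → ZMod 2)
    (s' l' : ι' → ZMod 2) (hR : ∀ i j, i ≠ j → R' (e i) (e j) = R i j)
    (hs : ∀ i, s' (e i) = s i) (hl : ∀ i, l' (e i) = l i) (u' : ι' → ZMod 2) (L : ZMod 2) :
    crk (CC R' s' l' u' L) = crk (CC R s l (fun k => u' (e k)) L) := by
  refine crk_reindex (Equiv.optionCongr e) _ _ fun i j => ?_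
  rcases i with _ | i <;> rcases j with _ | j
  · rfl
  · exact hs j
  · exact hl i
  · exact MM_reindex e R R' hR u' i j

/-- Sums over vectors are invariant under reindexing. -/
theorem sum_vec_reindex {ι ι' : Type*} [Fintype ι] [DecidableEq ι] [Fintype ι'] [DecidableEq ι']
    (e : ι ≃ ι') (f : (ι → ZMod 2) → ℝ) :
    ∑ u' : ι' → ZMod 2, f (fun k => u' (e k)) = ∑ u : ι → ZMod 2, f u :=
  Fintype.sum_equiv (Equiv.arrowCongr e.symm (Equiv.refl (ZMod 2))) _ _ fun _ => rfl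

theorem KK_reindex {ι ι' : Type*} [Fintype ι] [DecidableEq ι] [Fintype ι'] [DecidableEq ι']
    (e : ι ≃ ι') (R : ι → ι → ZMod 2) (s l : ι → ZMod 2) (R' : ι' → ι' → ZMod 2)
    (s' l' : ι' → ZMod 2) (hR : ∀ i j, i ≠ j → R' (e i) (e j) = R i j)
    (hs : ∀ i, s' (e i) = s i) (hl : ∀ i, l' (e i) = l i) : KK R' s' l' = KK R s l := by
  unfold KK
  rw [Fintype.card_congr e]
  congr 1
  rw [← sum_vec_reindex e fun u => ∑ L : ZMod 2, (kerN (CC R s l u L) : ℝ)]
  refine Finset.sum_congr rfl fun u' _ => Finset.sum_congr rfl fun L _ => ?_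
  rw [kerN_eq, kerN_eq, crk_CC_reindex e R s l R' s' l' hR hs hl]

theorem GG_reindex {ι ι' : Type*} [Fintype ι] [DecidableEq ι] [Fintype ι'] [DecidableEq ι']
    (J : ℕ) (e : ι ≃ ι') (R : ι → ι → ZMod 2) (s l : ι → ZMod 2) (R' : ι' → ι' → ZMod 2)
    (s' l' : ι' → ZMod 2) (hR : ∀ i j, i ≠ j → R' (e i) (e j) = R i j)
    (hs : ∀ i, s' (e i) = s i) (hl : ∀ i, l' (e i) = l i) : GG J R' s' l' = GG J R s l := by
  unfold GG
  rw [Fintype.card_congr e]
  congr 1
  rw [← sum_vec_reindex e fun u => ∑ L : ZMod 2, hJ J (crk (CC R s l u L))]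
  refine Finset.sum_congr rfl fun u' _ => Finset.sum_congr rfl fun L _ => ?_
  rw [crk_CC_reindex e R s l R' s' l' hR hs hl]

theorem K0_reindex {ι ι' : Type*} [Fintype ι] [DecidableEq ι] [Fintype ι'] [DecidableEq ι']
    (e : ι ≃ ι') (R : ι → ι → ZMod 2) (s : ι → ZMod 2) (R' : ι' → ι' → ZMod 2)
    (s' : ι' → ZMod 2) (hR : ∀ i j, i ≠ j → R' (e i) (e j) = R i j)
    (hs : ∀ i, s' (e i) = s i) : K0 R' s' = K0 R s := by
  unfold K0
  rw [Fintype.card_congr e]
  congr 1
  rw [← sum_vec_reindex e fun u => (zN R s u : ℝ)]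
  refine Finset.sum_congr rfl fun u' _ => ?_
  congr 1
  unfold zN
  refine Finset.card_bij' (fun y _ k => y (e k)) (fun y _ k => y (e.symm k)) ?_ ?_ ?_ ?_
  · intro y hy
    rw [mem_zset] at hy ⊢
    refine ⟨fun i hi => hy.1 (e i) (by rw [hs]; exact hi), fun i => ?_⟩
    rw [← hy.2 (e i), ← Equiv.sum_comp e]
    exact Finset.sum_congr rfl fun j _ => by rw [MM_reindex e R R' hR]
  · intro y hy
    rw [mem_zset] at hy ⊢
    refine ⟨fun i hi => hy.1 (e.symm i) (by rw [← hs, e.apply_symm_apply]; exact hi),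
      fun i => ?_⟩
    rw [← hy.2 (e.symm i), ← Equiv.sum_comp e]
    refine Finset.sum_congr rfl fun j _ => ?_
    rw [e.symm_apply_apply]
    have := MM_reindex e R R' hR u' (e.symm i) j
    rw [e.apply_symm_apply] at this
    rw [this]
  · intro y _
    funext k
    exact congrArg y (e.apply_symm_apply k)
  · intro y _
    funext k
    exact congrArg y (e.symm_apply_apply k)

end Pool.Agent.TLW
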